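import Mathlib

/-!
Combinatorial core for the pair of minimal systems without diagonal recurrence:
a finite graph hypothesis `Good` that passes from `W` to `Equiv.Perm W`, and a matching lemma.
-/

set_option autoImplicit false

namespace Pool.Agent.H59.Diag

open Finset

/-- The inductive hypothesis on a finite set `W` with a relation `r` and a permutation `τ`. -/
structure Good {W : Type} (r : W → W → Prop)
    (τ : Equiv.Perm W) : Prop where
  symm : ∀ a b, r a b → r b a
  irrefl : ∀ a, ¬ r a a
  t1 : ∀ a, r (τ a) a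
  t2 : ∀ a, r (τ (τ a)) a
  t3 : ∀ a, r (τ (τ (τ a))) a
  conn : ∀ S : Set W, S.Nonempty → (∀ g h g', g ∈ S → r g h → r h g' → g' ∈ S) → S = Set.univ
  reg : ∃ d : ℕ, ∀ a, Nat.card {b // r a b} = d

variable {W : Type} [Fintype W] [DecidableEq W] {r : W → W → Prop} {τ : Equiv.Perm W}

/-- Neighbourhood as a finset. -/
noncomputable def nb (r : W → W → Prop) (a : W) : Finset W := by
  classical exact univ.filter (fun b => r a b)

omit [DecidableEq W] in
lemma mem_nb (a b : W) : b ∈ nb r a ↔ r a b := by
  classical simp [nb]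

omit [DecidableEq W] in
lemma card_nb (a : W) : (nb r a).card = Nat.card {b // r a b} := by
  classical
  rw [Nat.card_eq_fintype_card, Fintype.card_subtype]
  rfl

/-- Expansion: a nonempty proper subset has strictly more neighbours. -/
lemma expand (hG : Good r τ) (S : Finset W) (hS : S.Nonempty) (hS' : S ≠ univ) :
    S.card < (S.biUnion (nb r)).card := by
  classical
  obtain ⟨d, hd⟩ := hG.reg
  have hd' : ∀ a, (nb r a).card = d := fun a => by rw [card_nb, hd]
  set N := S.biUnion (nb r) with hN
  by_contra hlt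
  push Not at hlt
  have hdpos : 0 < d := by
    obtain ⟨a, -⟩ := hS
    rw [← hd' a]
    exact Finset.card_pos.mpr ⟨τ a, (mem_nb _ _).2 (hG.symm _ _ (hG.t1 a))⟩
  -- double counting
  have habove : ∀ s ∈ S, (Finset.bipartiteAbove r N s).card = d := by
    intro s hs
    rw [← hd' s]
    congr 1
    ext t
    simp only [Finset.bipartiteAbove, Finset.mem_filter, mem_nb]
    constructor
    · exact fun h => h.2
    · exact fun h => ⟨Finset.mem_biUnion.mpr ⟨s, hs, (mem_nb _ _).2 h⟩, h⟩
  have hbelow : ∀ t ∈ N, (Finset.bipartiteBelow r S t).card ≤ d := by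
    intro t _
    rw [← hd' t]
    apply Finset.card_le_card
    intro s hs
    simp only [Finset.bipartiteBelow, Finset.mem_filter] at hs
    exact (mem_nb _ _).2 (hG.symm _ _ hs.2)
  have hsum := Finset.sum_card_bipartiteAbove_eq_sum_card_bipartiteBelow (s := S) (t := N) r
  rw [Finset.sum_congr rfl habove, Finset.sum_const, smul_eq_mul] at hsum
  have hsum2 : ∑ t ∈ N, (Finset.bipartiteBelow r S t).card ≤ N.card * d := by
    calc _ ≤ ∑ t ∈ N, d := Finset.sum_le_sum hbelow
      _ = _ := by rw [Finset.sum_const, smul_eq_mul]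
  have heq : ∀ t ∈ N, (Finset.bipartiteBelow r S t).card = d := by
    by_contra hne
    push Not at hne
    obtain ⟨t0, ht0, hne⟩ := hne
    have : ∑ t ∈ N, (Finset.bipartiteBelow r S t).card < ∑ t ∈ N, d :=
      Finset.sum_lt_sum hbelow ⟨t0, ht0, lt_of_le_of_ne (hbelow t0 ht0) hne⟩
    rw [Finset.sum_const, smul_eq_mul, ← hsum] at this
    have := Nat.lt_of_mul_lt_mul_right this
    omega
  -- closure
  have hcl : (S : Set W) = Set.univ := by
    apply hG.conn
    · exact hS
    · intro g h g' hg hgh hhg'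
      have hhN : h ∈ N := Finset.mem_biUnion.mpr ⟨g, hg, (mem_nb _ _).2 hgh⟩
      have hsub : Finset.bipartiteBelow r S h ⊆ nb r h := by
        intro s hs
        simp only [Finset.bipartiteBelow, Finset.mem_filter] at hs
        exact (mem_nb _ _).2 (hG.symm _ _ hs.2)
      have := Finset.eq_of_subset_of_card_le hsub (by rw [heq h hhN, hd' h])
      have hg' : g' ∈ nb r h := (mem_nb _ _).2 hhg'
      rw [← this] at hg'
      simp only [Finset.bipartiteBelow, Finset.mem_filter] at hg'
      exact hg'.1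
  apply hS'
  exact_mod_cast hcl

/-- The matching lemma. -/
lemma matching (hG : Good r τ) (v v' : W) :
    ∃ ρ : Equiv.Perm W, ρ v = v' ∧ ∀ u, u ≠ v → r (ρ u) u := by
  classical
  set t : W → Finset W := fun u => if u = v then {v'} else (nb r u).erase v' with ht
  have hall : ∀ s : Finset W, s.card ≤ (s.biUnion t).card := by
    intro s
    -- first for sets avoiding v
    have key : ∀ s : Finset W, v ∉ s → s.card ≤ ((s.biUnion (nb r)).erase v').card := by
      intro s hs
      rcases s.eq_empty_or_nonempty with rfl | hne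
      · simp
      · have h1 := expand hG s hne (fun h => hs (h ▸ Finset.mem_univ v))
        have h2 := Finset.pred_card_le_card_erase (s := s.biUnion (nb r)) (a := v')
        omega
    have hbi : ∀ s : Finset W, v ∉ s → s.biUnion t = (s.biUnion (nb r)).erase v' := by
      intro s hs
      ext x
      simp only [Finset.mem_biUnion, Finset.mem_erase, ht]
      constructor
      · rintro ⟨a, ha, hx⟩
        rw [if_neg (fun h : a = v => hs (h ▸ ha))] at hx
        rw [Finset.mem_erase] at hx
        exact ⟨hx.1, a, ha, hx.2⟩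
      · rintro ⟨hx, a, ha, hx'⟩
        refine ⟨a, ha, ?_⟩
        rw [if_neg (fun h : a = v => hs (h ▸ ha))]
        exact Finset.mem_erase.mpr ⟨hx, hx'⟩
    by_cases hv : v ∈ s
    · have hs : s = insert v (s.erase v) := (Finset.insert_erase hv).symm
      have hnot : v ∉ s.erase v := Finset.notMem_erase v s
      rw [hs, Finset.card_insert_of_notMem hnot, Finset.biUnion_insert, hbi _ hnot]
      have : t v = {v'} := by simp [ht]
      rw [this, Finset.card_union_of_disjoint, Finset.card_singleton]
      · have := key _ hnot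
        omega
      · rw [Finset.disjoint_singleton_left]
        simp
    · rw [hbi _ hv]
      exact key s hv
  obtain ⟨f, hf, hft⟩ := (Finset.all_card_le_biUnion_card_iff_exists_injective t).1 hall
  refine ⟨Equiv.ofBijective f (Finite.injective_iff_bijective.1 hf), ?_, ?_⟩
  · have := hft v
    simpa [ht] using this
  · intro u hu
    have := hft u
    simp only [ht, if_neg hu, Finset.mem_erase, mem_nb] at this
    exact hG.symm _ _ this.2

/-- The relation on permutations. -/
def prel (r : W → W → Prop) (w w' : Equiv.Perm W) : Prop := ∀ u, r (w u) (w' u)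

/-- The subgroup generated by the quotients of `r`-displacements. -/
def Hgp (r : W → W → Prop) : Subgroup (Equiv.Perm W) :=
  Subgroup.closure {x | ∃ δ δ' : Equiv.Perm W, (∀ u, r (δ u) u) ∧ (∀ u, r (δ' u) u) ∧ x = δ * δ'⁻¹}

omit [Fintype W] [DecidableEq W] in
lemma mem_Hgp {δ δ' : Equiv.Perm W} (h : ∀ u, r (δ u) u) (h' : ∀ u, r (δ' u) u) :
    δ * δ'⁻¹ ∈ Hgp r :=
  Subgroup.subset_closure ⟨δ, δ', h, h', rfl⟩

lemma swap_tau_mem (hG : Good r τ) (a : W) : Equiv.swap a (τ a) ∈ Hgp r := by
  have h1 : ∀ u, r ((Equiv.swap a (τ a) * (τ * τ)) u) u := by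
    intro u
    rw [Equiv.Perm.mul_apply, Equiv.Perm.mul_apply]
    by_cases ha : τ (τ u) = a
    · rw [ha, Equiv.swap_apply_left, ← ha]
      exact hG.t3 u
    · by_cases hb : τ (τ u) = τ a
      · rw [hb, Equiv.swap_apply_right]
        have : τ u = a := τ.injective hb
        rw [← this]
        exact hG.t1 u
      · rw [Equiv.swap_apply_of_ne_of_ne ha hb]
        exact hG.t2 u
  have h2 : ∀ u, r ((τ * τ : Equiv.Perm W) u) u := fun u => hG.t2 u
  have := mem_Hgp h1 h2
  simpa [mul_assoc] using this

lemma swap_mem_of_rel (hG : Good r τ) {a b : W} (hab : r a b) : Equiv.swap a b ∈ Hgp r := by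
  by_cases h1 : b = τ a
  · subst h1
    exact swap_tau_mem hG a
  by_cases h2 : a = τ b
  · subst h2
    rw [Equiv.swap_comm]
    exact swap_tau_mem hG b
  have hne : a ≠ b := fun h => hG.irrefl b (h ▸ hab)
  have hta : τ a ≠ a := fun h => hG.irrefl a (by simpa [h] using hG.t1 a)
  have htb : τ b ≠ b := fun h => hG.irrefl b (by simpa [h] using hG.t1 b)
  have htab : τ a ≠ τ b := fun h => hne (τ.injective h)
  set π : Equiv.Perm W := Equiv.swap a b * Equiv.swap b (τ b) * Equiv.swap a (τ a) with hπ
  have pa : π a = τ a := by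
    simp only [hπ, Equiv.Perm.mul_apply, Equiv.swap_apply_left]
    rw [Equiv.swap_apply_of_ne_of_ne (Ne.symm h1) htab, Equiv.swap_apply_of_ne_of_ne hta (Ne.symm h1)]
  have pta : π (τ a) = b := by
    simp only [hπ, Equiv.Perm.mul_apply, Equiv.swap_apply_right]
    rw [Equiv.swap_apply_of_ne_of_ne hne h2, Equiv.swap_apply_left]
  have pb : π b = τ b := by
    simp only [hπ, Equiv.Perm.mul_apply]
    rw [Equiv.swap_apply_of_ne_of_ne hne.symm h1, Equiv.swap_apply_left,
      Equiv.swap_apply_of_ne_of_ne (Ne.symm h2) htb]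
  have ptb : π (τ b) = a := by
    simp only [hπ, Equiv.Perm.mul_apply]
    rw [Equiv.swap_apply_of_ne_of_ne (Ne.symm h2) htab.symm, Equiv.swap_apply_right,
      Equiv.swap_apply_right]
  have pother : ∀ x, x ≠ a → x ≠ b → x ≠ τ a → x ≠ τ b → π x = x := by
    intro x ha hb hc hd
    simp only [hπ, Equiv.Perm.mul_apply]
    rw [Equiv.swap_apply_of_ne_of_ne ha hc, Equiv.swap_apply_of_ne_of_ne hb hd,
      Equiv.swap_apply_of_ne_of_ne ha hb]
  have hρ : ∀ u, r ((π * τ) u) u := by
    intro u
    rw [Equiv.Perm.mul_apply]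
    by_cases c1 : τ u = a
    · rw [c1, pa, ← c1]; exact hG.t2 u
    by_cases c2 : τ u = b
    · rw [c2, pb, ← c2]; exact hG.t2 u
    by_cases c3 : τ u = τ a
    · rw [c3, pta, τ.injective c3]; exact hG.symm _ _ hab
    by_cases c4 : τ u = τ b
    · rw [c4, ptb, τ.injective c4]; exact hab
    rw [pother _ c1 c2 c3 c4]
    exact hG.t1 u
  have hπmem : π ∈ Hgp r := by
    have := mem_Hgp hρ (fun u => hG.t1 u)
    simpa [mul_assoc] using this
  have hfin : Equiv.swap a b = π * Equiv.swap a (τ a) * Equiv.swap b (τ b) := by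
    rw [hπ]
    simp [mul_assoc]
  rw [hfin]
  exact mul_mem (mul_mem hπmem (swap_tau_mem hG a)) (swap_tau_mem hG b)

lemma swap_mem (hG : Good r τ) (a b : W) : Equiv.swap a b ∈ Hgp r := by
  have key : {b : W | Equiv.swap a b ∈ Hgp r} = Set.univ := by
    have step : ∀ g h, Equiv.swap a g ∈ Hgp r → r g h → Equiv.swap a h ∈ Hgp r := by
      intro g h hg hgh
      by_cases h1 : a = h
      · subst h1; rw [Equiv.swap_self]; exact one_mem _
      by_cases h2 : a = g
      · subst h2; exact swap_mem_of_rel hG hgh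
      have h3 : g ≠ h := fun e => hG.irrefl h (e ▸ hgh)
      have := swap_mem_of_rel hG hgh
      have e : Equiv.swap g h * Equiv.swap a g * Equiv.swap g h = Equiv.swap h a :=
        Equiv.swap_mul_swap_mul_swap h2 h1
      rw [Equiv.swap_comm, ← e]
      exact mul_mem (mul_mem this hg) this
    apply hG.conn
    · exact ⟨a, by simp only [Set.mem_ofPred_eq, Equiv.swap_self]; exact one_mem _⟩
    · intro g h g' hg hgh hhg'
      exact step h g' (step g h hg hgh) hhg'
  have : b ∈ {b : W | Equiv.swap a b ∈ Hgp r} := by rw [key]; trivial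
  exact this

lemma Hgp_top (hG : Good r τ) : Hgp r = ⊤ := by
  rw [eq_top_iff, ← Equiv.Perm.closure_isSwap, Subgroup.closure_le]
  rintro σ ⟨a, b, -, rfl⟩
  exact swap_mem hG a b

/-- `Good` passes to the set of permutations. -/
lemma good_perm [Nonempty W] (hG : Good r τ) :
    Good (prel r) (Equiv.mulLeft τ : Equiv.Perm (Equiv.Perm W)) where
  symm := fun w w' h u => hG.symm _ _ (h u)
  irrefl := fun w h => hG.irrefl _ (h (Classical.arbitrary W))
  t1 := fun w u => hG.t1 (w u)
  t2 := fun w u => hG.t2 (w u)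
  t3 := fun w u => hG.t3 (w u)
  conn := by
    intro S hS hcl
    have hmain : ∀ x ∈ Hgp r, (∀ g ∈ S, x * g ∈ S) ∧ (∀ g ∈ S, x⁻¹ * g ∈ S) := by
      have gen : ∀ δ δ' : Equiv.Perm W, (∀ u, r (δ u) u) → (∀ u, r (δ' u) u) →
          ∀ g ∈ S, δ * δ'⁻¹ * g ∈ S := by
        intro δ δ' hδ hδ' g hg
        refine hcl g (δ'⁻¹ * g) _ hg ?_ ?_
        · intro u
          have := hδ' ((δ'⁻¹ * g) u)
          simpa using this
        · intro u
          have := hG.symm _ _ (hδ ((δ'⁻¹ * g) u))
          simpa [mul_assoc] using this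
      intro x hx
      induction hx using Subgroup.closure_induction with
      | mem x hx =>
        obtain ⟨δ, δ', hδ, hδ', rfl⟩ := hx
        refine ⟨gen δ δ' hδ hδ', ?_⟩
        have := gen δ' δ hδ' hδ
        simpa [mul_inv_rev] using this
      | one => simp
      | mul x y _ _ hx hy =>
        refine ⟨fun g hg => ?_, fun g hg => ?_⟩
        · rw [mul_assoc]; exact hx.1 _ (hy.1 _ hg)
        · rw [mul_inv_rev, mul_assoc]; exact hy.2 _ (hx.2 _ hg)
      | inv x _ hx =>
        exact ⟨hx.2, by simpa using hx.1⟩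
    obtain ⟨g0, hg0⟩ := hS
    ext g
    refine ⟨fun _ => trivial, fun _ => ?_⟩
    have := (hmain (g * g0⁻¹) (by rw [Hgp_top hG]; trivial)).1 g0 hg0
    simpa using this
  reg := by
    refine ⟨Nat.card {δ : Equiv.Perm W // prel r 1 δ}, fun w => ?_⟩
    apply Nat.card_congr
    refine ⟨fun x => ⟨x.1 * w⁻¹, fun u => ?_⟩, fun x => ⟨x.1 * w, fun u => ?_⟩, ?_, ?_⟩
    · have := x.2 (w⁻¹ u)
      simpa using this
    · have := x.2 (w u)
      simpa using this
    · intro x; simp
    · intro x; simp

/-- The base case: four letters. -/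
lemma good_base : Good (fun a b : ZMod 4 => a ≠ b) (Equiv.addRight 1) where
  symm := fun a b h => h.symm
  irrefl := fun a h => h rfl
  t1 := by decide
  t2 := by decide
  t3 := by decide
  conn := by
    intro S hS hcl
    obtain ⟨g, hg⟩ := hS
    have : ∀ g g' : ZMod 4, g ≠ g' → ∃ h, g ≠ h ∧ h ≠ g' := by decide
    ext g'
    refine ⟨fun _ => trivial, fun _ => ?_⟩
    by_cases e : g = g'
    · exact e ▸ hg
    · obtain ⟨h, h1, h2⟩ := this g g' e
      exact hcl g h g' hg h1 h2
  reg := by
    refine ⟨3, fun a => ?_⟩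
    rw [Nat.card_eq_fintype_card]
    revert a
    decide

end Pool.Agent.H59.Diag
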