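import Pool.Agent.H59.DiagTower

/-!
The action of the free group on the levels, compatibility, and the limit space.
-/

set_option autoImplicit false

namespace Pool.Agent.H59.Diag

/-- The levels. -/
abbrev V (k : ℕ) : Type := W k × ℤ

/-- The shift at level `k`. -/
def sh (k : ℕ) : Equiv.Perm (V k) := Equiv.prodCongr (Equiv.refl _) (Equiv.addRight (1 : ℤ))

/-- The map `φ` at level `k`. -/
noncomputable def Ph (k : ℕ) : Equiv.Perm (V k) where
  toFun v := (phi k v.2 v.1, v.2)
  invFun v := ((phi k v.2).symm v.1, v.2)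
  left_inv v := by simp
  right_inv v := by simp

/-- The free group on two generators. -/
abbrev F : Type := FreeGroup Bool

/-- The action of the free group on the level `k`. -/
noncomputable def act (k : ℕ) : F →* Equiv.Perm (V k) :=
  FreeGroup.lift (fun b => if b then sh k else Ph k)

lemma act_T (k : ℕ) (v : V k) : act k (FreeGroup.of true) v = (v.1, v.2 + 1) := by
  simp only [act, FreeGroup.lift_apply_of, if_true]
  rfl

lemma act_P (k : ℕ) (v : V k) : act k (FreeGroup.of false) v = (phi k v.2 v.1, v.2) := by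
  simp [act, Ph]

/-- The coding function. -/
noncomputable def al (k : ℕ) (v : V k) : ZMod 4 := letter k v.1 v.2

/-- Projection to the lower level. -/
noncomputable def pr (k : ℕ) (v : V (k+1)) : V k := (pm v.1 (d k v.2), v.2)

lemma al_pr (k : ℕ) (v : V (k+1)) : al (k+1) v = al k (pr k v) := rfl

/-- `a` is at distance at least `N` from the ends of its block of level `k`. -/
def deep (N : ℕ) (k : ℕ) (a : ℤ) : Prop := ∀ i : ℤ, |i| ≤ N → (a + i) / (L k : ℤ) = a / (L k : ℤ)

lemma deep_mono {N N' k : ℕ} {a : ℤ} (h : N ≤ N') (hd : deep N' k a) : deep N k a :=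
  fun i hi => hd i (hi.trans (by exact_mod_cast h))

lemma deep_succ {N k : ℕ} {a : ℤ} (hd : deep N k a) : deep N (k+1) a := by
  intro i hi
  rw [div_succ, div_succ, hd i hi]

lemma deep_add {N M k : ℕ} {a b : ℤ} (hab : |b - a| ≤ M) (hd : deep (N + M) k a) : deep N k b := by
  intro i hi
  have h1 := hd (b - a) (hab.trans (by push_cast; linarith [(Nat.cast_nonneg N : (0:ℤ) ≤ N)]))
  have h2 := hd (b - a + i) ((abs_add_le _ _).trans (by push_cast; linarith))
  have e1 : a + (b - a) = b := by ring
  have e2 : a + (b - a + i) = b + i := by ring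
  rw [e1] at h1
  rw [e2] at h2
  rw [h1, h2]

/-- The uniform statement about an element of the free group: it moves positions by at most `N`
and is compatible with the projections at `N`-deep positions. -/
def Ok (g : F) (N : ℕ) : Prop :=
  ∀ k, (∀ v : V k, |(act k g v).2 - v.2| ≤ N) ∧
    (∀ v : V (k+1), deep N k v.2 → pr k (act (k+1) g v) = act k g (pr k v))

lemma Ok.mono {g : F} {N N' : ℕ} (h : N ≤ N') (hg : Ok g N) : Ok g N' := fun k =>
  ⟨fun v => ((hg k).1 v).trans (by exact_mod_cast h), fun v hv => (hg k).2 v (deep_mono h hv)⟩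

lemma pr_sh {k : ℕ} {v : V (k+1)} (h : (v.2 + 1) / (L k : ℤ) = v.2 / (L k : ℤ)) :
    pr k (sh (k+1) v) = sh k (pr k v) := by
  have : d k (v.2 + 1) = d k v.2 := d_congr h
  simp only [pr, sh, Equiv.prodCongr_apply, Prod.map, Equiv.refl_apply, Equiv.coe_addRight, this]

lemma pr_Ph {k : ℕ} (v : V (k+1)) : pr k (Ph (k+1) v) = Ph k (pr k v) := by
  have := pm_phi_self k v.2 v.1
  simp only [pr, Ph, Equiv.coe_fn_mk, this]

lemma exists_ok (g : F) : ∃ N, Ok g N := by
  induction g using FreeGroup.induction_on with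
  | C1 => exact ⟨0, fun k => ⟨fun v => by simp, fun v _ => by simp⟩⟩
  | of b =>
    cases b
    · refine ⟨0, fun k => ⟨fun v => ?_, fun v _ => ?_⟩⟩
      · simp [act, Ph]
      · simp only [act, FreeGroup.lift_apply_of]
        exact pr_Ph v
    · refine ⟨1, fun k => ⟨fun v => ?_, fun v hv => ?_⟩⟩
      · simp [act, sh]
      · simp only [act, FreeGroup.lift_apply_of]
        exact pr_sh (hv 1 (by simp))
  | inv_of b _ =>
    cases b
    · refine ⟨0, fun k => ⟨fun v => ?_, fun v _ => ?_⟩⟩
      · simp [act, Ph, Equiv.Perm.inv_def]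
      · simp only [act, map_inv, FreeGroup.lift_apply_of]
        rw [Equiv.Perm.eq_inv_iff_eq]
        simp only [Bool.false_eq_true, if_false]
        rw [← pr_Ph]
        simp
    · refine ⟨1, fun k => ⟨fun v => ?_, fun v hv => ?_⟩⟩
      · simp [act, sh, Equiv.Perm.inv_def]
      · simp only [act, map_inv, FreeGroup.lift_apply_of]
        rw [Equiv.Perm.eq_inv_iff_eq]
        simp only [if_true]
        rw [← pr_sh]
        · simp
        · have h1 := hv (-1) (by simp)
          have h2 : (((sh (k+1))⁻¹ v : V (k+1))).2 = v.2 + (-1) := by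
            simp [sh, Equiv.Perm.inv_def, sub_eq_add_neg]
          rw [h2, h1]
          congr 1
          ring
  | mul g h hg hh =>
    obtain ⟨N, hN⟩ := hg
    obtain ⟨M, hM⟩ := hh
    refine ⟨N + M, fun k => ⟨fun v => ?_, fun v hv => ?_⟩⟩
    · rw [map_mul, Equiv.Perm.mul_apply]
      have h1 := (hN k).1 (act k h v)
      have h2 := (hM k).1 v
      calc _ = |((act k g (act k h v)).2 - (act k h v).2) + ((act k h v).2 - v.2)| := by ring_nf
        _ ≤ _ := abs_add_le _ _
        _ ≤ _ := by push_cast; linarith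
    · rw [map_mul, Equiv.Perm.mul_apply, map_mul, Equiv.Perm.mul_apply]
      have h2 := (hM (k+1)).1 v
      rw [(hN k).2 _ (deep_add h2 hv), (hM k).2 _ (deep_mono (Nat.le_add_left _ _) hv)]

/-- Iterated projection. -/
noncomputable def prn (k : ℕ) : ∀ n, V (k+n) → V k
  | 0 => fun v => v
  | (n+1) => fun v => prn k n (pr (k+n) v)

lemma prn_snd (k : ℕ) : ∀ n (v : V (k+n)), (prn k n v).2 = v.2
  | 0 => fun _ => rfl
  | (n+1) => fun v => by rw [prn, prn_snd k n]; rfl

lemma al_prn {g : F} {N : ℕ} (hg : Ok g N) (k : ℕ) : ∀ n (v : V (k+n)), deep N k v.2 →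
    al (k+n) (act (k+n) g v) = al k (act k g (prn k n v))
  | 0 => fun _ _ => rfl
  | (n+1) => fun v hv => by
    have hdeep : ∀ n, deep N (k+n) v.2 := by
      intro n
      induction n with
      | zero => exact hv
      | succ n ih => exact deep_succ ih
    have h1 : al (k+(n+1)) (act (k+(n+1)) g v) = al (k+n) (pr (k+n) (act (k+n+1) g v)) := rfl
    rw [h1, (hg (k+n)).2 v (hdeep n), al_prn hg k n _ hv]
    rfl

/-- The first component of the iterated projection only depends on the block. -/
lemma prn_fst_congr (k : ℕ) : ∀ n (w : W (k+n)) (a b : ℤ),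
    a / (L k : ℤ) = b / (L k : ℤ) → (prn k n (w, a)).1 = (prn k n (w, b)).1
  | 0 => fun _ _ _ _ => rfl
  | (n+1) => fun w a b h => by
    have hL : ∀ n, a / (L (k+n) : ℤ) = b / (L (k+n) : ℤ) := by
      intro n
      induction n with
      | zero => exact h
      | succ n ih =>
        have h1 := div_succ (k+n) a
        have h2 := div_succ (k+n) b
        rw [ih] at h1
        exact h1.trans h2.symm
    have hd : d (k+n) a = d (k+n) b := d_congr (hL n)
    have h1 : prn k (n+1) (w, a) = prn k n (pm w (d (k+n) a), a) := rfl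
    have h2 : prn k (n+1) (w, b) = prn k n (pm w (d (k+n) b), b) := rfl
    rw [h1, h2, hd]
    exact prn_fst_congr k n _ a b h

/-- Splitting off the last projection step. -/
lemma prn_succ_base (k : ℕ) : ∀ n (v : V (k+1+n)) (v' : V (k+(n+1))), HEq v v' →
    prn k (n+1) v' = pr k (prn (k+1) n v)
  | 0 => fun v v' h => by
    have : v = v' := eq_of_heq h
    subst this
    rfl
  | (n+1) => fun v v' h => by
    have hk : k + 1 + n = k + (n + 1) := by omega
    have h1 : prn (k+1) (n+1) v = prn (k+1) n (pr (k+1+n) v) := rfl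
    have h2 : prn k (n+1+1) v' = prn k (n+1) (pr (k+(n+1)) v') := rfl
    rw [h1, h2]
    apply prn_succ_base k n
    have : ∀ (p q : ℕ) (hpq : p = q) (x : V (p+1)) (y : V (q+1)), HEq x y →
        HEq (pr p x) (pr q y) := by
      rintro p q rfl x y hxy
      rw [eq_of_heq hxy]
    exact this _ _ hk v v' h

end Pool.Agent.H59.Diag
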