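import Pool.Agent.H59.DiagDyn

/-!
The limit space and the final pair of minimal homeomorphisms.
-/

set_option autoImplicit false

namespace Pool.Agent.H59.Diag

/-- Configurations. -/
abbrev Cfg : Type := F → ZMod 4

/-- The constraint with parameters. -/
def C (p : Finset F × ℕ) : Set Cfg :=
  {x | ∃ (k : ℕ) (v : V k), deep p.2 k v.2 ∧ ∀ g ∈ p.1, x g = al k (act k g v)}

/-- The limit space. -/
def X : Set Cfg := ⋂ p, C p

lemma mem_X {x : Cfg} : x ∈ X ↔ ∀ (S : Finset F) (N : ℕ),
    ∃ (k : ℕ) (v : V k), deep N k v.2 ∧ ∀ g ∈ S, x g = al k (act k g v) := by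
  simp only [X, Set.mem_iInter, C, Prod.forall]
  rfl

lemma C_closed (p : Finset F × ℕ) : IsClosed (C p) := by
  rw [← isOpen_compl_iff, isOpen_iff_forall_mem_open]
  intro x hx
  refine ⟨(p.1 : Set F).pi (fun g => {x g}), ?_, ?_, ?_⟩
  · rintro y hy ⟨k, v, hd, hv⟩
    apply hx
    refine ⟨k, v, hd, fun g hg => ?_⟩
    have : y g = x g := hy g hg
    rw [← this, hv g hg]
  · exact isOpen_set_pi p.1.finite_toSet (fun _ _ => isOpen_discrete _)
  · intro g _
    rfl

lemma X_closed : IsClosed X := isClosed_iInter C_closed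

lemma exists_deep (N : ℕ) : ∃ k, deep N k (N : ℤ) := by
  refine ⟨2 * N + 1, fun i hi => ?_⟩
  have hL : ((2 * N + 1 : ℕ) : ℤ) < (L (2 * N + 1) : ℤ) := by exact_mod_cast lt_L _
  push_cast at hL
  rw [abs_le] at hi
  rw [Int.ediv_eq_zero_of_lt (by linarith) (by linarith),
    Int.ediv_eq_zero_of_lt (by positivity) (by linarith [(Nat.cast_nonneg N : (0:ℤ) ≤ N)])]

lemma X_nonempty : X.Nonempty := by
  classical
  apply IsCompact.nonempty_iInter_of_directed_nonempty_isCompact_isClosed
  · intro p q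
    refine ⟨(p.1 ∪ q.1, max p.2 q.2), ?_, ?_⟩
    · rintro x ⟨k, v, hd, hv⟩
      exact ⟨k, v, deep_mono (le_max_left _ _) hd, fun g hg => hv g (Finset.mem_union_left _ hg)⟩
    · rintro x ⟨k, v, hd, hv⟩
      exact ⟨k, v, deep_mono (le_max_right _ _) hd, fun g hg => hv g (Finset.mem_union_right _ hg)⟩
  · intro p
    obtain ⟨k, hk⟩ := exists_deep p.2
    obtain ⟨w⟩ := instNe k
    exact ⟨fun g => al k (act k g (w, (p.2 : ℤ))), k, (w, (p.2 : ℤ)), hk, fun _ _ => rfl⟩
  · intro p
    exact (C_closed p).isCompact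
  · exact C_closed

/-- The shift of a configuration. -/
def tr (h : F) (x : Cfg) : Cfg := fun g => x (g * h)

lemma tr_mem (h : F) {x : Cfg} (hx : x ∈ X) : tr h x ∈ X := by
  classical
  rw [mem_X] at hx ⊢
  intro S N
  obtain ⟨M, hM⟩ := exists_ok h
  obtain ⟨k, v, hd, hv⟩ := hx (S.image (· * h)) (N + M)
  refine ⟨k, act k h v, deep_add ((hM k).1 v) hd, fun g hg => ?_⟩
  have := hv (g * h) (Finset.mem_image_of_mem _ hg)
  rw [tr, this, map_mul, Equiv.Perm.mul_apply]

lemma tr_tr (h h' : F) (x : Cfg) : tr h (tr h' x) = tr (h * h') x := by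
  ext g
  simp [tr, mul_assoc]

lemma tr_one (x : Cfg) : tr 1 x = x := by
  ext g
  simp [tr]

lemma tr_continuous (h : F) : Continuous (tr h) :=
  continuous_pi fun g => continuous_apply (g * h)

/-- The homeomorphism of the limit space given by an element of the free group. -/
def hom (h : F) : X ≃ₜ X where
  toFun x := ⟨tr h x.1, tr_mem h x.2⟩
  invFun x := ⟨tr h⁻¹ x.1, tr_mem h⁻¹ x.2⟩
  left_inv x := by
    apply Subtype.ext
    simp [tr_tr, tr_one]
  right_inv x := by
    apply Subtype.ext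
    simp [tr_tr, tr_one]
  continuous_toFun := by
    apply Continuous.subtype_mk
    exact (tr_continuous h).comp continuous_subtype_val
  continuous_invFun := by
    apply Continuous.subtype_mk
    exact (tr_continuous h⁻¹).comp continuous_subtype_val

lemma hom_coe (h : F) (x : X) : (hom h x : Cfg) = tr h x.1 := rfl

lemma hom_iter (h : F) (n : ℕ) (x : X) : (((hom h)^[n] x : X) : Cfg) = tr (h ^ n) x.1 := by
  induction n with
  | zero => simp [tr_one]
  | succ n ih =>
    rw [Function.iterate_succ_apply', hom_coe, ih, tr_tr, pow_succ']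

/-- The shift generator. -/
abbrev gT : F := FreeGroup.of true
/-- The flip generator. -/
abbrev gP : F := FreeGroup.of false

lemma act_T_pow (k : ℕ) (n : ℕ) (v : V k) : act k (gT ^ n) v = (v.1, v.2 + n) := by
  induction n with
  | zero => simp
  | succ n ih =>
    rw [pow_succ', map_mul, Equiv.Perm.mul_apply, ih, act_T]
    push_cast
    simp [add_assoc]

/-- The `φ`-invariance of the letter at the origin. -/
lemma val_P {x : Cfg} (hx : x ∈ X) : x gP = x 1 := by
  classical
  obtain ⟨k, v, hd, hv⟩ := mem_X.1 hx {gP, 1} 0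
  rw [hv gP (by simp), hv 1 (by simp), act_P, map_one]
  exact letter_phi_self k v.2 v.1

lemma val_P_inv {x : Cfg} (hx : x ∈ X) : x gP⁻¹ = x 1 := by
  have := val_P (tr_mem gP⁻¹ hx)
  simp only [tr, mul_inv_cancel, one_mul] at this
  exact this.symm

/-- The letters at the other positions are changed by `φ`. -/
lemma val_T_P {x : Cfg} (hx : x ∈ X) {n : ℕ} (hn : 0 < n) : x (gT ^ n * gP) ≠ x (gT ^ n) := by
  classical
  obtain ⟨k, v, hd, hv⟩ := mem_X.1 hx {gT ^ n * gP, gT ^ n} n
  rw [hv _ (by simp), hv (gT ^ n) (by simp), map_mul, Equiv.Perm.mul_apply, act_P, act_T_pow,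
    act_T_pow]
  apply letter_phi_ne
  · intro h
    have : (n : ℤ) = 0 := by linarith
    exact hn.ne' (by exact_mod_cast this)
  · exact (hd n (by simp)).symm

/-! ### Periodicity of the action -/

/-- Translation by a multiple of the block length. -/
noncomputable def trans (k : ℕ) (j : ℤ) (v : V k) : V k := (v.1, v.2 + j * (L k : ℤ))

lemma act_trans (g : F) (k : ℕ) (j : ℤ) (v : V k) :
    act k g (trans k j v) = trans k j (act k g v) := by
  induction g using FreeGroup.induction_on generalizing v with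
  | C1 => simp
  | of b =>
    cases b
    · rw [act_P, act_P]
      simp only [trans, phi_periodic]
    · rw [act_T, act_T]
      simp only [trans]
      congr 1
      ring
  | inv_of b hb =>
    rw [map_inv, Equiv.Perm.inv_eq_iff_eq, hb]
    simp
  | mul g h hg hh =>
    rw [map_mul, Equiv.Perm.mul_apply, Equiv.Perm.mul_apply, hh, hg]

lemma al_trans (k : ℕ) (j : ℤ) (v : V k) : al k (trans k j v) = al k v :=
  letter_periodic k v.1 v.2 j

lemma deep_periodic {N k : ℕ} {a : ℤ} (j : ℤ) (h : deep N k a) : deep N k (a + j * (L k : ℤ)) := by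
  intro i hi
  have e : a + j * (L k : ℤ) + i = (a + i) + j * (L k : ℤ) := by ring
  rw [e, div_add_mul, div_add_mul, h i hi]

/-! ### Minimality -/

/-- Main step: every pattern of `y` on a finite set appears along the forward orbit of `x`. -/
lemma pattern {x y : Cfg} (hx : x ∈ X) (hy : y ∈ X) (S : Finset F) :
    ∃ n : ℕ, ∀ g ∈ S, x (g * gT ^ n) = y g := by
  classical
  -- a common compatibility radius
  have hrad : ∃ N, ∀ g ∈ S, Ok g N := by
    induction S using Finset.induction_on with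
    | empty => exact ⟨0, by simp⟩
    | insert a s _ ih =>
      obtain ⟨N, hN⟩ := ih
      obtain ⟨M, hM⟩ := exists_ok a
      refine ⟨N + M, fun g hg => ?_⟩
      rcases Finset.mem_insert.1 hg with rfl | hg
      · exact hM.mono (Nat.le_add_left _ _)
      · exact (hN g hg).mono (Nat.le_add_right _ _)
  obtain ⟨N, hN⟩ := hrad
  obtain ⟨k, v, hd, hv⟩ := mem_X.1 hy S N
  set R : ℕ := 2 * L (k+1) with hR
  obtain ⟨k', v', hd', hv'⟩ := mem_X.1 hx
    (S.biUnion fun g => (Finset.range (R+1)).image fun n => g * gT ^ n) R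
  -- the level of `x` is higher
  have hk : k + 1 ≤ k' := by
    by_contra hlt
    push Not at hlt
    have hle : L k' ≤ L (k+1) := Nat.le_of_dvd (L_pos _) (L_dvd_L (by omega))
    have h1 := hd' (L k' : ℤ) (by
      rw [abs_of_nonneg (Int.natCast_nonneg _)]
      have : L k' ≤ R := by omega
      exact_mod_cast this)
    have h2 := div_add_mul k' v'.2 1
    rw [one_mul] at h2
    omega
  obtain ⟨n, rfl⟩ := Nat.exists_eq_add_of_le hk
  -- the next block of level `k+1`
  set LL : ℤ := (L (k+1) : ℤ) with hLL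
  have hLLpos : 0 < LL := by
    rw [hLL]; exact_mod_cast L_pos _
  have hLkpos : (0:ℤ) < (L k : ℤ) := by exact_mod_cast L_pos _
  have hLLeq : LL = (L k : ℤ) * (m k : ℤ) := by
    have : L (k+1) = L k * m k := rfl
    rw [hLL, this]; push_cast; rfl
  set c : ℤ := LL * (v'.2 / LL + 1) with hc
  set u : W (k+1) := (prn (k+1) n (v'.1, c)).1 with hu
  set j : ZMod (m k) := (e k).symm ((pm u)⁻¹ v.1) with hj
  set b : ℤ := c + j.val * (L k : ℤ) + v.2 % (L k : ℤ) with hb
  have hjlt : (j.val : ℤ) < m k := by exact_mod_cast ZMod.val_lt j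
  have hj0 : (0:ℤ) ≤ (j.val : ℤ) := Int.natCast_nonneg _
  have hmod0 : 0 ≤ v.2 % (L k : ℤ) := Int.emod_nonneg _ hLkpos.ne'
  have hmodlt : v.2 % (L k : ℤ) < L k := Int.emod_lt_of_pos _ hLkpos
  -- position of b
  have hbLk : b / (L k : ℤ) = (m k : ℤ) * (v'.2 / LL + 1) + j.val := by
    have e1 : b = v.2 % (L k : ℤ) + ((m k : ℤ) * (v'.2 / LL + 1) + j.val) * (L k : ℤ) := by
      rw [hb, hc, hLLeq]; ring
    rw [e1, Int.add_mul_ediv_right _ _ hLkpos.ne', Int.ediv_eq_zero_of_lt hmod0 hmodlt, zero_add]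
  have hbLL : b / LL = v'.2 / LL + 1 := by
    have e1 : b = (j.val * (L k : ℤ) + v.2 % (L k : ℤ)) + (v'.2 / LL + 1) * LL := by
      rw [hb, hc]; ring
    rw [e1, Int.add_mul_ediv_right _ _ hLLpos.ne', Int.ediv_eq_zero_of_lt (by positivity), zero_add]
    rw [hLLeq]
    nlinarith
  have hcLL : c / LL = v'.2 / LL + 1 := by
    rw [hc, Int.mul_ediv_cancel_left _ hLLpos.ne']
  have hdb : d k b = e k j := by
    rw [d, hbLk]
    push_cast
    simp
  have hfst : (prn (k+1) n (v'.1, b)).1 = u :=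
    prn_fst_congr (k+1) n v'.1 b c (by rw [← hLL, hbLL, hcLL])
  have hval : pm u (e k j) = v.1 := by
    rw [hj]; simp
  -- shift amount
  have hv'mod := Int.mul_ediv_add_emod v'.2 LL
  have hv'mod0 : 0 ≤ v'.2 % LL := Int.emod_nonneg _ hLLpos.ne'
  have hv'modlt : v'.2 % LL < LL := Int.emod_lt_of_pos _ hLLpos
  have hblow : c ≤ b := by
    rw [hb]; nlinarith
  have hbup : b < c + LL := by
    rw [hb, hLLeq]; nlinarith
  have hge : 0 ≤ b - v'.2 := by
    have : c = LL * (v'.2 / LL) + LL := by rw [hc]; ring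
    linarith
  have hle : b - v'.2 ≤ 2 * LL := by
    have : c = LL * (v'.2 / LL) + LL := by rw [hc]; ring
    linarith
  obtain ⟨s, hs⟩ := Int.eq_ofNat_of_zero_le hge
  have hsR : s ≤ R := by
    have : (s : ℤ) ≤ (R : ℤ) := by
      rw [hR]; push_cast; rw [← hs]; exact hle
    exact_mod_cast this
  refine ⟨s, fun g hg => ?_⟩
  have hmem : g * gT ^ s ∈ S.biUnion fun g => (Finset.range (R+1)).image fun n => g * gT ^ n :=
    Finset.mem_biUnion.2 ⟨g, hg, Finset.mem_image.2 ⟨s, Finset.mem_range.2 (by omega), rfl⟩⟩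
  rw [hv' _ hmem, map_mul, Equiv.Perm.mul_apply, act_T_pow]
  have hbs : v'.2 + (s : ℤ) = b := by rw [← hs]; ring
  rw [hbs]
  -- b is a translate of v.2
  have hbt : b = v.2 + ((m k : ℤ) * (v'.2 / LL + 1) + j.val - v.2 / (L k : ℤ)) * (L k : ℤ) := by
    have := Int.mul_ediv_add_emod v.2 (L k : ℤ)
    rw [hb, hc]
    linear_combination (v'.2 / LL + 1) * hLLeq + this
  have hdb' : deep N k b := by rw [hbt]; exact deep_periodic _ hd
  -- go down to level `k+1`, then to level `k`
  have h1 := al_prn (hN g hg) (k+1) n (v'.1, b) (deep_succ hdb')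
  rw [h1]
  have h2 : al (k+1) (act (k+1) g (prn (k+1) n (v'.1, b))) =
      al k (pr k (act (k+1) g (prn (k+1) n (v'.1, b)))) := rfl
  have hsnd : (prn (k+1) n (v'.1, b)).2 = b := prn_snd (k+1) n (v'.1, b)
  rw [h2, ((hN g hg) k).2 _ (by rw [hsnd]; exact hdb')]
  have h3 : pr k (prn (k+1) n (v'.1, b)) = (v.1, b) := by
    rw [pr, hfst, hsnd, hdb, hval]
  rw [h3, hv g hg]
  have h4 : ((v.1, b) : V k) =
      trans k ((m k : ℤ) * (v'.2 / LL + 1) + j.val - v.2 / (L k : ℤ)) v := by
    rw [trans, ← hbt]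
  rw [h4, act_trans, al_trans]

end Pool.Agent.H59.Diag
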