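import Pool.Agent.H59.DiagLimit

/-!
Density of all forward orbits and absence of diagonal recurrence.
-/

set_option autoImplicit false

namespace Pool.Agent.H59.Diag

/-- The second homeomorphism. -/
noncomputable def homS : X ≃ₜ X := (hom gP).trans ((hom gT).trans (hom gP).symm)

lemma homS_iter (n : ℕ) (x : X) : homS^[n] x = (hom gP).symm ((hom gT)^[n] (hom gP x)) := by
  induction n with
  | zero => simp
  | succ n ih =>
    rw [Function.iterate_succ_apply', Function.iterate_succ_apply', ih]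
    simp [homS]

lemma dense_T (x : X) : Dense (Set.range (fun n : ℕ => (hom gT)^[n] x)) := by
  rw [dense_iff_inter_open]
  rintro U hU ⟨y, hy⟩
  obtain ⟨U', hU', rfl⟩ := isOpen_induced_iff.1 hU
  obtain ⟨I, u, hu, hsub⟩ := isOpen_pi_iff.1 hU' y.1 hy
  obtain ⟨n, hn⟩ := pattern x.2 y.2 I
  refine ⟨(hom gT)^[n] x, ?_, n, rfl⟩
  apply hsub
  intro g hg
  rw [hom_iter]
  have : tr (gT ^ n) x.1 g = y.1 g := hn g hg
  rw [this]
  exact (hu g hg).2

lemma dense_S (x : X) : Dense (Set.range (fun n : ℕ => homS^[n] x)) := by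
  have h := (hom gP).symm.surjective.denseRange.dense_image (hom gP).symm.continuous
    (dense_T (hom gP x))
  convert h using 1
  ext z
  simp only [Set.mem_range, Set.mem_image, exists_exists_eq_and, homS_iter]

lemma T_val (n : ℕ) (x : X) : ((hom gT)^[n] x).1 1 = x.1 (gT ^ n) := by
  rw [hom_iter]; simp [tr]

lemma S_val (n : ℕ) (x : X) : (homS^[n] x).1 1 = x.1 (gT ^ n * gP) := by
  rw [homS_iter]
  have h1 : ∀ y : X, ((hom gP).symm y).1 1 = y.1 1 := by
    intro y
    have : ((hom gP).symm y).1 1 = y.1 (1 * gP⁻¹) := rfl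
    rw [this, one_mul, val_P_inv y.2]
  rw [h1, T_val]
  rfl

/-- No common return of the letter at the origin. -/
lemma no_return (x : X) {n : ℕ} (hn : 0 < n) :
    ¬ (((hom gT)^[n] x).1 1 = x.1 1 ∧ (homS^[n] x).1 1 = x.1 1) := by
  rintro ⟨h1, h2⟩
  rw [T_val] at h1
  rw [S_val] at h2
  exact val_T_P x.2 hn (h2.trans h1.symm)

end Pool.Agent.H59.Diag
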