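import Pool.Agent.H59.DiagComb

/-!
The tower `W k` of finite sets, the letters, the maps `φ`, and their compatibility.
-/

set_option autoImplicit false

namespace Pool.Agent.H59.Diag

/-- The tower of finite sets: `W 0` has four elements, `W (k+1)` is the set of permutations
of `W k`, seen as words of length `card (W k)` in the alphabet `W k` using each letter once. -/
def W : ℕ → Type
  | 0 => ZMod 4
  | (k+1) => Equiv.Perm (W k)

noncomputable instance instDec (k : ℕ) : DecidableEq (W k) := Classical.decEq _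

noncomputable instance instFin : ∀ k, Fintype (W k)
  | 0 => inferInstanceAs (Fintype (ZMod 4))
  | (k+1) => letI := instFin k; inferInstanceAs (Fintype (Equiv.Perm (W k)))

instance instNe : ∀ k, Nonempty (W k)
  | 0 => ⟨(0 : ZMod 4)⟩
  | (k+1) => ⟨(Equiv.refl (W k) : Equiv.Perm (W k))⟩

/-- Forget that an element of `W (k+1)` is a permutation of `W k`. -/
def pm {k : ℕ} (w : W (k+1)) : Equiv.Perm (W k) := w

/-- An element of `W (k+1)` from a permutation of `W k`. -/
def mk {k : ℕ} (w : Equiv.Perm (W k)) : W (k+1) := w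

/-- The relations. -/
def rel : ∀ k, W k → W k → Prop
  | 0 => fun (a b : ZMod 4) => a ≠ b
  | (k+1) => prel (rel k)

/-- The permutations `τ`. -/
def tau : ∀ k, Equiv.Perm (W k)
  | 0 => (Equiv.addRight (1 : ZMod 4) : Equiv.Perm (ZMod 4))
  | (k+1) => (Equiv.mulLeft (tau k) : Equiv.Perm (Equiv.Perm (W k)))

lemma good : ∀ k, Good (rel k) (tau k)
  | 0 => good_base
  | (k+1) => good_perm (good k)

/-- Number of elements of `W k`. -/
noncomputable def m (k : ℕ) : ℕ := Fintype.card (W k)

instance instNeZero (k : ℕ) : NeZero (m k) := ⟨Fintype.card_ne_zero⟩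

lemma m_pos (k : ℕ) : 0 < m k := Fintype.card_pos

lemma one_lt_m (k : ℕ) : 1 < m k := by
  rw [m, Fintype.one_lt_card_iff]
  obtain ⟨a⟩ := instNe k
  exact ⟨tau k a, a, fun h => (good k).irrefl a (by simpa [h] using (good k).t1 a)⟩

/-- Block lengths. -/
noncomputable def L : ℕ → ℕ
  | 0 => 1
  | (k+1) => L k * m k

lemma L_pos : ∀ k, 0 < L k
  | 0 => Nat.one_pos
  | (k+1) => Nat.mul_pos (L_pos k) (m_pos k)

lemma lt_L : ∀ k, k < L k
  | 0 => Nat.one_pos
  | (k+1) => by
    have h1 := lt_L k
    have h2 := one_lt_m k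
    have : L (k+1) = L k * m k := rfl
    rw [this]
    nlinarith

lemma L_dvd_L {k k' : ℕ} (h : k ≤ k') : L k ∣ L k' := by
  induction k', h using Nat.le_induction with
  | base => exact dvd_refl _
  | succ n _ ih => exact Dvd.dvd.mul_right ih _

/-- An enumeration of `W k`. -/
noncomputable def e (k : ℕ) : ZMod (m k) ≃ W k :=
  Fintype.equivOfCardEq (by rw [ZMod.card]; rfl)

/-- The `k`-th digit of an integer position. -/
noncomputable def d (k : ℕ) (a : ℤ) : W k := e k ((a / (L k : ℤ) : ℤ) : ZMod (m k))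

lemma div_succ (k : ℕ) (a : ℤ) : a / (L (k+1) : ℤ) = (a / (L k : ℤ)) / (m k : ℤ) := by
  have : (L (k+1) : ℤ) = (L k : ℤ) * (m k : ℤ) := by
    have : L (k+1) = L k * m k := rfl
    rw [this]; push_cast; rfl
  rw [this, Int.ediv_ediv_of_nonneg (Int.natCast_nonneg _)]

lemma d_congr {k : ℕ} {a b : ℤ} (h : a / (L k : ℤ) = b / (L k : ℤ)) : d k a = d k b := by
  rw [d, d, h]

lemma div_of_div_succ {k : ℕ} {a b : ℤ} (h : a / (L (k+1) : ℤ) = b / (L (k+1) : ℤ))
    (hd : d k a = d k b) : a / (L k : ℤ) = b / (L k : ℤ) := by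
  have h1 := (e k).injective hd
  rw [ZMod.intCast_eq_intCast_iff'] at h1
  rw [div_succ, div_succ] at h
  rw [← Int.mul_ediv_add_emod (a / (L k : ℤ)) (m k), ← Int.mul_ediv_add_emod (b / (L k : ℤ)) (m k), h, h1]

/-- The letter of the word `w` at the position `a`. -/
noncomputable def letter : ∀ k, W k → ℤ → ZMod 4
  | 0 => fun w _ => w
  | (k+1) => fun w a => letter k (pm w (d k a)) a

/-- The matching permutations. -/
noncomputable def rho (k : ℕ) (v v' : W k) : Equiv.Perm (W k) :=
  Classical.choose (matching (good k) v v')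

lemma rho_self (k : ℕ) (v v' : W k) : rho k v v' v = v' :=
  (Classical.choose_spec (matching (good k) v v')).1

lemma rho_rel (k : ℕ) (v v' u : W k) (h : u ≠ v) : rel k (rho k v v' u) u :=
  (Classical.choose_spec (matching (good k) v v')).2 u h

/-- Extension of a permutation `f` of `W k` at the position `u` to a permutation of `W (k+1)`. -/
noncomputable def ext (k : ℕ) (u : W k) (f : Equiv.Perm (W k)) : Equiv.Perm (Equiv.Perm (W k)) where
  toFun w := rho k (w u) (f (w u)) * w
  invFun w' := (rho k (f.symm (w' u)) (w' u))⁻¹ * w'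
  left_inv w := by
    simp only [Equiv.Perm.mul_apply, rho_self, Equiv.symm_apply_apply]
    simp
  right_inv w' := by
    have h : ((rho k (f.symm (w' u)) (w' u))⁻¹ * w') u = f.symm (w' u) := by
      rw [Equiv.Perm.mul_apply, Equiv.Perm.inv_eq_iff_eq, rho_self]
    simp only [h, Equiv.apply_symm_apply]
    simp

/-- The maps `φ k a`. -/
noncomputable def phi : ∀ k, ℤ → Equiv.Perm (W k)
  | 0 => fun _ => Equiv.refl _
  | (k+1) => fun a => ext k (d k a) (phi k a)

lemma pm_phi (k : ℕ) (a : ℤ) (w : W (k+1)) :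
    pm (phi (k+1) a w) = rho k (pm w (d k a)) (phi k a (pm w (d k a))) * pm w := rfl

lemma pm_phi_self (k : ℕ) (a : ℤ) (w : W (k+1)) :
    pm (phi (k+1) a w) (d k a) = phi k a (pm w (d k a)) := by
  rw [pm_phi, Equiv.Perm.mul_apply, rho_self]

lemma letter_succ (k : ℕ) (w : W (k+1)) (a : ℤ) : letter (k+1) w a = letter k (pm w (d k a)) a := rfl

lemma letter_ne_of_rel : ∀ (k : ℕ) (w w' : W k), rel k w w' → ∀ a, letter k w a ≠ letter k w' a
  | 0 => fun _ _ h _ => h
  | (k+1) => fun w w' h a => letter_ne_of_rel k _ _ (h (d k a)) a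

lemma letter_phi_self : ∀ (k : ℕ) (a : ℤ) (w : W k), letter k (phi k a w) a = letter k w a
  | 0 => fun _ _ => rfl
  | (k+1) => fun a w => by
    rw [letter_succ, letter_succ, pm_phi_self, letter_phi_self k]

lemma letter_phi_ne : ∀ (k : ℕ) (a b : ℤ) (w : W k), a ≠ b → a / (L k : ℤ) = b / (L k : ℤ) →
    letter k (phi k a w) b ≠ letter k w b
  | 0 => fun a b w hab h => by
    exfalso
    apply hab
    simpa [L] using h
  | (k+1) => fun a b w hab h => by
    rw [letter_succ, letter_succ]
    by_cases hd : d k a = d k b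
    · rw [← hd, pm_phi_self]
      exact letter_phi_ne k a b _ hab (div_of_div_succ h hd)
    · rw [pm_phi, Equiv.Perm.mul_apply]
      apply letter_ne_of_rel
      apply rho_rel
      intro hh
      exact hd ((pm w).injective hh).symm

/-! ### Periodicity -/

lemma div_add_mul (k : ℕ) (a j : ℤ) : (a + j * (L k : ℤ)) / (L k : ℤ) = a / (L k : ℤ) + j :=
  Int.add_mul_ediv_right _ _ (by exact_mod_cast (L_pos k).ne')

lemma d_periodic (k : ℕ) (a j : ℤ) : d k (a + j * (L (k+1) : ℤ)) = d k a := by
  have : (L (k+1) : ℤ) = (m k : ℤ) * (L k : ℤ) := by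
    have : L (k+1) = L k * m k := rfl
    rw [this]; push_cast; ring
  rw [this, ← mul_assoc, d, d, div_add_mul]
  push_cast
  simp

lemma letter_periodic : ∀ (k : ℕ) (w : W k) (a j : ℤ), letter k w (a + j * (L k : ℤ)) = letter k w a
  | 0 => fun _ _ _ => rfl
  | (k+1) => fun w a j => by
    rw [letter_succ, letter_succ, d_periodic]
    have : (L (k+1) : ℤ) = (m k : ℤ) * (L k : ℤ) := by
      have : L (k+1) = L k * m k := rfl
      rw [this]; push_cast; ring
    rw [this, ← mul_assoc, letter_periodic k]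

lemma phi_periodic : ∀ (k : ℕ) (a j : ℤ), phi k (a + j * (L k : ℤ)) = phi k a
  | 0 => fun _ _ => rfl
  | (k+1) => fun a j => by
    have h : (L (k+1) : ℤ) = (m k : ℤ) * (L k : ℤ) := by
      have : L (k+1) = L k * m k := rfl
      rw [this]; push_cast; ring
    have h1 : phi (k+1) (a + j * (L (k+1) : ℤ)) =
      ext k (d k (a + j * (L (k+1) : ℤ))) (phi k (a + j * (L (k+1) : ℤ))) := rfl
    have h2 : phi (k+1) a = ext k (d k a) (phi k a) := rfl
    rw [h1, h2, d_periodic, h, ← mul_assoc, phi_periodic k]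

end Pool.Agent.H59.Diag
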