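import Pool.Agent.H59.SchurBasic

/-!
Abstract Schur `p`-property of quotients of `ℓ_p` by a kernel closed under bounded pointwise limits.
-/

set_option autoImplicit false

namespace Pool.Agent.H59.Schur

open Filter Topology Pointwise

variable {p : ℝ} {D : Type*} {F : Type*} [NormedAddCommGroup F] [Module ℝ F]
  [CompleteSpace F] [ContinuousSMul ℝ F] {m : D → F}

/-- Key property: stability of the synthesis operator under bounded pointwise limits. -/
def Key (p : ℝ) (m : D → F) : Prop :=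
  ∀ (b : ℕ → D → ℝ) (b' : D → ℝ) (w' : F) (C : ℝ), (∀ n, S p (b n)) → (∀ n, pn p (b n) ≤ C) →
    (∀ J, Tendsto (fun n => b n J) atTop (𝓝 (b' J))) →
    Tendsto (fun n => Q m (b n)) atTop (𝓝 w') → Q m b' = w'

lemma unif_split [Countable D] (h : Atoms p m) {K : ℝ} (hK : 0 ≤ K) (hA : Onto p m K)
    (hKey : Key p m) (f : ℕ → F)
    (a : ℕ → D → ℝ) (a' : D → ℝ) (C : ℝ) (hSa : ∀ n, S p (a n)) (hCa : ∀ n, pn p (a n) ≤ C)
    (hlim : ∀ J, Tendsto (fun n => a n J) atTop (𝓝 (a' J))) (hQ : ∀ n, Q m (a n) = f n) (κ : ℝ)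
    (hκ : ∀ n, κ ≤ Nf p m (f n - Q m a')) (X : Set F) (hX : IsCompact X) (ε : ℝ) (hε : 0 < ε) :
    ∃ n₀ : ℕ, ∀ n ≥ n₀, ∀ u ∈ X, ∀ b ∈ Set.Icc (-1 : ℝ) 1,
      Nf p m (u + b • Q m a') + |b| ^ p * κ - ε ≤ Nf p m (u + b • f n) := by
  by_contra hcon
  push Not at hcon
  choose n hn u hu b hb hlt using hcon
  have hC0 : 0 ≤ C := (pn_nonneg _).trans (hCa 0)
  obtain ⟨hSa', hCa'⟩ := fatou h.p0 hSa hCa hlim
  set g : F := Q m a' with hg
  -- compactness of the parameters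
  obtain ⟨⟨u', b'⟩, ⟨hu', hb'⟩, ψ, hψ, hub⟩ :=
    (hX.prod isCompact_Icc).tendsto_subseq (x := fun j => (u j, b j)) (fun j => ⟨hu j, hb j⟩)
  have huψ : Tendsto (fun j => u (ψ j)) atTop (𝓝 u') := (continuous_fst.tendsto _).comp hub
  have hbψ : Tendsto (fun j => b (ψ j)) atTop (𝓝 b') := (continuous_snd.tendsto _).comp hub
  -- near-optimal representations
  choose d hdS hdQ hdlt using fun j => exists_near hA (u (ψ j) + b (ψ j) • f (n (ψ j))) (half_pos hε)
  obtain ⟨M, hM⟩ := hX.isBounded.exists_norm_le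
  have habs : ∀ j, |b j| ^ p ≤ 1 := by
    intro j
    have h1 : |b j| ≤ 1 := abs_le.2 (hb j)
    exact Real.rpow_le_one (abs_nonneg _) h1 h.p0.le
  have hdC : ∀ j, pn p (d j) ≤ K * M + C + ε / 2 := by
    intro j
    have h1 := Nf_add_le h hA (u (ψ j)) (b (ψ j) • f (n (ψ j)))
    rw [Nf_smul h hA] at h1
    have h2 := Nf_le_K hA (u (ψ j))
    have h3 : K * ‖u (ψ j)‖ ≤ K * M := mul_le_mul_of_nonneg_left (hM _ (hu _)) hK
    have h4 : Nf p m (f (n (ψ j))) ≤ C := (Nf_le (hSa _) (hQ _)).trans (hCa _)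
    have h5 : |b (ψ j)| ^ p * Nf p m (f (n (ψ j))) ≤ 1 * C :=
      mul_le_mul (habs _) h4 (Nf_nonneg h hA _) zero_le_one
    linarith [hdlt j]
  obtain ⟨d', θ, hθ, hdlim⟩ := exists_subseq h.p0 hdS hdC
  obtain ⟨hSd', hCd'⟩ := fatou h.p0 (fun j => hdS (θ j)) (fun j => hdC (θ j)) hdlim
  have hψθ : Tendsto (fun j => ψ (θ j)) atTop atTop := hψ.tendsto_atTop.comp hθ.tendsto_atTop
  have hnlim : Tendsto (fun j => n (ψ (θ j))) atTop atTop :=
    tendsto_atTop_mono (fun j => hn _) hψθ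
  have hu2 : Tendsto (fun j => u (ψ (θ j))) atTop (𝓝 u') := huψ.comp hθ.tendsto_atTop
  have hb2 : Tendsto (fun j => b (ψ (θ j))) atTop (𝓝 b') := hbψ.comp hθ.tendsto_atTop
  -- apply the key property
  have hkey : Q m (d' - b' • a') = u' := by
    apply hKey (fun j => d (θ j) - b (ψ (θ j)) • a (n (ψ (θ j)))) _ _ (K * M + C + ε / 2 + 1 * C)
    · exact fun j => (hdS _).sub h.p0 h.p1 ((hSa _).smul _)
    · intro j
      refine (pn_sub_le h.p0 h.p1 (hdS _) ((hSa _).smul _)).trans ?_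
      rw [pn_smul]
      exact add_le_add (hdC _) (mul_le_mul (habs _) (hCa _) (pn_nonneg _) zero_le_one)
    · intro J
      exact (hdlim J).sub (hb2.mul ((hlim J).comp hnlim))
    · refine hu2.congr (fun j => ?_)
      rw [h.Q_sub (hdS _) ((hSa _).smul _), Q_smul, hdQ, hQ]
      simp
  have hQd' : Q m d' = u' + b' • g := by
    rw [h.Q_sub hSd' (hSa'.smul _), Q_smul] at hkey
    rw [← hkey]
    simp [hg]
  -- the remainder
  set r : ℕ → ℝ := fun j => ‖(u (ψ (θ j)) - u') + (b (ψ (θ j)) - b') • g‖ with hr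
  have hr0 : Tendsto r atTop (𝓝 0) := by
    have h1 : Tendsto (fun j => (u (ψ (θ j)) - u') + (b (ψ (θ j)) - b') • g) atTop
        (𝓝 ((u' - u') + (b' - b') • g)) :=
      (hu2.sub_const u').add ((hb2.sub_const b').smul_const g)
    have h2 := h1.norm
    simpa using h2
  have hBL := brezis_lieb h.p0 h.p1 (fun j => hdS (θ j)) hSd' hdlim
  have hlow : ∀ j, |b (ψ (θ j))| ^ p * κ - K * r j ≤ pn p (d (θ j) - d') := by
    intro j
    have h1 : Nf p m (b (ψ (θ j)) • (f (n (ψ (θ j))) - g) +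
        ((u (ψ (θ j)) - u') + (b (ψ (θ j)) - b') • g)) ≤ pn p (d (θ j) - d') := by
      apply Nf_le ((hdS _).sub h.p0 h.p1 hSd')
      rw [h.Q_sub (hdS _) hSd', hdQ, hQd', smul_sub, sub_smul]
      abel
    have h2 := Nf_add_le h hA (b (ψ (θ j)) • (f (n (ψ (θ j))) - g) +
        ((u (ψ (θ j)) - u') + (b (ψ (θ j)) - b') • g))
        (-1 • ((u (ψ (θ j)) - u') + (b (ψ (θ j)) - b') • g))
    have h3 : b (ψ (θ j)) • (f (n (ψ (θ j))) - g) +
        ((u (ψ (θ j)) - u') + (b (ψ (θ j)) - b') • g) +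
        (-1 • ((u (ψ (θ j)) - u') + (b (ψ (θ j)) - b') • g)) =
        b (ψ (θ j)) • (f (n (ψ (θ j))) - g) := by
      rw [neg_one_smul, add_neg_cancel_right]
    rw [h3, Nf_smul h hA] at h2
    have h4 := Nf_le_K hA (-1 • ((u (ψ (θ j)) - u') + (b (ψ (θ j)) - b') • g))
    rw [neg_one_smul, norm_neg] at h4
    rw [neg_one_smul] at h2
    have h5 : |b (ψ (θ j))| ^ p * κ ≤ |b (ψ (θ j))| ^ p * Nf p m (f (n (ψ (θ j))) - g) :=
      mul_le_mul_of_nonneg_left (hκ _) (Real.rpow_nonneg (abs_nonneg _) _)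
    have h6 : K * r j = K * ‖(u (ψ (θ j)) - u') + (b (ψ (θ j)) - b') • g‖ := rfl
    linarith
  have hup : ∀ j, pn p (d (θ j)) ≤ pn p d' + K * r j + |b (ψ (θ j))| ^ p * κ - ε / 2 := by
    intro j
    have h1 := hdlt (θ j)
    have h2 := hlt (ψ (θ j))
    have h3 : Nf p m (u (ψ (θ j)) + b (ψ (θ j)) • g) ≤ Nf p m (u' + b' • g) + K * r j := by
      have e : u (ψ (θ j)) + b (ψ (θ j)) • g =
          (u' + b' • g) + ((u (ψ (θ j)) - u') + (b (ψ (θ j)) - b') • g) := by
        rw [sub_smul]; abel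
      rw [e]
      exact (Nf_add_le h hA _ _).trans (by
        have := Nf_le_K hA ((u (ψ (θ j)) - u') + (b (ψ (θ j)) - b') • g)
        have h6 : K * r j = K * ‖(u (ψ (θ j)) - u') + (b (ψ (θ j)) - b') • g‖ := rfl
        linarith)
    have h4 : Nf p m (u' + b' • g) ≤ pn p d' := Nf_le hSd' hQd'
    linarith
  -- contradiction in the limit
  have h1 : Tendsto (fun j => (pn p (d (θ j)) - pn p (d (θ j) - d')) - 2 * (K * r j)) atTop
      (𝓝 (pn p d' - 2 * (K * 0))) := hBL.sub ((hr0.const_mul K).const_mul 2)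
  have h2 : ∀ j, (pn p (d (θ j)) - pn p (d (θ j) - d')) - 2 * (K * r j) ≤ pn p d' - ε / 2 := by
    intro j
    have := hlow j
    have := hup j
    linarith
  have h3 := le_of_tendsto' h1 h2
  linarith

/-- The compact sets of combinations. -/
def CC (f : ℕ → F) (g : F) : ℕ → Set F
  | 0 => (fun c : ℝ => c • g) '' Set.Icc (-1) 1
  | (n+1) => CC f g n + (fun c : ℝ => c • f n) '' Set.Icc (-1) 1

omit [CompleteSpace F] in
lemma CC_compact (f : ℕ → F) (g : F) : ∀ n, IsCompact (CC f g n)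
  | 0 => isCompact_Icc.image (by fun_prop)
  | (n+1) => (CC_compact f g n).add (isCompact_Icc.image (by fun_prop))

omit [CompleteSpace F] [ContinuousSMul ℝ F] in
lemma CC_succ (f : ℕ → F) (g : F) (n : ℕ) : CC f g n ⊆ CC f g (n+1) := by
  intro x hx
  exact ⟨x, hx, 0, ⟨0, by simp, by simp⟩, by simp⟩

omit [CompleteSpace F] [ContinuousSMul ℝ F] in
lemma CC_mono (f : ℕ → F) (g : F) {n n' : ℕ} (h : n ≤ n') : CC f g n ⊆ CC f g n' := by
  induction n', h using Nat.le_induction with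
  | base => exact subset_rfl
  | succ k _ ih => exact ih.trans (CC_succ f g k)

/-- The starting indices of the blocks. -/
def MM (N : ℕ → ℕ) : ℕ → ℕ
  | 0 => 0
  | (j+1) => max (MM N j) (N (MM N j)) + 1

lemma le_MM (N : ℕ → ℕ) : ∀ j, j ≤ MM N j
  | 0 => le_refl _
  | (j+1) => by
    have := le_MM N j
    have h2 : MM N (j+1) = max (MM N j) (N (MM N j)) + 1 := rfl
    have h3 := le_max_left (MM N j) (N (MM N j))
    omega

lemma sum_geom (κ : ℝ) (n : ℕ) :
    ∑ i ∈ Finset.range n, κ / 2 ^ (i + 2) = κ / 2 - κ / 2 ^ (n + 1) := by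
  induction n with
  | zero => simp
  | succ n ih =>
    rw [Finset.sum_range_succ, ih]
    field_simp
    ring

/-- The lower `ℓ_p` estimate along a subsequence. -/
lemma lower_subseq [Countable D] (h : Atoms p m) {K : ℝ} (hK : 0 ≤ K) (hA : Onto p m K)
    (hKey : Key p m) (f : ℕ → F)
    (a : ℕ → D → ℝ) (a' : D → ℝ) (C : ℝ) (hSa : ∀ n, S p (a n)) (hCa : ∀ n, pn p (a n) ≤ C)
    (hlim : ∀ J, Tendsto (fun n => a n J) atTop (𝓝 (a' J))) (hQ : ∀ n, Q m (a n) = f n) (κ : ℝ)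
    (hκ0 : 0 < κ) (hκ : ∀ n, κ ≤ Nf p m (f n - Q m a')) :
    ∃ k : ℕ → ℕ, ∀ (n : ℕ) (c : ℕ → ℝ), ∑ i ∈ Finset.range n, |c i| ≤ 1 →
      κ * ∑ i ∈ Finset.range n, |c i| ^ p - κ / 2 ≤ Nf p m (∑ i ∈ Finset.range n, c i • f (k i)) := by
  set g := Q m a' with hg
  have hthr : ∀ N : ℕ, ∃ n₀ : ℕ, ∀ n ≥ n₀, ∀ u ∈ CC f g N, ∀ b ∈ Set.Icc (-1 : ℝ) 1,
      Nf p m (u + b • g) + |b| ^ p * κ - κ / 2 ^ (N + 2) ≤ Nf p m (u + b • f n) := fun N =>
    unif_split h hK hA hKey f a a' C hSa hCa hlim hQ κ hκ _ (CC_compact f g N) _ (by positivity)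
  choose N hN using hthr
  set k : ℕ → ℕ := fun j => max (MM N j) (N (MM N j)) with hk
  refine ⟨k, ?_⟩
  have hprop : ∀ j, ∀ u ∈ CC f g (MM N j), ∀ b ∈ Set.Icc (-1 : ℝ) 1,
      Nf p m (u + b • g) + |b| ^ p * κ - κ / 2 ^ (j + 2) ≤ Nf p m (u + b • f (k j)) := by
    intro j u hu b hb
    have h1 := hN (MM N j) (k j) (le_max_right _ _) u hu b hb
    have h2 : κ / 2 ^ (MM N j + 2) ≤ κ / 2 ^ (j + 2) := by
      apply div_le_div_of_nonneg_left hκ0.le (by positivity)
      exact pow_le_pow_right₀ (by norm_num) (by have := le_MM N j; omega)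
    linarith
  have main : ∀ (n : ℕ) (c : ℕ → ℝ) (t : ℝ), |t| + ∑ i ∈ Finset.range n, |c i| ≤ 1 →
      (∑ i ∈ Finset.range n, c i • f (k i)) + t • g ∈ CC f g (MM N n) ∧
      κ * ∑ i ∈ Finset.range n, |c i| ^ p - ∑ i ∈ Finset.range n, κ / 2 ^ (i + 2) ≤
        Nf p m ((∑ i ∈ Finset.range n, c i • f (k i)) + t • g) := by
    intro n
    induction n with
    | zero =>
      intro c t ht
      simp only [Finset.range_zero, Finset.sum_empty, add_zero, zero_add, mul_zero, sub_zero] at ht ⊢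
      exact ⟨⟨t, abs_le.1 ht, rfl⟩, Nf_nonneg h hA _⟩
    | succ n ih =>
      intro c t ht
      rw [Finset.sum_range_succ] at ht
      have hcn : |c n| ≤ 1 := by
        have h1 : 0 ≤ ∑ i ∈ Finset.range n, |c i| := Finset.sum_nonneg (fun _ _ => abs_nonneg _)
        linarith [abs_nonneg t]
      have hprev : |t| + ∑ i ∈ Finset.range n, |c i| ≤ 1 := by linarith [abs_nonneg (c n)]
      have hprev2 : |t + c n| + ∑ i ∈ Finset.range n, |c i| ≤ 1 := by
        linarith [abs_add_le t (c n)]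
      obtain ⟨hmem, -⟩ := ih c t hprev
      obtain ⟨-, hbd⟩ := ih c (t + c n) hprev2
      have e1 : (∑ i ∈ Finset.range (n+1), c i • f (k i)) + t • g =
          ((∑ i ∈ Finset.range n, c i • f (k i)) + t • g) + c n • f (k n) := by
        rw [Finset.sum_range_succ]; abel
      constructor
      · rw [e1]
        have h1 : MM N (n+1) = k n + 1 := rfl
        rw [h1]
        exact ⟨_, CC_mono f g (le_max_left _ _) hmem, _, ⟨c n, abs_le.1 hcn, rfl⟩, rfl⟩
      · rw [e1]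
        have h1 := hprop n _ hmem (c n) (abs_le.1 hcn)
        have e2 : (∑ i ∈ Finset.range n, c i • f (k i)) + t • g + c n • g =
            (∑ i ∈ Finset.range n, c i • f (k i)) + (t + c n) • g := by
          rw [add_smul]; abel
        rw [e2] at h1
        rw [Finset.sum_range_succ, Finset.sum_range_succ, mul_add]
        linarith
  intro n c hc
  obtain ⟨-, hbd⟩ := main n c 0 (by simpa using hc)
  rw [zero_smul, add_zero, sum_geom] at hbd
  have : 0 < κ / 2 ^ (n + 1) := by positivity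
  linarith

/-- The abstract Schur `p`-property. -/
theorem schur_abs [Countable D] (h : Atoms p m) {K : ℝ} (hK : 0 < K) (hA : Onto p m K)
    (hKey : Key p m) (A : Set F) (hinf : A.Infinite) (C : ℝ) (hC : ∀ x ∈ A, ‖x‖ ≤ C) (c : ℝ)
    (hc : 0 < c) (hsep : ∀ x ∈ A, ∀ y ∈ A, x ≠ y → c ≤ ‖x - y‖) :
    ∃ u : ℕ → F, (∀ n, u n ∈ A) ∧ ∃ c' : ℝ, 0 < c' ∧ ∀ (s : Finset ℕ) (a : ℕ → ℝ),
      c' * ∑ i ∈ s, |a i| ^ p ≤ ‖∑ i ∈ s, a i • u i‖ ∧
      ‖∑ i ∈ s, a i • u i‖ ≤ C * ∑ i ∈ s, |a i| ^ p := by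
  classical
  set f₀ : ℕ → F := fun n => (hinf.natEmbedding A n : F) with hf₀
  have hf₀A : ∀ n, f₀ n ∈ A := fun n => (hinf.natEmbedding A n).2
  have hf₀inj : Function.Injective f₀ := fun i j hij =>
    (hinf.natEmbedding A).injective (Subtype.ext hij)
  choose a₀ ha₀S ha₀Q ha₀C using fun n => hA (f₀ n)
  have ha₀C' : ∀ n, pn p (a₀ n) ≤ K * C := fun n =>
    (ha₀C n).trans (mul_le_mul_of_nonneg_left (hC _ (hf₀A n)) hK.le)
  obtain ⟨a', φ, hφ, hlim⟩ := exists_subseq h.p0 ha₀S ha₀C'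
  set g := Q m a' with hg
  -- at most one index is close to `g`
  have hfar : ∃ n₁ : ℕ, ∀ n ≥ n₁, c / 2 ≤ Nf p m (f₀ (φ n) - g) := by
    by_contra hcon
    push Not at hcon
    obtain ⟨n, -, hn⟩ := hcon 0
    obtain ⟨n', hn', hn''⟩ := hcon (n+1)
    have hne : f₀ (φ n) ≠ f₀ (φ n') := fun e => by
      have := hφ.injective (hf₀inj e)
      omega
    have h1 := hsep _ (hf₀A _) _ (hf₀A _) hne
    have h2 := norm_le_Nf h hA (f₀ (φ n) - f₀ (φ n'))
    have h3 := Nf_add_le h hA (f₀ (φ n) - g) (g - f₀ (φ n'))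
    rw [sub_add_sub_cancel, Nf_sub_comm h hA g] at h3
    linarith
  obtain ⟨n₁, hn₁⟩ := hfar
  obtain ⟨k, hk⟩ := lower_subseq h hK.le hA hKey (fun n => f₀ (φ (n + n₁)))
    (fun n => a₀ (φ (n + n₁))) a' (K * C) (fun n => ha₀S _) (fun n => ha₀C' _)
    (fun J => (hlim J).comp (tendsto_add_atTop_nat n₁)) (fun n => ha₀Q _) (c / 2) (by linarith)
    (fun n => hn₁ _ (by omega))
  refine ⟨fun n => f₀ (φ (k n + n₁)), fun n => hf₀A _, c / (4 * K), by positivity, fun s a => ?_⟩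
  constructor
  · -- lower estimate
    set T : ℝ := ∑ i ∈ s, |a i| ^ p with hT
    have hT0 : 0 ≤ T := Finset.sum_nonneg (fun _ _ => Real.rpow_nonneg (abs_nonneg _) _)
    rcases hT0.eq_or_lt with hT0 | hTpos
    · rw [← hT0, mul_zero]; exact norm_nonneg _
    set t : ℝ := T ^ (-(1 / p)) with ht
    have htpos : 0 < t := Real.rpow_pos_of_pos hTpos _
    have htp : t ^ p = T⁻¹ := by
      rw [ht, ← Real.rpow_mul hT0, neg_mul, one_div, inv_mul_cancel₀ h.p0.ne', Real.rpow_neg_one]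
    set b : ℕ → ℝ := fun i => if i ∈ s then t * a i else 0 with hb
    obtain ⟨n, hn⟩ : ∃ n, s ⊆ Finset.range n := by
      refine ⟨s.sup id + 1, fun i hi => ?_⟩
      rw [Finset.mem_range]
      have : i ≤ s.sup id := Finset.le_sup (f := id) hi
      omega
    have hsum1 : ∑ i ∈ Finset.range n, |b i| ^ p = 1 := by
      have h1 : ∀ i ∈ Finset.range n, |b i| ^ p = if i ∈ s then t ^ p * |a i| ^ p else 0 := by
        intro i _
        by_cases hi : i ∈ s
        · simp only [hb, hi, if_true]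
          rw [abs_mul, Real.mul_rpow (abs_nonneg _) (abs_nonneg _), abs_of_pos htpos]
        · simp only [hb, hi, if_false, abs_zero]
          exact Real.zero_rpow h.p0.ne'
      rw [Finset.sum_congr rfl h1, ← Finset.sum_filter]
      have h2 : (Finset.range n).filter (· ∈ s) = s := by
        ext i
        simp only [Finset.mem_filter]
        exact ⟨fun h => h.2, fun h => ⟨hn h, h⟩⟩
      rw [h2, ← Finset.mul_sum, htp, ← hT, inv_mul_cancel₀ hTpos.ne']
    have hble : ∀ i ∈ Finset.range n, |b i| ≤ |b i| ^ p := by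
      intro i hi
      have h1 : |b i| ^ p ≤ 1 := by
        rw [← hsum1]
        exact Finset.single_le_sum (f := fun i => |b i| ^ p)
          (fun _ _ => Real.rpow_nonneg (abs_nonneg _) _) hi
      have h2 : |b i| ≤ 1 := by
        by_contra hgt
        push Not at hgt
        have := Real.one_lt_rpow hgt h.p0
        linarith
      calc |b i| = |b i| ^ (1 : ℝ) := (Real.rpow_one _).symm
        _ ≤ |b i| ^ p := by
          rcases (abs_nonneg (b i)).eq_or_lt with h0 | h0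
          · rw [← h0, Real.zero_rpow h.p0.ne', Real.zero_rpow one_ne_zero]
          · exact Real.rpow_le_rpow_of_exponent_ge h0 h2 h.p1
    have hsum2 : ∑ i ∈ Finset.range n, |b i| ≤ 1 := by
      rw [← hsum1]; exact Finset.sum_le_sum hble
    have hmain := hk n b hsum2
    rw [hsum1] at hmain
    have hcomb : ∑ i ∈ Finset.range n, b i • f₀ (φ (k i + n₁)) =
        t • ∑ i ∈ s, a i • f₀ (φ (k i + n₁)) := by
      have h1 : ∀ i ∈ Finset.range n, b i • f₀ (φ (k i + n₁)) =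
          if i ∈ s then t • (a i • f₀ (φ (k i + n₁))) else 0 := by
        intro i _
        by_cases hi : i ∈ s
        · simp only [hb, hi, if_true, mul_smul]
        · simp only [hb, hi, if_false, zero_smul]
      rw [Finset.sum_congr rfl h1, ← Finset.sum_filter]
      have h2 : (Finset.range n).filter (· ∈ s) = s := by
        ext i
        simp only [Finset.mem_filter]
        exact ⟨fun h => h.2, fun h => ⟨hn h, h⟩⟩
      rw [h2, Finset.smul_sum]
    rw [hcomb, Nf_smul h hA, abs_of_pos htpos, htp] at hmain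
    have h5 := Nf_le_K hA (∑ i ∈ s, a i • f₀ (φ (k i + n₁)))
    have h6 : c / 4 ≤ T⁻¹ * (K * ‖∑ i ∈ s, a i • f₀ (φ (k i + n₁))‖) := by
      have := mul_le_mul_of_nonneg_left h5 (inv_nonneg.2 hTpos.le)
      linarith
    have h7 : c / 4 * T ≤ K * ‖∑ i ∈ s, a i • f₀ (φ (k i + n₁))‖ := by
      have := mul_le_mul_of_nonneg_right h6 hTpos.le
      rwa [mul_comm T⁻¹, mul_assoc, inv_mul_cancel₀ hTpos.ne', mul_one] at this
    rw [div_mul_eq_mul_div, div_le_iff₀ (by positivity)]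
    nlinarith
  · -- upper estimate
    refine (norm_sum_le _ _).trans ?_
    rw [Finset.mul_sum]
    refine Finset.sum_le_sum (fun i _ => ?_)
    rw [h.hs, mul_comm]
    exact mul_le_mul_of_nonneg_right (hC _ (hf₀A _)) (Real.rpow_nonneg (abs_nonneg _) _)

end Pool.Agent.H59.Schur
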