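import Mathlib

/-!
`ℓ_p` costs for `0 < p < 1`, atomic representations, and pointwise limits.
-/

set_option autoImplicit false

namespace Pool.Agent.H59.Schur

open Filter Topology

section basics

variable {p : ℝ}

lemma abs_add_rpow (hp0 : 0 < p) (hp1 : p ≤ 1) (x y : ℝ) : |x + y| ^ p ≤ |x| ^ p + |y| ^ p :=
  (Real.rpow_le_rpow (abs_nonneg _) (abs_add_le x y) hp0.le).trans
    (Real.rpow_add_le_add_rpow (abs_nonneg _) (abs_nonneg _) hp0.le hp1)

variable {D : Type*}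

/-- The `ℓ_p` cost. -/
noncomputable def pn (p : ℝ) (d : D → ℝ) : ℝ := ∑' J, |d J| ^ p

/-- `p`-summability. -/
def S (p : ℝ) (d : D → ℝ) : Prop := Summable (fun J => |d J| ^ p)

lemma pn_nonneg (d : D → ℝ) : 0 ≤ pn p d := tsum_nonneg (fun _ => Real.rpow_nonneg (abs_nonneg _) _)

lemma S.add (hp0 : 0 < p) (hp1 : p ≤ 1) {d d' : D → ℝ} (h : S p d) (h' : S p d') :
    S p (d + d') :=
  Summable.of_nonneg_of_le (fun _ => Real.rpow_nonneg (abs_nonneg _) _)
    (fun J => abs_add_rpow hp0 hp1 (d J) (d' J)) (Summable.add h h')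

lemma pn_add_le (hp0 : 0 < p) (hp1 : p ≤ 1) {d d' : D → ℝ} (h : S p d) (h' : S p d') :
    pn p (d + d') ≤ pn p d + pn p d' := by
  unfold pn
  rw [← Summable.tsum_add h h']
  exact Summable.tsum_le_tsum (fun J => abs_add_rpow hp0 hp1 (d J) (d' J)) (h.add hp0 hp1 h')
    (Summable.add h h')

lemma S.smul {d : D → ℝ} (a : ℝ) (h : S p d) : S p (a • d) := by
  have : (fun J => |(a • d) J| ^ p) = fun J => |a| ^ p * |d J| ^ p := by
    ext J
    rw [Pi.smul_apply, smul_eq_mul, abs_mul, Real.mul_rpow (abs_nonneg _) (abs_nonneg _)]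
  unfold S
  rw [this]
  exact Summable.mul_left _ h

lemma pn_smul (a : ℝ) (d : D → ℝ) : pn p (a • d) = |a| ^ p * pn p d := by
  have : (fun J => |(a • d) J| ^ p) = fun J => |a| ^ p * |d J| ^ p := by
    ext J
    rw [Pi.smul_apply, smul_eq_mul, abs_mul, Real.mul_rpow (abs_nonneg _) (abs_nonneg _)]
  unfold pn
  rw [this, tsum_mul_left]

lemma S.neg {d : D → ℝ} (h : S p d) : S p (-d) := by
  have := h.smul (-1)
  simpa using this

lemma pn_neg (d : D → ℝ) : pn p (-d) = pn p d := by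
  unfold pn
  simp

lemma S.sub (hp0 : 0 < p) (hp1 : p ≤ 1) {d d' : D → ℝ} (h : S p d) (h' : S p d') :
    S p (d - d') := by
  rw [sub_eq_add_neg]
  exact h.add hp0 hp1 h'.neg

lemma pn_sub_le (hp0 : 0 < p) (hp1 : p ≤ 1) {d d' : D → ℝ} (h : S p d) (h' : S p d') :
    pn p (d - d') ≤ pn p d + pn p d' := by
  rw [sub_eq_add_neg, ← pn_neg d']
  exact pn_add_le hp0 hp1 h h'.neg

lemma S_zero (hp0 : 0 < p) : S p (0 : D → ℝ) := by
  unfold S
  simp [Real.zero_rpow hp0.ne']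

lemma pn_zero (hp0 : 0 < p) : pn p (0 : D → ℝ) = 0 := by
  unfold pn
  simp [Real.zero_rpow hp0.ne']

/-- Fatou. -/
lemma fatou (hp0 : 0 < p) {d : ℕ → D → ℝ} {d' : D → ℝ} {C : ℝ} (hS : ∀ n, S p (d n))
    (hC : ∀ n, pn p (d n) ≤ C)
    (hlim : ∀ J, Tendsto (fun n => d n J) atTop (𝓝 (d' J))) : S p d' ∧ pn p d' ≤ C := by
  have key : ∀ s : Finset D, ∑ J ∈ s, |d' J| ^ p ≤ C := by
    intro s
    have h1 : Tendsto (fun n => ∑ J ∈ s, |d n J| ^ p) atTop (𝓝 (∑ J ∈ s, |d' J| ^ p)) :=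
      tendsto_finsetSum _ (fun J _ => ((hlim J).abs.rpow_const (Or.inr hp0.le)))
    refine le_of_tendsto' h1 (fun n => ?_)
    exact (Summable.sum_le_tsum s (fun J _ => Real.rpow_nonneg (abs_nonneg _) _) (hS n)).trans (hC n)
  have h1 : S p d' := summable_of_sum_le (fun J => Real.rpow_nonneg (abs_nonneg _) _) key
  exact ⟨h1, h1.tsum_le_of_sum_le key⟩

/-- Brezis-Lieb. -/
lemma brezis_lieb (hp0 : 0 < p) (hp1 : p ≤ 1) {d : ℕ → D → ℝ} {d' : D → ℝ}
    (hS : ∀ n, S p (d n)) (hS' : S p d')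
    (hlim : ∀ J, Tendsto (fun n => d n J) atTop (𝓝 (d' J))) :
    Tendsto (fun n => pn p (d n) - pn p (d n - d')) atTop (𝓝 (pn p d')) := by
  have h1 : ∀ n, pn p (d n) - pn p (d n - d') = ∑' J, (|d n J| ^ p - |d n J - d' J| ^ p) := by
    intro n
    unfold pn
    rw [← Summable.tsum_sub (hS n) ((hS n).sub hp0 hp1 hS')]
    rfl
  simp_rw [h1]
  unfold pn
  apply tendsto_tsum_of_dominated_convergence (bound := fun J => |d' J| ^ p) hS'
  · intro J
    have h2 : Tendsto (fun n => |d n J| ^ p - |d n J - d' J| ^ p) atTop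
        (𝓝 (|d' J| ^ p - |d' J - d' J| ^ p)) :=
      ((hlim J).abs.rpow_const (Or.inr hp0.le)).sub
        (((hlim J).sub_const _).abs.rpow_const (Or.inr hp0.le))
    simpa [Real.zero_rpow hp0.ne'] using h2
  · refine Eventually.of_forall (fun n J => ?_)
    rw [Real.norm_eq_abs, abs_le]
    constructor
    · have := abs_add_rpow hp0 hp1 (d n J) (-d' J)
      rw [abs_neg, ← sub_eq_add_neg] at this
      linarith
    · have := abs_add_rpow hp0 hp1 (d n J - d' J) (d' J)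
      rw [sub_add_cancel] at this
      linarith

/-- Pointwise compactness of bounded sets. -/
lemma exists_subseq [Countable D] (hp0 : 0 < p) {d : ℕ → D → ℝ} {C : ℝ} (hS : ∀ n, S p (d n))
    (hC : ∀ n, pn p (d n) ≤ C) :
    ∃ (d' : D → ℝ) (φ : ℕ → ℕ), StrictMono φ ∧
      ∀ J, Tendsto (fun n => d (φ n) J) atTop (𝓝 (d' J)) := by
  set M : ℝ := C ^ (1 / p) with hM
  have hb : ∀ n J, |d n J| ≤ M := by
    intro n J
    have h1 : |d n J| ^ p ≤ C :=
      ((hS n).le_tsum J (fun _ _ => Real.rpow_nonneg (abs_nonneg _) _)).trans (hC n)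
    have h2 : (|d n J| ^ p) ^ (1 / p) ≤ C ^ (1 / p) :=
      Real.rpow_le_rpow (Real.rpow_nonneg (abs_nonneg _) _) h1 (by positivity)
    rwa [← Real.rpow_mul (abs_nonneg _), mul_one_div, div_self hp0.ne', Real.rpow_one] at h2
  have hcomp : IsCompact (Set.pi Set.univ (fun _ : D => Set.Icc (-M) M)) :=
    isCompact_univ_pi (fun _ => isCompact_Icc)
  obtain ⟨d', -, φ, hφ, hlim⟩ := hcomp.tendsto_subseq (x := d) (fun n => by
    intro J _
    exact abs_le.1 (hb n J))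
  exact ⟨d', φ, hφ, fun J => (tendsto_pi_nhds.1 hlim J)⟩

end basics

section rep

variable {p : ℝ} {D : Type*} {F : Type*} [NormedAddCommGroup F] [Module ℝ F] [CompleteSpace F]
  [ContinuousSMul ℝ F]

/-- Synthesis operator. -/
noncomputable def Q (m : D → F) (d : D → ℝ) : F := ∑' J, d J • m J

/-- The standing hypotheses: `p`-homogeneity of the norm and atoms in the unit ball. -/
structure Atoms (p : ℝ) (m : D → F) : Prop where
  p0 : 0 < p
  p1 : p ≤ 1
  hs : ∀ (a : ℝ) (x : F), ‖a • x‖ = |a| ^ p * ‖x‖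
  hm : ∀ J, ‖m J‖ ≤ 1

variable {m : D → F}

omit [CompleteSpace F] [ContinuousSMul ℝ F] in
lemma Atoms.bound (h : Atoms p m) (d : D → ℝ) (J : D) : ‖d J • m J‖ ≤ |d J| ^ p := by
  rw [h.hs]
  calc _ ≤ |d J| ^ p * 1 :=
        mul_le_mul_of_nonneg_left (h.hm J) (Real.rpow_nonneg (abs_nonneg _) _)
    _ = _ := mul_one _

omit [ContinuousSMul ℝ F] in
lemma Atoms.summable (h : Atoms p m) {d : D → ℝ} (hS : S p d) : Summable (fun J => d J • m J) :=
  Summable.of_norm_bounded hS (h.bound d)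

omit [CompleteSpace F] [ContinuousSMul ℝ F] in
lemma Atoms.norm_Q_le (h : Atoms p m) {d : D → ℝ} (hS : S p d) : ‖Q m d‖ ≤ pn p d :=
  tsum_of_norm_bounded (Summable.hasSum hS) (h.bound d)

omit [ContinuousSMul ℝ F] in
lemma Atoms.Q_add (h : Atoms p m) {d d' : D → ℝ} (hS : S p d) (hS' : S p d') :
    Q m (d + d') = Q m d + Q m d' := by
  unfold Q
  rw [← Summable.tsum_add (h.summable hS) (h.summable hS')]
  congr 1
  ext J
  rw [Pi.add_apply, add_smul]

omit [CompleteSpace F] in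
lemma Q_smul (a : ℝ) (d : D → ℝ) : Q m (a • d) = a • Q m d := by
  unfold Q
  rw [← tsum_const_smul'']
  congr 1
  ext J
  rw [Pi.smul_apply, smul_eq_mul, mul_smul]

lemma Atoms.Q_sub (h : Atoms p m) {d d' : D → ℝ} (hS : S p d) (hS' : S p d') :
    Q m (d - d') = Q m d - Q m d' := by
  have h1 : d - d' = d + (-1 : ℝ) • d' := by rw [neg_one_smul, sub_eq_add_neg]
  rw [h1, h.Q_add hS (hS'.smul _), Q_smul, neg_one_smul, sub_eq_add_neg]

/-- The quotient gauge. -/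
noncomputable def Nf (p : ℝ) (m : D → F) (f : F) : ℝ :=
  sInf {s | ∃ d : D → ℝ, S p d ∧ Q m d = f ∧ s = pn p d}

/-- Every vector is represented with a controlled cost. -/
def Onto (p : ℝ) (m : D → F) (K : ℝ) : Prop :=
  ∀ f : F, ∃ d : D → ℝ, S p d ∧ Q m d = f ∧ pn p d ≤ K * ‖f‖

omit [CompleteSpace F] [ContinuousSMul ℝ F] in
lemma Nf_le {d : D → ℝ} (hS : S p d) {f : F} (hf : Q m d = f) : Nf p m f ≤ pn p d :=
  csInf_le ⟨0, by rintro s ⟨d, -, -, rfl⟩; exact pn_nonneg d⟩ ⟨d, hS, hf, rfl⟩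

omit [CompleteSpace F] [ContinuousSMul ℝ F] in
lemma exists_near {K : ℝ} (hA : Onto p m K) (f : F) {ε : ℝ} (hε : 0 < ε) :
    ∃ d : D → ℝ, S p d ∧ Q m d = f ∧ pn p d < Nf p m f + ε := by
  obtain ⟨d₀, h1, h2, -⟩ := hA f
  have hne : {s | ∃ d : D → ℝ, S p d ∧ Q m d = f ∧ s = pn p d}.Nonempty := ⟨_, d₀, h1, h2, rfl⟩
  obtain ⟨s, ⟨d, hd1, hd2, rfl⟩, hlt⟩ := exists_lt_of_csInf_lt hne
    (show Nf p m f < Nf p m f + ε by linarith)
  exact ⟨d, hd1, hd2, hlt⟩

omit [CompleteSpace F] [ContinuousSMul ℝ F] in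
lemma Nf_le_K {K : ℝ} (hA : Onto p m K) (f : F) : Nf p m f ≤ K * ‖f‖ := by
  obtain ⟨d, h1, h2, h3⟩ := hA f
  exact (Nf_le h1 h2).trans h3

omit [CompleteSpace F] [ContinuousSMul ℝ F] in
lemma norm_le_Nf (h : Atoms p m) {K : ℝ} (hA : Onto p m K) (f : F) : ‖f‖ ≤ Nf p m f := by
  apply le_of_forall_pos_le_add
  intro ε hε
  obtain ⟨d, h1, h2, h3⟩ := exists_near hA f hε
  have := h.norm_Q_le h1
  rw [h2] at this
  linarith

omit [CompleteSpace F] [ContinuousSMul ℝ F] in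
lemma Nf_nonneg (h : Atoms p m) {K : ℝ} (hA : Onto p m K) (f : F) : 0 ≤ Nf p m f :=
  (norm_nonneg f).trans (norm_le_Nf h hA f)

omit [ContinuousSMul ℝ F] in
lemma Nf_add_le (h : Atoms p m) {K : ℝ} (hA : Onto p m K) (f g : F) :
    Nf p m (f + g) ≤ Nf p m f + Nf p m g := by
  apply le_of_forall_pos_le_add
  intro ε hε
  obtain ⟨d, h1, h2, h3⟩ := exists_near hA f (half_pos hε)
  obtain ⟨d', h1', h2', h3'⟩ := exists_near hA g (half_pos hε)
  have := Nf_le (m := m) (h1.add h.p0 h.p1 h1') (f := f + g) (by rw [h.Q_add h1 h1', h2, h2'])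
  have h4 := pn_add_le h.p0 h.p1 h1 h1'
  linarith

omit [CompleteSpace F] in
lemma Nf_smul_le {K : ℝ} (hA : Onto p m K) (a : ℝ) (f : F) :
    Nf p m (a • f) ≤ |a| ^ p * Nf p m f := by
  apply le_of_forall_pos_le_add
  intro ε hε
  have hpos : 0 < |a| ^ p + 1 := by have := Real.rpow_nonneg (abs_nonneg a) p; linarith
  obtain ⟨d, h1, h2, h3⟩ := exists_near hA f (div_pos hε hpos)
  have h4 := Nf_le (m := m) (h1.smul a) (f := a • f) (by rw [Q_smul, h2])
  rw [pn_smul] at h4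
  have h5 : |a| ^ p * pn p d ≤ |a| ^ p * (Nf p m f + ε / (|a| ^ p + 1)) :=
    mul_le_mul_of_nonneg_left h3.le (Real.rpow_nonneg (abs_nonneg _) _)
  have h6 : |a| ^ p * (ε / (|a| ^ p + 1)) ≤ ε := by
    rw [mul_div_assoc', div_le_iff₀ hpos]
    nlinarith
  linarith

omit [CompleteSpace F] in
lemma Nf_smul (h : Atoms p m) {K : ℝ} (hA : Onto p m K) (a : ℝ) (f : F) :
    Nf p m (a • f) = |a| ^ p * Nf p m f := by
  apply le_antisymm (Nf_smul_le hA a f)
  by_cases ha : a = 0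
  · subst ha
    rw [abs_zero, Real.zero_rpow h.p0.ne', zero_mul]
    exact Nf_nonneg h hA _
  · have h1 := Nf_smul_le hA a⁻¹ (a • f)
    rw [smul_smul, inv_mul_cancel₀ ha, one_smul, abs_inv, Real.inv_rpow (abs_nonneg _)] at h1
    have hpos : 0 < |a| ^ p := Real.rpow_pos_of_pos (abs_pos.2 ha) _
    calc |a| ^ p * Nf p m f ≤ |a| ^ p * ((|a| ^ p)⁻¹ * Nf p m (a • f)) :=
          mul_le_mul_of_nonneg_left h1 hpos.le
      _ = _ := by rw [← mul_assoc, mul_inv_cancel₀ hpos.ne', one_mul]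

omit [CompleteSpace F] in
lemma Nf_sub_comm (h : Atoms p m) {K : ℝ} (hA : Onto p m K) (f g : F) :
    Nf p m (f - g) = Nf p m (g - f) := by
  have := Nf_smul h hA (-1) (g - f)
  rw [neg_one_smul, neg_sub] at this
  rw [this]
  simp

end rep

end Pool.Agent.H59.Schur
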