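import Pool.Agent.H59.SchurOnto

/-!
Surjectivity of the synthesis operator, from the universal property applied to the free space
itself with an equivalent norm.
-/

set_option autoImplicit false
set_option linter.unusedSectionVars false

namespace Pool.Agent.H59.Schur

open Filter Topology

section gauge

variable {p : ℝ} {D : Type*} {F : Type*} [NormedAddCommGroup F] [Module ℝ F]
  [CompleteSpace F] [ContinuousSMul ℝ F] {m : D → F} {R : ℝ}

/-- The auxiliary gauge. -/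
noncomputable def G (p : ℝ) (m : D → F) (R : ℝ) (f : F) : ℝ :=
  sInf {s | ∃ d : D → ℝ, S p d ∧ s = R * ‖f - Q m d‖ + pn p d}

lemma G_le (hR : 0 ≤ R) {d : D → ℝ} (hS : S p d) (f : F) :
    G p m R f ≤ R * ‖f - Q m d‖ + pn p d :=
  csInf_le ⟨0, by
    rintro s ⟨d, -, rfl⟩
    exact add_nonneg (mul_nonneg hR (norm_nonneg _)) (pn_nonneg d)⟩ ⟨d, hS, rfl⟩

lemma G_near (hp0 : 0 < p) (f : F) {ε : ℝ} (hε : 0 < ε) :
    ∃ d : D → ℝ, S p d ∧ R * ‖f - Q m d‖ + pn p d < G p m R f + ε := by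
  have hne : {s | ∃ d : D → ℝ, S p d ∧ s = R * ‖f - Q m d‖ + pn p d}.Nonempty :=
    ⟨_, 0, S_zero hp0, rfl⟩
  obtain ⟨s, ⟨d, hd, rfl⟩, hlt⟩ := exists_lt_of_csInf_lt hne
    (show G p m R f < G p m R f + ε by linarith)
  exact ⟨d, hd, hlt⟩

lemma norm_le_G (h : Atoms p m) (hR : 1 ≤ R) (f : F) : ‖f‖ ≤ G p m R f := by
  apply le_of_forall_pos_le_add
  intro ε hε
  obtain ⟨d, h1, h2⟩ := G_near (m := m) (R := R) h.p0 f hε
  have h3 := h.norm_Q_le h1
  have h4 : ‖f‖ ≤ ‖f - Q m d‖ + ‖Q m d‖ := by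
    have := norm_add_le (f - Q m d) (Q m d)
    rwa [sub_add_cancel] at this
  have h5 : ‖f - Q m d‖ ≤ R * ‖f - Q m d‖ := le_mul_of_one_le_left (norm_nonneg _) hR
  linarith

lemma G_le_R (h : Atoms p m) (hR : 0 ≤ R) (f : F) : G p m R f ≤ R * ‖f‖ := by
  have h1 := G_le (m := m) hR (S_zero h.p0) f
  have h2 : Q m (0 : D → ℝ) = 0 := by unfold Q; simp
  rwa [h2, sub_zero, pn_zero h.p0, add_zero] at h1

lemma G_nonneg (h : Atoms p m) (hR : 1 ≤ R) (f : F) : 0 ≤ G p m R f :=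
  (norm_nonneg _).trans (norm_le_G h hR f)

lemma G_smul_le (h : Atoms p m) (hR : 1 ≤ R) (a : ℝ) (f : F) :
    G p m R (a • f) ≤ |a| ^ p * G p m R f := by
  apply le_of_forall_pos_le_add
  intro ε hε
  have hpos : 0 < |a| ^ p + 1 := by have := Real.rpow_nonneg (abs_nonneg a) p; linarith
  obtain ⟨d, h1, h2⟩ := G_near (m := m) (R := R) h.p0 f (div_pos hε hpos)
  have h4 := G_le (m := m) (zero_le_one.trans hR) (h1.smul a) (a • f)
  rw [pn_smul, Q_smul, ← smul_sub, h.hs] at h4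
  have h5 : |a| ^ p * (R * ‖f - Q m d‖ + pn p d) ≤ |a| ^ p * (G p m R f + ε / (|a| ^ p + 1)) :=
    mul_le_mul_of_nonneg_left h2.le (Real.rpow_nonneg (abs_nonneg _) _)
  have h6 : |a| ^ p * (ε / (|a| ^ p + 1)) ≤ ε := by
    rw [mul_div_assoc', div_le_iff₀ hpos]
    nlinarith
  linarith

lemma G_smul (h : Atoms p m) (hR : 1 ≤ R) (a : ℝ) (f : F) :
    G p m R (a • f) = |a| ^ p * G p m R f := by
  apply le_antisymm (G_smul_le h hR a f)
  by_cases ha : a = 0
  · subst ha
    rw [abs_zero, Real.zero_rpow h.p0.ne', zero_mul]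
    exact G_nonneg h hR _
  · have h1 := G_smul_le h hR a⁻¹ (a • f)
    rw [smul_smul, inv_mul_cancel₀ ha, one_smul, abs_inv, Real.inv_rpow (abs_nonneg _)] at h1
    have hpos : 0 < |a| ^ p := Real.rpow_pos_of_pos (abs_pos.2 ha) _
    calc |a| ^ p * G p m R f ≤ |a| ^ p * ((|a| ^ p)⁻¹ * G p m R (a • f)) :=
          mul_le_mul_of_nonneg_left h1 hpos.le
      _ = _ := by rw [← mul_assoc, mul_inv_cancel₀ hpos.ne', one_mul]

lemma G_add_le (h : Atoms p m) (hR : 1 ≤ R) (f g : F) :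
    G p m R (f + g) ≤ G p m R f + G p m R g := by
  apply le_of_forall_pos_le_add
  intro ε hε
  obtain ⟨d, h1, h2⟩ := G_near (m := m) (R := R) h.p0 f (half_pos hε)
  obtain ⟨d', h1', h2'⟩ := G_near (m := m) (R := R) h.p0 g (half_pos hε)
  have hR0 : 0 ≤ R := zero_le_one.trans hR
  have h3 := G_le (m := m) hR0 (h1.add h.p0 h.p1 h1') (f + g)
  have h4 := pn_add_le h.p0 h.p1 h1 h1'
  rw [h.Q_add h1 h1'] at h3
  have h5 : ‖f + g - (Q m d + Q m d')‖ ≤ ‖f - Q m d‖ + ‖g - Q m d'‖ := by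
    rw [add_sub_add_comm]; exact norm_add_le _ _
  have h6 := mul_le_mul_of_nonneg_left h5 hR0
  linarith

end gauge

section

variable {p : ℝ} {F : Type*} [NormedAddCommGroup F] [Module ℝ F] [CompleteSpace F]
  [ContinuousSMul ℝ F] {δ : unitInterval → F}

lemma G_bound (h : Free p δ) {R : ℝ} (hR : 1 ≤ R) (f : F) :
    G p (atm δ) R f ≤ KK p * ‖f‖ := by
  refine h.hgauge (G p (atm δ) R) R (KK p) (norm_le_G h.atoms hR)
    (G_le_R h.atoms (zero_le_one.trans hR)) (G_smul h.atoms hR) (G_add_le h.atoms hR) KK_pos.le ?_ f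
  intro x y
  obtain ⟨d, h1, h2, h3⟩ := rep_pair h x y
  have h4 := G_le (m := atm δ) (zero_le_one.trans hR) h1 (δ x - δ y)
  rw [h2, sub_self, norm_zero, mul_zero, zero_add] at h4
  exact h4.trans h3

lemma approx (h : Free p δ) (f : F) : ∃ d : ℕ × ℕ → ℝ, S p d ∧
    ‖f - Q (atm δ) d‖ ≤ 1 / 2 * ‖f‖ ∧ pn p d ≤ (KK p + 1) * ‖f‖ := by
  rcases eq_or_ne f 0 with rfl | hf
  · refine ⟨0, S_zero h.p0, ?_, ?_⟩
    · unfold Q; simp
    · rw [pn_zero h.p0]; simp
  · have hpos : 0 < ‖f‖ := norm_pos_iff.2 hf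
    have hK := KK_pos (p := p)
    obtain ⟨d, h1, h2⟩ := G_near (m := atm δ) (R := 2 * (KK p + 1)) h.p0 f hpos
    have h3 := G_bound h (R := 2 * (KK p + 1)) (by linarith) f
    have h4 := pn_nonneg (p := p) d
    have h5 := norm_nonneg (f - Q (atm δ) d)
    have h6 : 2 * (KK p + 1) * ‖f - Q (atm δ) d‖ + pn p d ≤ (KK p + 1) * ‖f‖ := by linarith
    refine ⟨d, h1, ?_, ?_⟩
    · have h7 : (KK p + 1) * (2 * ‖f - Q (atm δ) d‖) ≤ (KK p + 1) * ‖f‖ := by linarith
      have h8 := le_of_mul_le_mul_left h7 (by linarith)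
      linarith
    · have : 0 ≤ 2 * (KK p + 1) * ‖f - Q (atm δ) d‖ := by positivity
      linarith

/-- The synthesis operator of the dyadic atoms is onto. -/
lemma onto (h : Free p δ) : Onto p (atm δ) (2 * (KK p + 1)) := by
  intro f
  choose d hdS hdn hdp using approx (δ := δ) h
  -- the sequence of remainders
  set r : ℕ → F := fun n => Nat.rec f (fun _ g => g - Q (atm δ) (d g)) n with hr
  have hr0 : r 0 = f := rfl
  have hrs : ∀ n, r (n+1) = r n - Q (atm δ) (d (r n)) := fun n => rfl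
  have hrn : ∀ n, ‖r n‖ ≤ (1 / 2) ^ n * ‖f‖ := by
    intro n
    induction n with
    | zero => simp [hr0]
    | succ n ih =>
      rw [hrs, pow_succ]
      have := hdn (r n)
      linarith
  set E : ℕ → (ℕ × ℕ → ℝ) := fun n => ∑ i ∈ Finset.range n, d (r i) with hE
  have hEs : ∀ n, E (n+1) = E n + d (r n) := fun n => Finset.sum_range_succ _ _
  have hES : ∀ n, S p (E n) := by
    intro n
    induction n with
    | zero => simpa [hE] using S_zero h.p0
    | succ n ih => rw [hEs]; exact ih.add h.p0 h.p1.le (hdS _)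
  have hEQ : ∀ n, Q (atm δ) (E n) = f - r n := by
    intro n
    induction n with
    | zero => simp [hE, hr0, Q]
    | succ n ih => rw [hEs, h.atoms.Q_add (hES n) (hdS _), ih, hrs]; abel
  have hK := KK_pos (p := p)
  have hdiff : ∀ n, ∀ k ≥ n, pn p (E k - E n) ≤
      2 * (KK p + 1) * ‖f‖ * (1 / 2) ^ n - 2 * (KK p + 1) * ‖f‖ * (1 / 2) ^ k := by
    intro n k hk
    induction k, hk using Nat.le_induction with
    | base => simp [pn_zero h.p0]
    | succ k hk ih =>
      have e : E (k+1) - E n = (E k - E n) + d (r k) := by rw [hEs]; abel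
      rw [e]
      have h1 := pn_add_le h.p0 h.p1.le ((hES k).sub h.p0 h.p1.le (hES n)) (hdS (r k))
      have h2 := hdp (r k)
      have h3 := mul_le_mul_of_nonneg_left (hrn k) (by linarith : (0:ℝ) ≤ KK p + 1)
      have h4 : (1 / 2 : ℝ) ^ (k + 1) = (1 / 2) ^ k * (1 / 2) := pow_succ _ _
      rw [h4]
      linarith
  obtain ⟨d', hd'S, hd'⟩ := complete_lp h.p0 h.p1.le hES
    (fun n => 2 * (KK p + 1) * ‖f‖ * (1 / 2) ^ n) (fun n k hk => by
      have := hdiff n k hk
      have h2 : 0 ≤ 2 * (KK p + 1) * ‖f‖ * (1 / 2) ^ k := by positivity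
      linarith)
  refine ⟨d', hd'S, ?_, ?_⟩
  · have hlim1 : Tendsto (fun n => Q (atm δ) (E n)) atTop (𝓝 f) := by
      simp_rw [hEQ]
      have h1 : Tendsto r atTop (𝓝 0) := by
        rw [tendsto_zero_iff_norm_tendsto_zero]
        refine squeeze_zero (fun _ => norm_nonneg _) hrn ?_
        have := (tendsto_pow_atTop_nhds_zero_of_lt_one (r := (1/2 : ℝ)) (by norm_num)
          (by norm_num)).mul_const ‖f‖
        simpa using this
      simpa using h1.const_sub f
    have hlim2 : Tendsto (fun n => Q (atm δ) (E n)) atTop (𝓝 (Q (atm δ) d')) := by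
      rw [tendsto_iff_norm_sub_tendsto_zero]
      have h1 : ∀ n, ‖Q (atm δ) (E n) - Q (atm δ) d'‖ ≤
          2 * (KK p + 1) * ‖f‖ * (1 / 2) ^ n := by
        intro n
        rw [← h.atoms.Q_sub (hES n) hd'S]
        refine (h.atoms.norm_Q_le ((hES n).sub h.p0 h.p1.le hd'S)).trans ?_
        have e : E n - d' = -(d' - E n) := by abel
        rw [e, pn_neg]
        exact hd' n
      refine squeeze_zero (fun _ => norm_nonneg _) h1 ?_
      have := (tendsto_pow_atTop_nhds_zero_of_lt_one (r := (1/2 : ℝ)) (by norm_num)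
          (by norm_num)).const_mul (2 * (KK p + 1) * ‖f‖)
      simpa using this
    exact tendsto_nhds_unique hlim2 hlim1
  · have := hd' 0
    simpa [hE] using this

end

end Pool.Agent.H59.Schur
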