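import Pool.Agent.H59.SchurRamp

/-!
The key property of the dyadic synthesis operator, where `p < 1` is used.
-/

set_option autoImplicit false
set_option linter.unusedSectionVars false

namespace Pool.Agent.H59.Schur

open Filter Topology

lemma abs_sum_rpow_le {p : ℝ} (hp0 : 0 < p) (hp1 : p ≤ 1) {D : Type*} (s : Finset D) (x : D → ℝ) :
    |∑ J ∈ s, x J| ^ p ≤ ∑ J ∈ s, |x J| ^ p := by
  classical
  induction s using Finset.induction_on with
  | empty => simp [Real.zero_rpow hp0.ne']
  | insert a s ha ih =>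
    rw [Finset.sum_insert ha, Finset.sum_insert ha]
    exact (abs_add_rpow hp0 hp1 _ _).trans (by linarith)

lemma abs_rpow_le_of_hasSum {p : ℝ} (hp0 : 0 < p) (hp1 : p ≤ 1) {D : Type*} {x : D → ℝ} {s : ℝ}
    (hx : HasSum x s) {g : D → ℝ} (hg : Summable g) (hxg : ∀ J, |x J| ^ p ≤ g J) :
    |s| ^ p ≤ ∑' J, g J := by
  have h1 : Tendsto (fun t : Finset D => |∑ J ∈ t, x J| ^ p) atTop (𝓝 (|s| ^ p)) :=
    (Filter.Tendsto.abs hx).rpow_const (Or.inr hp0.le)
  refine le_of_tendsto' h1 (fun t => ?_)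
  refine (abs_sum_rpow_le hp0 hp1 t x).trans ?_
  refine (Finset.sum_le_sum (fun J _ => hxg J)).trans ?_
  exact hg.sum_le_tsum t (fun J _ => (Real.rpow_nonneg (abs_nonneg _) _).trans (hxg J))

lemma sum_pairs (f : ℕ → ℝ) (n : ℕ) :
    ∑ i ∈ Finset.range (2 * n), f i = ∑ i ∈ Finset.range n, (f (2 * i) + f (2 * i + 1)) := by
  induction n with
  | zero => simp
  | succ n ih =>
    rw [mul_add, mul_one, Finset.sum_range_succ, Finset.sum_range_succ, Finset.sum_range_succ, ih]
    ring

section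

variable {p : ℝ} {F : Type*} [NormedAddCommGroup F] [Module ℝ F] [CompleteSpace F]
  [ContinuousSMul ℝ F] {δ : unitInterval → F}

lemma Q_hasSum (h : Free p δ) {b : ℕ × ℕ → ℝ} (hb : S p b) :
    HasSum (fun K => b K • atm δ K) (Q (atm δ) b) := (h.atoms.summable hb).hasSum

lemma lam_Q (h : Free p δ) (J : ℕ × ℕ) {b : ℕ × ℕ → ℝ} (hb : S p b) :
    HasSum (fun K => b K * lam h J (atm δ K)) (lam h J (Q (atm δ) b)) := by
  have h1 := (Q_hasSum h hb).map (lam h J) (lam_continuous h J)
  convert h1 using 1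
  ext K
  simp

lemma lam_split (h : Free p δ) (k i : ℕ) (v : F) :
    lam h (k, i) v = lam h (k+1, 2*i) v + lam h (k+1, 2*i+1) v := by
  obtain ⟨b, hb, rfl, -⟩ := onto h v
  have h1 := lam_Q h (k, i) hb
  have h2 := (lam_Q h (k+1, 2*i) hb).add (lam_Q h (k+1, 2*i+1) hb)
  refine h1.unique ?_
  convert h2 using 1
  ext ⟨l, j⟩
  rcases lt_or_ge j (2 ^ l) with hj | hj
  · rw [lam_atm h _ l j hj, lam_atm h _ l j hj, lam_atm h _ l j hj, ramp_split k i, ramp_split k i]
    ring
  · rw [atm_zero l j hj]; simp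

/-- Upper bound for the `p`-variation at level `k`. -/
lemma variation_bound (h : Free p δ) (k : ℕ) {b : ℕ × ℕ → ℝ} (hb : S p b) :
    ∑ i ∈ Finset.range (2 ^ k), |lam h (k, i) (Q (atm δ) b)| ^ p ≤
      pn p b + ∑ K ∈ Finset.range k ×ˢ Finset.range (2 ^ k), 2 ^ k * |b K| ^ p := by
  classical
  have hterm : ∀ i, ∀ K, |b K * lam h (k, i) (atm δ K)| ^ p =
      |b K| ^ p * |lam h (k, i) (atm δ K)| ^ p := fun i K => by
    rw [abs_mul, Real.mul_rpow (abs_nonneg _) (abs_nonneg _)]
  have hle1 : ∀ i K, |lam h (k, i) (atm δ K)| ^ p ≤ 1 := fun i K => by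
    apply Real.rpow_le_one (abs_nonneg _) _ h.p0.le
    rw [abs_of_nonneg (lam_atm_nonneg h _ _)]
    exact lam_atm_le_one h _ _
  have hsum : ∀ i, Summable (fun K => |b K| ^ p * |lam h (k, i) (atm δ K)| ^ p) := fun i =>
    Summable.of_nonneg_of_le (fun K => mul_nonneg (Real.rpow_nonneg (abs_nonneg _) _)
      (Real.rpow_nonneg (abs_nonneg _) _))
      (fun K => mul_le_of_le_one_right (Real.rpow_nonneg (abs_nonneg _) _) (hle1 i K)) hb
  have h1 : ∀ i ∈ Finset.range (2 ^ k), |lam h (k, i) (Q (atm δ) b)| ^ p ≤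
      ∑' K, |b K| ^ p * |lam h (k, i) (atm δ K)| ^ p := fun i _ =>
    abs_rpow_le_of_hasSum h.p0 h.p1.le (lam_Q h (k, i) hb) (hsum i) (fun K => (hterm i K).le)
  refine (Finset.sum_le_sum h1).trans ?_
  rw [← Summable.tsum_finsetSum (fun i _ => hsum i)]
  set T : Finset (ℕ × ℕ) := Finset.range k ×ˢ Finset.range (2 ^ k) with hT
  have hfin : ∑ K ∈ T, 2 ^ k * |b K| ^ p = ∑' K, (if K ∈ T then 2 ^ k * |b K| ^ p else 0) := by
    rw [tsum_eq_sum (s := T)]
    · exact Finset.sum_congr rfl (fun K hK => by rw [if_pos hK])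
    · intro K hK
      rw [if_neg hK]
  have hfs : Summable (fun K => if K ∈ T then 2 ^ k * |b K| ^ p else 0) :=
    summable_of_ne_finset_zero (s := T) (fun K hK => by rw [if_neg hK])
  rw [hfin, pn, ← Summable.tsum_add hb hfs]
  apply Summable.tsum_le_tsum _ (summable_sum (fun i _ => hsum i)) (Summable.add hb hfs)
  intro K
  obtain ⟨l, j⟩ := K
  have hb0 : 0 ≤ |b (l, j)| ^ p := Real.rpow_nonneg (abs_nonneg _) _
  rw [← Finset.mul_sum]
  rcases lt_or_ge j (2 ^ l) with hj | hj
  · rcases le_or_gt k l with hkl | hlk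
    · have h2 : ∑ i ∈ Finset.range (2 ^ k), |lam h (k, i) (atm δ (l, j))| ^ p ≤ 1 := by
        have h3 : ∀ i ∈ Finset.range (2 ^ k), |lam h (k, i) (atm δ (l, j))| ^ p =
            if i = j / 2 ^ (l - k) then 1 else 0 := by
          intro i _
          rw [lam_atm_eq h hkl i j hj]
          split_ifs
          · simp
          · simp [Real.zero_rpow h.p0.ne']
        rw [Finset.sum_congr rfl h3, Finset.sum_ite_eq']
        split_ifs <;> norm_num
      have h4 : 0 ≤ (if (l, j) ∈ T then 2 ^ k * |b (l, j)| ^ p else 0) := by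
        split_ifs
        · positivity
        · exact le_rfl
      nlinarith
    · have hmem : (l, j) ∈ T := by
        rw [hT, Finset.mem_product, Finset.mem_range, Finset.mem_range]
        exact ⟨hlk, lt_of_lt_of_le hj (Nat.pow_le_pow_right (by norm_num) hlk.le)⟩
      rw [if_pos hmem]
      have h2 : ∑ i ∈ Finset.range (2 ^ k), |lam h (k, i) (atm δ (l, j))| ^ p ≤ 2 ^ k := by
        calc _ ≤ ∑ i ∈ Finset.range (2 ^ k), (1 : ℝ) := Finset.sum_le_sum (fun i _ => hle1 i _)
          _ = 2 ^ k := by simp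
      nlinarith
  · have h2 : ∑ i ∈ Finset.range (2 ^ k), |lam h (k, i) (atm δ (l, j))| ^ p = 0 := by
      apply Finset.sum_eq_zero
      intro i _
      rw [atm_zero l j hj, map_zero, abs_zero, Real.zero_rpow h.p0.ne']
    rw [h2, mul_zero]
    split_ifs
    · positivity
    · linarith

/-- The functionals at level `k` are uniformly small on a fixed vector. -/
lemma lam_small (h : Free p δ) (z : F) : ∃ η : ℕ → ℝ, Tendsto η atTop (𝓝 0) ∧
    ∀ k i, |lam h (k, i) z| ^ p ≤ η k := by
  obtain ⟨b, hb, rfl, -⟩ := onto h z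
  set w : ℕ → ℕ × ℕ → ℝ := fun k K => (min 1 ((2:ℝ) ^ K.1 / 2 ^ k)) ^ p with hw
  have hw0 : ∀ k K, 0 ≤ w k K := fun k K =>
    Real.rpow_nonneg (le_min zero_le_one (by positivity)) _
  have hw1 : ∀ k K, w k K ≤ 1 := fun k K =>
    Real.rpow_le_one (le_min zero_le_one (by positivity)) (min_le_left _ _) h.p0.le
  refine ⟨fun k => ∑' K, |b K| ^ p * w k K, ?_, ?_⟩
  · have h1 : Tendsto (fun k => ∑' K, |b K| ^ p * w k K) atTop (𝓝 (∑' K : ℕ × ℕ, (0 : ℝ))) := by
      apply tendsto_tsum_of_dominated_convergence (bound := fun K => |b K| ^ p) hb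
      · intro K
        have h2 : Tendsto (fun k : ℕ => (2:ℝ) ^ K.1 / 2 ^ k) atTop (𝓝 0) := by
          have h3 : Tendsto (fun k : ℕ => (2:ℝ) ^ K.1 * (1 / 2) ^ k) atTop (𝓝 (2 ^ K.1 * 0)) :=
            (tendsto_pow_atTop_nhds_zero_of_lt_one (by norm_num) (by norm_num)).const_mul _
          rw [mul_zero] at h3
          refine h3.congr (fun k => ?_)
          rw [one_div_pow]; ring
        have h4 : Tendsto (fun k : ℕ => w k K) atTop (𝓝 0) := by
          have h5 : Tendsto (fun k : ℕ => min 1 ((2:ℝ) ^ K.1 / 2 ^ k)) atTop (𝓝 (min 1 0)) :=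
            tendsto_const_nhds.min h2
          rw [min_eq_right zero_le_one] at h5
          have h6 := h5.rpow_const (p := p) (Or.inr h.p0.le)
          rwa [Real.zero_rpow h.p0.ne'] at h6
        have := h4.const_mul (|b K| ^ p)
        rwa [mul_zero] at this
      · refine Eventually.of_forall (fun k K => ?_)
        rw [Real.norm_eq_abs, abs_of_nonneg (mul_nonneg (Real.rpow_nonneg (abs_nonneg _) _) (hw0 k K))]
        exact mul_le_of_le_one_right (Real.rpow_nonneg (abs_nonneg _) _) (hw1 k K)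
    simpa using h1
  · intro k i
    apply abs_rpow_le_of_hasSum h.p0 h.p1.le (lam_Q h (k, i) hb)
    · exact Summable.of_nonneg_of_le (fun K => mul_nonneg (Real.rpow_nonneg (abs_nonneg _) _) (hw0 k K))
        (fun K => mul_le_of_le_one_right (Real.rpow_nonneg (abs_nonneg _) _) (hw1 k K)) hb
    · intro K
      rw [abs_mul, Real.mul_rpow (abs_nonneg _) (abs_nonneg _)]
      apply mul_le_mul_of_nonneg_left _ (Real.rpow_nonneg (abs_nonneg _) _)
      apply Real.rpow_le_rpow (abs_nonneg _) _ h.p0.le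
      rw [abs_of_nonneg (lam_atm_nonneg h _ _)]
      exact le_min (lam_atm_le_one h _ _) (lam_atm_le h k i K.1 K.2)

/-- A vector of bounded `p`-variation is annihilated by all functionals (this uses `p < 1`). -/
lemma lam_eq_zero (h : Free p δ) (z : F) (C : ℝ)
    (hC : ∀ k, ∑ i ∈ Finset.range (2 ^ k), |lam h (k, i) z| ^ p ≤ C) (k i : ℕ) (hi : i < 2 ^ k) :
    lam h (k, i) z = 0 := by
  obtain ⟨η, hη, hηb⟩ := lam_small h z
  have hq : 0 < (1 - p) / p := div_pos (by linarith [h.p1]) h.p0
  have hC0 : 0 ≤ C := (Finset.sum_nonneg (fun i _ => Real.rpow_nonneg (abs_nonneg _) _)).trans (hC 0)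
  set V : ℕ → ℝ := fun k => ∑ i ∈ Finset.range (2 ^ k), |lam h (k, i) z| with hV
  have hVmono : Monotone V := by
    apply monotone_nat_of_le_succ
    intro k
    simp only [hV]
    rw [pow_succ', sum_pairs]
    apply Finset.sum_le_sum
    intro i _
    rw [lam_split h k i]
    exact abs_add_le _ _
  have hVle : ∀ k, V k ≤ (η k) ^ ((1 - p) / p) * C := by
    intro k
    simp only [hV]
    calc ∑ i ∈ Finset.range (2 ^ k), |lam h (k, i) z|
        ≤ ∑ i ∈ Finset.range (2 ^ k), (η k) ^ ((1 - p) / p) * |lam h (k, i) z| ^ p := by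
          apply Finset.sum_le_sum
          intro i _
          rcases (abs_nonneg (lam h (k, i) z)).eq_or_lt with h0 | h0
          · rw [← h0, Real.zero_rpow h.p0.ne', mul_zero]
          · have h1 : |lam h (k, i) z| = (|lam h (k, i) z| ^ p) ^ ((1 - p) / p) *
                |lam h (k, i) z| ^ p := by
              rw [← Real.rpow_mul h0.le, ← Real.rpow_add h0]
              have : p * ((1 - p) / p) + p = 1 := by
                have := h.p0.ne'
                field_simp
                ring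
              rw [this, Real.rpow_one]
            calc |lam h (k, i) z| = (|lam h (k, i) z| ^ p) ^ ((1 - p) / p) *
                  |lam h (k, i) z| ^ p := h1
              _ ≤ _ := by
                apply mul_le_mul_of_nonneg_right _ (Real.rpow_nonneg (abs_nonneg _) _)
                exact Real.rpow_le_rpow (Real.rpow_nonneg (abs_nonneg _) _) (hηb k i) hq.le
      _ = (η k) ^ ((1 - p) / p) * ∑ i ∈ Finset.range (2 ^ k), |lam h (k, i) z| ^ p := by
          rw [Finset.mul_sum]
      _ ≤ _ := by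
          apply mul_le_mul_of_nonneg_left (hC k)
          exact Real.rpow_nonneg ((Real.rpow_nonneg (abs_nonneg _) _).trans (hηb k 0)) _
  have hlim : Tendsto (fun k => (η k) ^ ((1 - p) / p) * C) atTop (𝓝 0) := by
    have h1 := (hη.rpow_const (p := (1 - p) / p) (Or.inr hq.le)).mul_const C
    rwa [Real.zero_rpow hq.ne', zero_mul] at h1
  have hVk : V k ≤ 0 := by
    apply ge_of_tendsto hlim
    filter_upwards [eventually_ge_atTop k] with k' hk'
    exact (hVmono hk').trans (hVle k')
  have h1 : |lam h (k, i) z| ≤ V k :=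
    Finset.single_le_sum (f := fun i => |lam h (k, i) z|) (fun _ _ => abs_nonneg _)
      (Finset.mem_range.2 hi)
  exact abs_nonpos_iff.1 (h1.trans hVk)

/-- The functionals separate points. -/
lemma eq_zero_of_lam (h : Free p δ) (z : F) (hz : ∀ k i, i < 2 ^ k → lam h (k, i) z = 0) :
    z = 0 := by
  classical
  have hE : ∀ k, EE h k z = 0 := by
    intro k
    rw [EE_apply]
    apply Finset.sum_eq_zero
    intro i hi
    rw [hz k i (Finset.mem_range.1 hi), zero_smul]
  obtain ⟨b, hb, hbz, -⟩ := onto h z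
  set w : ℕ → ℕ × ℕ → ℝ := fun k K => if K.1 ≤ k then 0 else 2 with hw
  have hw0 : ∀ k K, 0 ≤ w k K := fun k K => by simp only [hw]; split_ifs <;> norm_num
  have hw2 : ∀ k K, w k K ≤ 2 := fun k K => by simp only [hw]; split_ifs <;> norm_num
  have hsum : ∀ k, Summable (fun K => |b K| ^ p * w k K) := fun k =>
    Summable.of_nonneg_of_le (fun K => mul_nonneg (Real.rpow_nonneg (abs_nonneg _) _) (hw0 k K))
      (fun K => mul_le_mul_of_nonneg_left (hw2 k K) (Real.rpow_nonneg (abs_nonneg _) _))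
      (Summable.mul_right 2 hb)
  have hnorm : ∀ k, ‖z‖ ≤ ∑' K, |b K| ^ p * w k K := by
    intro k
    have h1 := Q_hasSum h hb
    rw [hbz] at h1
    have h2 := h1.sub (h1.map (EE h k) (EE_continuous h k))
    rw [hE k, sub_zero] at h2
    have h3 : ‖∑' K, (b K • atm δ K - (EE h k ∘ fun K => b K • atm δ K) K)‖ ≤
        ∑' K, |b K| ^ p * w k K := by
      apply tsum_of_norm_bounded (hsum k).hasSum
      intro K
      obtain ⟨l, j⟩ := K
      simp only [Function.comp_apply, map_smul]
      rw [← smul_sub, h.hs]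
      apply mul_le_mul_of_nonneg_left _ (Real.rpow_nonneg (abs_nonneg _) _)
      simp only [hw]
      split_ifs with hl
      · rw [EE_fix h hl, sub_self, norm_zero]
      · refine (norm_sub_le _ _).trans ?_
        have := atm_norm h (l, j)
        have := EE_atm_norm h k l j
        linarith
    rwa [h2.tsum_eq] at h3
  have hlim : Tendsto (fun k => ∑' K, |b K| ^ p * w k K) atTop (𝓝 (∑' K : ℕ × ℕ, (0 : ℝ))) := by
    apply tendsto_tsum_of_dominated_convergence (bound := fun K => |b K| ^ p * 2)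
      (Summable.mul_right 2 hb)
    · intro K
      apply tendsto_const_nhds.congr'
      filter_upwards [eventually_ge_atTop K.1] with k hk
      simp only [hw]
      rw [if_pos hk, mul_zero]
    · refine Eventually.of_forall (fun k K => ?_)
      rw [Real.norm_eq_abs, abs_of_nonneg (mul_nonneg (Real.rpow_nonneg (abs_nonneg _) _) (hw0 k K))]
      exact mul_le_mul_of_nonneg_left (hw2 k K) (Real.rpow_nonneg (abs_nonneg _) _)
  rw [tsum_zero] at hlim
  have : ‖z‖ ≤ 0 := ge_of_tendsto' hlim hnorm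
  exact norm_le_zero_iff.1 this

/-- The key property. -/
lemma key (h : Free p δ) : Key p (atm δ) := by
  intro b b' w' C hS hC hlim hQ
  obtain ⟨hS', hC'⟩ := fatou h.p0 hS hC hlim
  have hC0 : 0 ≤ C := (pn_nonneg _).trans (hC 0)
  set z : F := w' - Q (atm δ) b' with hz
  have hβS : ∀ n, S p (b n - b') := fun n => (hS n).sub h.p0 h.p1.le hS'
  have hβC : ∀ n, pn p (b n - b') ≤ 2 * C := fun n =>
    (pn_sub_le h.p0 h.p1.le (hS n) hS').trans (by linarith [hC n])
  have hβQ : Tendsto (fun n => Q (atm δ) (b n - b')) atTop (𝓝 z) := by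
    simp_rw [fun n => h.atoms.Q_sub (hS n) hS']
    exact hQ.sub_const _
  have hvar : ∀ k, ∑ i ∈ Finset.range (2 ^ k), |lam h (k, i) z| ^ p ≤ 2 * C := by
    intro k
    have h1 : Tendsto (fun n => ∑ i ∈ Finset.range (2 ^ k), |lam h (k, i) (Q (atm δ) (b n - b'))| ^ p)
        atTop (𝓝 (∑ i ∈ Finset.range (2 ^ k), |lam h (k, i) z| ^ p)) :=
      tendsto_finsetSum _ (fun i _ =>
        ((((lam_continuous h (k, i)).tendsto z).comp hβQ).abs.rpow_const (Or.inr h.p0.le)))
    have h2 : Tendsto (fun n => 2 * C + ∑ K ∈ Finset.range k ×ˢ Finset.range (2 ^ k),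
        2 ^ k * |(b n - b') K| ^ p) atTop (𝓝 (2 * C + ∑ K ∈ Finset.range k ×ˢ Finset.range (2 ^ k),
        2 ^ k * 0)) := by
      apply Tendsto.const_add
      apply tendsto_finsetSum
      intro K _
      apply Tendsto.const_mul
      have h3 : Tendsto (fun n => |b n K - b' K| ^ p) atTop (𝓝 (|b' K - b' K| ^ p)) :=
        ((hlim K).sub_const _).abs.rpow_const (Or.inr h.p0.le)
      rw [sub_self, abs_zero, Real.zero_rpow h.p0.ne'] at h3
      exact h3
    simp only [mul_zero, Finset.sum_const_zero, add_zero] at h2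
    refine le_of_tendsto_of_tendsto' h1 h2 (fun n => ?_)
    exact (variation_bound h k (hβS n)).trans (by linarith [hβC n])
  have hz0 : z = 0 := eq_zero_of_lam h z (fun k i hi => lam_eq_zero h z (2 * C) hvar k i hi)
  rw [hz, sub_eq_zero] at hz0
  exact hz0.symm

end

end Pool.Agent.H59.Schur
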