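import Pool.Agent.H59.SchurAbs

/-!
The dyadic atoms of the unit interval and the surjectivity of the synthesis operator.
-/

set_option autoImplicit false
set_option linter.unusedSectionVars false

namespace Pool.Agent.H59.Schur

open Filter Topology

/-- Completeness of `ℓ_p`. -/
lemma complete_lp {p : ℝ} {D : Type*} [Countable D] (hp0 : 0 < p) (hp1 : p ≤ 1) {d : ℕ → D → ℝ}
    (hS : ∀ n, S p (d n)) (ε : ℕ → ℝ) (h : ∀ n, ∀ k ≥ n, pn p (d k - d n) ≤ ε n) :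
    ∃ d' : D → ℝ, S p d' ∧ ∀ n, pn p (d' - d n) ≤ ε n := by
  have hb : ∀ n, pn p (d n) ≤ pn p (d 0) + ε 0 := by
    intro n
    have h1 := h 0 n (Nat.zero_le _)
    have h2 := pn_add_le hp0 hp1 (hS 0) ((hS n).sub hp0 hp1 (hS 0))
    rw [add_sub_cancel] at h2
    linarith
  obtain ⟨d', φ, hφ, hlim⟩ := exists_subseq hp0 hS hb
  obtain ⟨hS', -⟩ := fatou hp0 (fun n => hS (φ n)) (fun n => hb (φ n)) hlim
  refine ⟨d', hS', fun n => ?_⟩
  have h1 : ∀ k, S p (d (φ (k + n)) - d n) := fun k => (hS _).sub hp0 hp1 (hS _)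
  have h2 : ∀ k, pn p (d (φ (k + n)) - d n) ≤ ε n := fun k =>
    h n _ ((Nat.le_add_left n k).trans (hφ.id_le _))
  have h3 : ∀ J, Tendsto (fun k => (d (φ (k + n)) - d n) J) atTop (𝓝 ((d' - d n) J)) := fun J =>
    ((hlim J).comp (tendsto_add_atTop_nat n)).sub_const _
  exact (fatou hp0 h1 h2 h3).2

section

variable {p : ℝ} {F : Type*} [NormedAddCommGroup F] [Module ℝ F]

/-- The free space hypotheses in terms of the translation invariant metric `‖·‖ = N ^ p`. -/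
structure Free (p : ℝ) (δ : unitInterval → F) : Prop where
  p0 : 0 < p
  p1 : p < 1
  hs : ∀ (a : ℝ) (x : F), ‖a • x‖ = |a| ^ p * ‖x‖
  hδ : ∀ x y, ‖δ x - δ y‖ = |(x : ℝ) - y| ^ p
  hfun : ∀ (f : ℝ → ℝ), (∀ x y, |f x - f y| ≤ |x - y|) →
    ∃ T : F →ₗ[ℝ] ℝ, (∀ x y : unitInterval, T (δ x - δ y) = f x - f y) ∧ ∀ v, |T v| ^ p ≤ ‖v‖
  hgauge : ∀ (G : F → ℝ) (R K : ℝ), (∀ f, ‖f‖ ≤ G f) → (∀ f, G f ≤ R * ‖f‖) →
    (∀ (a : ℝ) f, G (a • f) = |a| ^ p * G f) → (∀ f g, G (f + g) ≤ G f + G g) →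
    0 ≤ K → (∀ x y, G (δ x - δ y) ≤ K * |(x : ℝ) - y| ^ p) → ∀ f, G f ≤ K * ‖f‖

variable {δ : unitInterval → F}

/-- Extension of `δ` to the line by clamping. -/
noncomputable def dd (δ : unitInterval → F) (x : ℝ) : F := δ (Set.projIcc 0 1 zero_le_one x)

/-- The dyadic atoms. -/
noncomputable def atm (δ : unitInterval → F) (J : ℕ × ℕ) : F :=
  (2 : ℝ) ^ J.1 • (dd δ (((J.2 : ℝ) + 1) / 2 ^ J.1) - dd δ ((J.2 : ℝ) / 2 ^ J.1))

lemma dd_norm (h : Free p δ) (x y : ℝ) : ‖dd δ x - dd δ y‖ ≤ |x - y| ^ p := by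
  rw [dd, dd, h.hδ]
  apply Real.rpow_le_rpow (abs_nonneg _) _ h.p0.le
  exact Set.abs_projIcc_sub_projIcc zero_le_one

lemma atm_norm (h : Free p δ) (J : ℕ × ℕ) : ‖atm δ J‖ ≤ 1 := by
  rw [atm, h.hs]
  have h1 := dd_norm h (((J.2 : ℝ) + 1) / 2 ^ J.1) ((J.2 : ℝ) / 2 ^ J.1)
  have h2 : ((J.2 : ℝ) + 1) / 2 ^ J.1 - (J.2 : ℝ) / 2 ^ J.1 = 1 / 2 ^ J.1 := by ring
  rw [h2] at h1
  have hpos : (0 : ℝ) < 2 ^ J.1 := by positivity
  calc |(2 : ℝ) ^ J.1| ^ p * ‖dd δ (((J.2 : ℝ) + 1) / 2 ^ J.1) - dd δ ((J.2 : ℝ) / 2 ^ J.1)‖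
      ≤ |(2 : ℝ) ^ J.1| ^ p * |1 / 2 ^ J.1| ^ p :=
        mul_le_mul_of_nonneg_left h1 (Real.rpow_nonneg (abs_nonneg _) _)
    _ = 1 := by
        rw [← Real.mul_rpow (abs_nonneg _) (abs_nonneg _), ← abs_mul, mul_one_div,
          div_self hpos.ne', abs_one, Real.one_rpow]

lemma Free.atoms (h : Free p δ) : Atoms p (atm δ) := ⟨h.p0, h.p1.le, h.hs, atm_norm h⟩

variable [CompleteSpace F] [ContinuousSMul ℝ F]

/-- Representation of a sum along an injective sequence of atoms. -/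
lemma rep_seq (h : Free p δ) (J : ℕ → ℕ × ℕ) (hJ : Function.Injective J) (c : ℕ → ℝ)
    (hc : Summable (fun n => |c n| ^ p)) :
    ∃ d : ℕ × ℕ → ℝ, S p d ∧ Q (atm δ) d = ∑' n, c n • atm δ (J n) ∧
      pn p d ≤ ∑' n, |c n| ^ p := by
  refine ⟨Function.extend J c 0, ?_, ?_, ?_⟩
  · have h1 : (fun K => |Function.extend J c 0 K| ^ p) = Function.extend J (fun n => |c n| ^ p) 0 := by
      ext K
      by_cases hK : ∃ n, J n = K
      · obtain ⟨n, rfl⟩ := hK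
        rw [hJ.extend_apply, hJ.extend_apply]
      · rw [Function.extend_apply' _ _ _ hK, Function.extend_apply' _ _ _ hK]
        simp [Real.zero_rpow h.p0.ne']
    unfold S
    rw [h1]
    exact (Function.Injective.summable_iff hJ (fun K hK => by
      rw [Function.extend_apply' _ _ _ (by simpa using hK)]; rfl)).1 (by
        convert hc using 1
        ext n
        simp [hJ.extend_apply])
  · unfold Q
    have h1 : (fun K => Function.extend J c 0 K • atm δ K) =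
        Function.extend J (fun n => c n • atm δ (J n)) 0 := by
      ext K
      by_cases hK : ∃ n, J n = K
      · obtain ⟨n, rfl⟩ := hK
        rw [hJ.extend_apply, hJ.extend_apply]
      · rw [Function.extend_apply' _ _ _ hK, Function.extend_apply' _ _ _ hK]
        simp
    rw [h1, tsum_extend_zero hJ]
  · unfold pn
    have h1 : (fun K => |Function.extend J c 0 K| ^ p) = Function.extend J (fun n => |c n| ^ p) 0 := by
      ext K
      by_cases hK : ∃ n, J n = K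
      · obtain ⟨n, rfl⟩ := hK
        rw [hJ.extend_apply, hJ.extend_apply]
      · rw [Function.extend_apply' _ _ _ hK, Function.extend_apply' _ _ _ hK]
        simp [Real.zero_rpow h.p0.ne']
    rw [h1, tsum_extend_zero hJ]

lemma rep_single (h : Free p δ) (J : ℕ × ℕ) (c : ℝ) :
    ∃ d : ℕ × ℕ → ℝ, S p d ∧ Q (atm δ) d = c • atm δ J ∧ pn p d ≤ |c| ^ p := by
  classical
  refine ⟨Pi.single J c, ?_, ?_, ?_⟩
  · apply summable_of_ne_finset_zero (s := {J})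
    intro K hK
    rw [Pi.single_eq_of_ne (by simpa using hK), abs_zero, Real.zero_rpow h.p0.ne']
  · unfold Q
    rw [tsum_eq_single J, Pi.single_eq_same]
    intro K hK
    rw [Pi.single_eq_of_ne hK, zero_smul]
  · unfold pn
    rw [tsum_eq_single J, Pi.single_eq_same]
    intro K hK
    rw [Pi.single_eq_of_ne hK, abs_zero, Real.zero_rpow h.p0.ne']

/-- The geometric constant. -/
noncomputable def geo (p : ℝ) : ℝ := ∑' n : ℕ, ((1 / 2 : ℝ) ^ (n + 1)) ^ p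

lemma geo_summable (hp0 : 0 < p) : Summable (fun n : ℕ => ((1 / 2 : ℝ) ^ (n + 1)) ^ p) := by
  have h1 : (fun n : ℕ => ((1 / 2 : ℝ) ^ (n + 1)) ^ p) =
      fun n : ℕ => ((1 / 2 : ℝ) ^ p) ^ (n + 1) := by
    ext n
    rw [← Real.rpow_natCast, ← Real.rpow_natCast, ← Real.rpow_mul (by norm_num),
      ← Real.rpow_mul (by norm_num), mul_comm]
  rw [h1]
  apply (summable_nat_add_iff 1).2
  apply summable_geometric_of_lt_one (Real.rpow_nonneg (by norm_num) _)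
  exact Real.rpow_lt_one (by norm_num) (by norm_num) hp0

lemma geo_nonneg : 0 ≤ geo p := tsum_nonneg (fun _ => Real.rpow_nonneg (by positivity) _)

lemma floor_step (x : ℝ) (hx : 0 ≤ x) (k : ℕ) :
    ⌊(2 : ℝ) ^ (k + 1) * x⌋₊ = 2 * ⌊(2 : ℝ) ^ k * x⌋₊ ∨
      ⌊(2 : ℝ) ^ (k + 1) * x⌋₊ = 2 * ⌊(2 : ℝ) ^ k * x⌋₊ + 1 := by
  have h0 : 0 ≤ (2 : ℝ) ^ k * x := by positivity
  have h0' : 0 ≤ (2 : ℝ) ^ (k + 1) * x := by positivity
  have h1 := Nat.floor_le h0
  have h2 := Nat.lt_floor_add_one ((2 : ℝ) ^ k * x)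
  have e : (2 : ℝ) ^ (k + 1) * x = 2 * ((2 : ℝ) ^ k * x) := by ring
  have h3 : 2 * ⌊(2 : ℝ) ^ k * x⌋₊ ≤ ⌊(2 : ℝ) ^ (k + 1) * x⌋₊ := by
    apply Nat.le_floor
    push_cast
    rw [e]; linarith
  have h4 : ⌊(2 : ℝ) ^ (k + 1) * x⌋₊ < 2 * ⌊(2 : ℝ) ^ k * x⌋₊ + 2 := by
    rw [Nat.floor_lt h0']
    push_cast
    rw [e]; linarith
  omega

/-- Representation of `δ x` relative to its dyadic approximation from the left. -/
lemma rep_point (h : Free p δ) (x : ℝ) (hx0 : 0 ≤ x) (k₀ : ℕ) :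
    ∃ d : ℕ × ℕ → ℝ, S p d ∧ Q (atm δ) d = dd δ x - dd δ ((⌊(2 : ℝ) ^ k₀ * x⌋₊ : ℝ) / 2 ^ k₀) ∧
      pn p d ≤ geo p * ((1 / 2 : ℝ) ^ k₀) ^ p := by
  set fl : ℕ → ℕ := fun n => ⌊(2 : ℝ) ^ (k₀ + n) * x⌋₊ with hfl
  set c : ℕ → ℝ := fun n => ((fl (n+1) : ℝ) - 2 * fl n) / 2 ^ (k₀ + n + 1) with hc
  set J : ℕ → ℕ × ℕ := fun n => (k₀ + n + 1, 2 * fl n) with hJ
  have hJinj : Function.Injective J := by
    intro a b hab
    have := congrArg Prod.fst hab
    simp only [hJ] at this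
    omega
  have hstep : ∀ n, fl (n+1) = 2 * fl n ∨ fl (n+1) = 2 * fl n + 1 := fun n =>
    floor_step x hx0 (k₀ + n)
  have hcb : ∀ n, |c n| ^ p ≤ ((1 / 2 : ℝ) ^ k₀) ^ p * ((1 / 2 : ℝ) ^ (n + 1)) ^ p := by
    intro n
    rw [← Real.mul_rpow (by positivity) (by positivity)]
    apply Real.rpow_le_rpow (abs_nonneg _) _ h.p0.le
    have e : (1 / 2 : ℝ) ^ k₀ * (1 / 2 : ℝ) ^ (n + 1) = 1 / 2 ^ (k₀ + n + 1) := by
      rw [← pow_add, one_div_pow, add_assoc]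
    rw [e]
    simp only [hc]
    rw [abs_div, abs_of_pos (by positivity : (0:ℝ) < 2 ^ (k₀ + n + 1))]
    apply div_le_div_of_nonneg_right _ (by positivity)
    rcases hstep n with h1 | h1 <;> rw [h1] <;> push_cast <;> simp
  have hcs : Summable (fun n => |c n| ^ p) :=
    Summable.of_nonneg_of_le (fun n => Real.rpow_nonneg (abs_nonneg _) _) hcb
      ((geo_summable h.p0).mul_left _)
  obtain ⟨d, hd1, hd2, hd3⟩ := rep_seq h J hJinj c hcs
  refine ⟨d, hd1, ?_, hd3.trans ?_⟩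
  · rw [hd2]
    -- telescoping
    have hterm : ∀ n, c n • atm δ (J n) =
        dd δ ((fl (n+1) : ℝ) / 2 ^ (k₀ + (n + 1))) - dd δ ((fl n : ℝ) / 2 ^ (k₀ + n)) := by
      intro n
      have hpos : (2 : ℝ) ^ (k₀ + n + 1) ≠ 0 := by positivity
      rcases hstep n with h1 | h1
      · have h2 : c n = 0 := by simp only [hc, h1]; push_cast; simp
        have h3 : ((fl (n+1) : ℝ) / 2 ^ (k₀ + (n + 1))) = ((fl n : ℝ) / 2 ^ (k₀ + n)) := by
          rw [h1, ← add_assoc, pow_succ]; push_cast; field_simp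
        rw [h2, h3, zero_smul, sub_self]
      · have h2 : c n = 1 / 2 ^ (k₀ + n + 1) := by
          simp only [hc, h1]; push_cast; ring
        have h3 : ((fl n : ℝ) / 2 ^ (k₀ + n)) = ((2 * fl n : ℕ) : ℝ) / 2 ^ (k₀ + n + 1) := by
          rw [pow_succ]; push_cast; field_simp
        rw [h2, h3, h1, atm, smul_smul, one_div, inv_mul_cancel₀ hpos, one_smul, ← add_assoc]
        simp only [hJ]
        push_cast
        rfl
    have hsum : Summable (fun n => c n • atm δ (J n)) :=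
      Summable.of_norm_bounded hcs (fun n => by
        rw [h.hs]
        calc |c n| ^ p * ‖atm δ (J n)‖ ≤ |c n| ^ p * 1 :=
              mul_le_mul_of_nonneg_left (atm_norm h _) (Real.rpow_nonneg (abs_nonneg _) _)
          _ = _ := mul_one _)
    have h1 := hsum.hasSum.tendsto_sum_nat
    have h2 : ∀ N, ∑ n ∈ Finset.range N, c n • atm δ (J n) =
        dd δ ((fl N : ℝ) / 2 ^ (k₀ + N)) - dd δ ((fl 0 : ℝ) / 2 ^ (k₀ + 0)) := by
      intro N
      rw [Finset.sum_congr rfl (fun n _ => hterm n)]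
      exact Finset.sum_range_sub (fun n => dd δ ((fl n : ℝ) / 2 ^ (k₀ + n))) N
    have h3 : Tendsto (fun N => dd δ ((fl N : ℝ) / 2 ^ (k₀ + N)) - dd δ ((fl 0 : ℝ) / 2 ^ (k₀ + 0)))
        atTop (𝓝 (dd δ x - dd δ ((fl 0 : ℝ) / 2 ^ (k₀ + 0)))) := by
      apply Tendsto.sub_const
      rw [tendsto_iff_norm_sub_tendsto_zero]
      have hb : ∀ N, ‖dd δ ((fl N : ℝ) / 2 ^ (k₀ + N)) - dd δ x‖ ≤ ((1 / 2 : ℝ) ^ N) ^ p := by
        intro N
        refine (dd_norm h _ _).trans ?_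
        apply Real.rpow_le_rpow (abs_nonneg _) _ h.p0.le
        have hp2 : (0:ℝ) < 2 ^ (k₀ + N) := by positivity
        have h4 := Nat.floor_le (show 0 ≤ (2:ℝ) ^ (k₀ + N) * x by positivity)
        have h5 := Nat.lt_floor_add_one ((2:ℝ) ^ (k₀ + N) * x)
        have h6 : (fl N : ℝ) / 2 ^ (k₀ + N) - x = ((fl N : ℝ) - 2 ^ (k₀ + N) * x) / 2 ^ (k₀ + N) := by
          field_simp
        rw [h6, abs_div, abs_of_pos hp2]
        have h7 : |(fl N : ℝ) - 2 ^ (k₀ + N) * x| ≤ 1 := by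
          rw [abs_le]; constructor <;> simp only [hfl] <;> linarith
        calc _ ≤ 1 / (2:ℝ) ^ (k₀ + N) := div_le_div_of_nonneg_right h7 hp2.le
          _ ≤ 1 / (2:ℝ) ^ N := by
              apply one_div_le_one_div_of_le (by positivity)
              exact pow_le_pow_right₀ (by norm_num) (by omega)
          _ = _ := by rw [one_div_pow]
      have hlim : Tendsto (fun N : ℕ => ((1 / 2 : ℝ) ^ N) ^ p) atTop (𝓝 0) := by
        have h4 : Tendsto (fun N : ℕ => (1 / 2 : ℝ) ^ N) atTop (𝓝 0) :=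
          tendsto_pow_atTop_nhds_zero_of_lt_one (by norm_num) (by norm_num)
        have h5 := h4.rpow_const (p := p) (Or.inr h.p0.le)
        rwa [Real.zero_rpow h.p0.ne'] at h5
      exact squeeze_zero (fun _ => norm_nonneg _) hb hlim
    simp_rw [h2] at h1
    have := tendsto_nhds_unique h1 h3
    rw [this]
    simp only [hfl, add_zero]
  · calc ∑' n, |c n| ^ p ≤ ∑' n : ℕ, ((1 / 2 : ℝ) ^ k₀) ^ p * ((1 / 2 : ℝ) ^ (n + 1)) ^ p :=
          Summable.tsum_le_tsum hcb hcs ((geo_summable h.p0).mul_left _)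
      _ = _ := by rw [tsum_mul_left, mul_comm]; rfl

/-- The Lipschitz constant of the dyadic representation. -/
noncomputable def KK (p : ℝ) : ℝ := 2 ^ p * (2 * geo p + 1)

lemma KK_pos : 0 < KK p := by
  have := geo_nonneg (p := p)
  unfold KK
  have h2 : (0:ℝ) < 2 ^ p := Real.rpow_pos_of_pos (by norm_num) _
  positivity

lemma rep_lt (h : Free p δ) {x y : ℝ} (hx0 : 0 ≤ x) (hy1 : y ≤ 1) (hxy : x < y) :
    ∃ d : ℕ × ℕ → ℝ, S p d ∧ Q (atm δ) d = dd δ y - dd δ x ∧ pn p d ≤ KK p * |y - x| ^ p := by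
  obtain ⟨k, hk1, hk2⟩ := exists_nat_pow_near_of_lt_one (x := y - x) (y := (1 / 2 : ℝ))
    (by linarith) (by linarith) (by norm_num) (by norm_num)
  obtain ⟨d₁, h11, h12, h13⟩ := rep_point h x hx0 k
  obtain ⟨d₂, h21, h22, h23⟩ := rep_point h y (hx0.trans hxy.le) k
  set a := ⌊(2 : ℝ) ^ k * x⌋₊ with ha
  set b := ⌊(2 : ℝ) ^ k * y⌋₊ with hb
  have hpos : (0:ℝ) < 2 ^ k := by positivity
  have hle : (2:ℝ) ^ k * y ≤ 2 ^ k * x + 1 := by
    have : (2:ℝ) ^ k * (y - x) ≤ 2 ^ k * (1 / 2) ^ k := mul_le_mul_of_nonneg_left hk2 hpos.le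
    rw [one_div_pow, mul_one_div, div_self hpos.ne'] at this
    linarith
  have hab : a ≤ b := Nat.floor_le_floor (mul_le_mul_of_nonneg_left hxy.le hpos.le)
  have hba : b < a + 2 := by
    rw [hb, Nat.floor_lt (mul_nonneg hpos.le (hx0.trans hxy.le))]
    have := Nat.lt_floor_add_one ((2 : ℝ) ^ k * x)
    push_cast
    linarith
  obtain ⟨d₃, h31, h32, h33⟩ := rep_single h (k, a) (((b : ℝ) - a) / 2 ^ k)
  have hmid : (((b : ℝ) - a) / 2 ^ k) • atm δ (k, a) = dd δ ((b : ℝ) / 2 ^ k) - dd δ ((a : ℝ) / 2 ^ k) := by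
    rcases (by omega : b = a ∨ b = a + 1) with e | e
    · rw [e]; simp
    · rw [e, atm, smul_smul]
      push_cast
      rw [add_sub_cancel_left, one_div, inv_mul_cancel₀ hpos.ne', one_smul]
  refine ⟨d₂ - d₁ + d₃, ((h21.sub h.p0 h.p1.le h11).add h.p0 h.p1.le h31), ?_, ?_⟩
  · rw [h.atoms.Q_add (h21.sub h.p0 h.p1.le h11) h31, h.atoms.Q_sub h21 h11, h12, h22, h32, hmid]
    abel
  · have h1 := pn_add_le h.p0 h.p1.le (h21.sub h.p0 h.p1.le h11) h31
    have h2 := pn_sub_le h.p0 h.p1.le h21 h11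
    have h3 : |((b : ℝ) - a) / 2 ^ k| ^ p ≤ ((1 / 2 : ℝ) ^ k) ^ p := by
      apply Real.rpow_le_rpow (abs_nonneg _) _ h.p0.le
      rw [abs_div, abs_of_pos hpos, one_div_pow]
      apply div_le_div_of_nonneg_right _ hpos.le
      rcases (by omega : b = a ∨ b = a + 1) with e | e
      · rw [e]; simp
      · rw [e]; push_cast; simp
    have h4 : ((1 / 2 : ℝ) ^ k) ^ p ≤ 2 ^ p * |y - x| ^ p := by
      rw [← Real.mul_rpow (by norm_num) (abs_nonneg _)]
      apply Real.rpow_le_rpow (by positivity) _ h.p0.le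
      rw [abs_of_pos (by linarith)]
      rw [pow_succ] at hk1
      linarith
    have hg := geo_nonneg (p := p)
    have h5 : (2 * geo p + 1) * ((1 / 2 : ℝ) ^ k) ^ p ≤ (2 * geo p + 1) * (2 ^ p * |y - x| ^ p) :=
      mul_le_mul_of_nonneg_left h4 (by linarith)
    calc pn p (d₂ - d₁ + d₃) ≤ (2 * geo p + 1) * ((1 / 2 : ℝ) ^ k) ^ p := by linarith
      _ ≤ _ := h5
      _ = _ := by unfold KK; ring

lemma rep_pair (h : Free p δ) (x y : unitInterval) :
    ∃ d : ℕ × ℕ → ℝ, S p d ∧ Q (atm δ) d = δ x - δ y ∧ pn p d ≤ KK p * |(x : ℝ) - y| ^ p := by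
  have e : ∀ z : unitInterval, dd δ (z : ℝ) = δ z := fun z => by
    rw [dd, Set.projIcc_of_mem zero_le_one z.2]
  rcases lt_trichotomy (x : ℝ) y with hlt | heq | hgt
  · obtain ⟨d, h1, h2, h3⟩ := rep_lt h x.2.1 y.2.2 hlt
    refine ⟨-d, h1.neg, ?_, ?_⟩
    · have := Q_smul (m := atm δ) (-1) d
      rw [neg_one_smul, neg_one_smul, h2, e, e, neg_sub] at this
      exact this
    · rw [pn_neg, abs_sub_comm]; exact h3
  · refine ⟨0, S_zero h.p0, ?_, ?_⟩
    · have : x = y := Subtype.ext heq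
      rw [this, sub_self]
      unfold Q
      simp
    · rw [pn_zero h.p0]
      exact mul_nonneg KK_pos.le (Real.rpow_nonneg (abs_nonneg _) _)
  · obtain ⟨d, h1, h2, h3⟩ := rep_lt h y.2.1 x.2.2 hgt
    rw [e, e] at h2
    exact ⟨d, h1, h2, h3⟩

end

end Pool.Agent.H59.Schur
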