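import Pool.Agent.H59.SchurGauge

/-!
The functionals `∫_J` on the free space and their values on the dyadic atoms.
-/

set_option autoImplicit false
set_option linter.unusedSectionVars false

namespace Pool.Agent.H59.Schur

open Filter Topology

/-- The ramp attached to a dyadic interval. -/
noncomputable def ramp (J : ℕ × ℕ) (x : ℝ) : ℝ :=
  max 0 (min (x - (J.2 : ℝ) / 2 ^ J.1) (1 / 2 ^ J.1))

lemma ramp_lip (J : ℕ × ℕ) (x y : ℝ) : |ramp J x - ramp J y| ≤ |x - y| := by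
  unfold ramp
  set c : ℝ := (J.2 : ℝ) / 2 ^ J.1
  set d : ℝ := 1 / 2 ^ J.1
  have h1 := abs_max_sub_max_le_max (0 : ℝ) (min (x - c) d) 0 (min (y - c) d)
  have h2 := abs_min_sub_min_le_max (x - c) d (y - c) d
  rw [sub_self, abs_zero] at h1
  rw [sub_self, abs_zero, sub_sub_sub_cancel_right] at h2
  exact h1.trans (max_le (abs_nonneg _) (h2.trans (max_le le_rfl (abs_nonneg _))))

lemma ramp_mono (J : ℕ × ℕ) : Monotone (ramp J) := by
  intro x y hxy
  unfold ramp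
  exact max_le_max le_rfl (min_le_min (by linarith) le_rfl)

lemma ramp_nonneg (J : ℕ × ℕ) (x : ℝ) : 0 ≤ ramp J x := le_max_left _ _

lemma ramp_le (J : ℕ × ℕ) (x : ℝ) : ramp J x ≤ 1 / 2 ^ J.1 :=
  max_le (by positivity) (min_le_right _ _)

lemma ramp_of_le (J : ℕ × ℕ) {x : ℝ} (h : x ≤ (J.2 : ℝ) / 2 ^ J.1) : ramp J x = 0 := by
  unfold ramp
  exact max_eq_left ((min_le_left _ _).trans (by linarith))

lemma ramp_of_ge (J : ℕ × ℕ) {x : ℝ} (h : ((J.2 : ℝ) + 1) / 2 ^ J.1 ≤ x) :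
    ramp J x = 1 / 2 ^ J.1 := by
  unfold ramp
  have h1 : ((J.2 : ℝ) + 1) / 2 ^ J.1 = (J.2 : ℝ) / 2 ^ J.1 + 1 / 2 ^ J.1 := by ring
  rw [h1] at h
  rw [min_eq_right (by linarith), max_eq_right (by positivity)]

lemma ramp_mid (J : ℕ × ℕ) {x : ℝ} (h : (J.2 : ℝ) / 2 ^ J.1 ≤ x)
    (h' : x ≤ ((J.2 : ℝ) + 1) / 2 ^ J.1) : ramp J x = x - (J.2 : ℝ) / 2 ^ J.1 := by
  unfold ramp
  have h1 : ((J.2 : ℝ) + 1) / 2 ^ J.1 = (J.2 : ℝ) / 2 ^ J.1 + 1 / 2 ^ J.1 := by ring
  rw [h1] at h'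
  rw [min_eq_left (by linarith), max_eq_right (by linarith)]

lemma ramp_split (k i : ℕ) (x : ℝ) :
    ramp (k, i) x = ramp (k+1, 2*i) x + ramp (k+1, 2*i+1) x := by
  have hp : (0 : ℝ) < 2 ^ k := by positivity
  have e1 : (((2 * i : ℕ) : ℝ)) / 2 ^ (k+1) = (i : ℝ) / 2 ^ k := by
    rw [pow_succ]; push_cast; field_simp
  have e2 : (((2 * i : ℕ) : ℝ) + 1) / 2 ^ (k+1) = (i : ℝ) / 2 ^ k + 1 / 2 ^ (k+1) := by
    rw [add_div, e1]
  have e3 : (((2 * i + 1 : ℕ) : ℝ)) / 2 ^ (k+1) = (i : ℝ) / 2 ^ k + 1 / 2 ^ (k+1) := by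
    rw [← e2]; push_cast; rfl
  have e4 : (((2 * i + 1 : ℕ) : ℝ) + 1) / 2 ^ (k+1) = ((i : ℝ) + 1) / 2 ^ k := by
    rw [pow_succ]; push_cast; field_simp; ring
  have e5 : ((i : ℝ) + 1) / 2 ^ k = (i : ℝ) / 2 ^ k + 1 / 2 ^ k := by ring
  have e6 : (1 : ℝ) / 2 ^ k = 1 / 2 ^ (k+1) + 1 / 2 ^ (k+1) := by
    rw [pow_succ]; field_simp; norm_num
  have hp1 : (0 : ℝ) < 1 / 2 ^ (k+1) := by positivity
  rcases le_total x ((i : ℝ) / 2 ^ k) with h1 | h1
  · rw [ramp_of_le (k, i) h1, ramp_of_le (k+1, 2*i) (by simpa only [e1] using h1),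
      ramp_of_le (k+1, 2*i+1) (by simp only [e3]; linarith), add_zero]
  rcases le_total x ((i : ℝ) / 2 ^ k + 1 / 2 ^ (k+1)) with h2 | h2
  · rw [ramp_mid (k, i) h1 (by simp only [e5]; linarith),
      ramp_mid (k+1, 2*i) (by simpa only [e1] using h1) (by simpa only [e2] using h2),
      ramp_of_le (k+1, 2*i+1) (by simpa only [e3] using h2), add_zero]
    simp only [e1]
  rcases le_total x (((i : ℝ) + 1) / 2 ^ k) with h3 | h3
  · rw [ramp_mid (k, i) h1 h3, ramp_of_ge (k+1, 2*i) (by simpa only [e2] using h2),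
      ramp_mid (k+1, 2*i+1) (by simpa only [e3] using h2) (by simpa only [e4] using h3)]
    simp only [e3]
    ring
  · rw [ramp_of_ge (k, i) h3, ramp_of_ge (k+1, 2*i) (by simp only [e2]; linarith),
      ramp_of_ge (k+1, 2*i+1) (by simpa only [e4] using h3)]
    exact e6

lemma ramp_grid (k i t : ℕ) : ramp (k, i) ((t : ℝ) / 2 ^ k) = if i < t then 1 / 2 ^ k else 0 := by
  have hp : (0 : ℝ) < 2 ^ k := by positivity
  split_ifs with h
  · apply ramp_of_ge
    apply div_le_div_of_nonneg_right _ hp.le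
    exact_mod_cast h
  · apply ramp_of_le
    apply div_le_div_of_nonneg_right _ hp.le
    exact_mod_cast not_lt.1 h

/-- Increment of a coarse ramp along a fine dyadic interval. -/
lemma ramp_incr {k l : ℕ} (hkl : k ≤ l) (i j : ℕ) :
    2 ^ l * (ramp (k, i) (((j : ℝ) + 1) / 2 ^ l) - ramp (k, i) ((j : ℝ) / 2 ^ l)) =
      if i = j / 2 ^ (l - k) then 1 else 0 := by
  obtain ⟨s, rfl⟩ := Nat.exists_eq_add_of_le hkl
  rw [Nat.add_sub_cancel_left]
  have hk : (0 : ℝ) < 2 ^ k := by positivity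
  have hs : (0 : ℝ) < 2 ^ s := by positivity
  have hks : (0 : ℝ) < 2 ^ (k + s) := by positivity
  have hsN : 0 < 2 ^ s := by positivity
  have e1 : ∀ a : ℝ, a / 2 ^ k = (a * 2 ^ s) / 2 ^ (k + s) := by
    intro a; rw [pow_add]; field_simp
  split_ifs with h
  · have h1 : i * 2 ^ s ≤ j := by rw [h]; exact Nat.div_mul_le_self j (2 ^ s)
    have h2 : j + 1 ≤ (i + 1) * 2 ^ s := by
      rw [h]
      have h2' := Nat.lt_mul_of_div_lt (Nat.lt_succ_self (j / 2 ^ s)) hsN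
      exact h2'
    have h1' : (i : ℝ) * 2 ^ s ≤ j := by exact_mod_cast h1
    have h2' : (j : ℝ) + 1 ≤ ((i : ℝ) + 1) * 2 ^ s := by exact_mod_cast h2
    rw [ramp_mid (k, i), ramp_mid (k, i)]
    · field_simp; ring
    · simp only; rw [e1]; exact div_le_div_of_nonneg_right h1' hks.le
    · simp only; rw [e1]; exact div_le_div_of_nonneg_right (by linarith) hks.le
    · simp only; rw [e1]; exact div_le_div_of_nonneg_right (by linarith) hks.le
    · simp only; rw [e1]; exact div_le_div_of_nonneg_right h2' hks.le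
  · rcases lt_or_gt_of_ne h with h1 | h1
    · -- `i < j / 2^s`
      have h2 : (i + 1) * 2 ^ s ≤ j :=
        (Nat.mul_le_mul_right _ h1).trans (Nat.div_mul_le_self j (2 ^ s))
      have h2' : ((i : ℝ) + 1) * 2 ^ s ≤ j := by exact_mod_cast h2
      rw [ramp_of_ge (k, i), ramp_of_ge (k, i)]
      · simp
      · simp only; rw [e1]; exact div_le_div_of_nonneg_right h2' hks.le
      · simp only; rw [e1]; exact div_le_div_of_nonneg_right (by linarith) hks.le
    · -- `j / 2^s < i`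
      have h2 : j + 1 ≤ i * 2 ^ s := (Nat.div_lt_iff_lt_mul hsN).1 h1
      have h2' : (j : ℝ) + 1 ≤ (i : ℝ) * 2 ^ s := by exact_mod_cast h2
      rw [ramp_of_le (k, i), ramp_of_le (k, i)]
      · simp
      · simp only; rw [e1]; exact div_le_div_of_nonneg_right (by linarith) hks.le
      · simp only; rw [e1]; exact div_le_div_of_nonneg_right h2' hks.le

section

variable {p : ℝ} {F : Type*} [NormedAddCommGroup F] [Module ℝ F] [CompleteSpace F]
  [ContinuousSMul ℝ F] {δ : unitInterval → F}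

/-- The functional `∫_J`. -/
noncomputable def lam (h : Free p δ) (J : ℕ × ℕ) : F →ₗ[ℝ] ℝ :=
  Classical.choose (h.hfun (ramp J) (ramp_lip J))

lemma lam_delta (h : Free p δ) (J : ℕ × ℕ) (x y : unitInterval) :
    lam h J (δ x - δ y) = ramp J x - ramp J y :=
  (Classical.choose_spec (h.hfun (ramp J) (ramp_lip J))).1 x y

lemma lam_bound (h : Free p δ) (J : ℕ × ℕ) (v : F) : |lam h J v| ^ p ≤ ‖v‖ :=
  (Classical.choose_spec (h.hfun (ramp J) (ramp_lip J))).2 v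

lemma lam_continuous (h : Free p δ) (J : ℕ × ℕ) : Continuous (lam h J) := by
  apply continuous_of_continuousAt_zero (lam h J)
  rw [ContinuousAt, map_zero, tendsto_zero_iff_abs_tendsto_zero]
  have h1 : ∀ v, |lam h J v| ≤ ‖v‖ ^ (1 / p) := by
    intro v
    have h2 := Real.rpow_le_rpow (z := 1 / p) (Real.rpow_nonneg (abs_nonneg _) _)
      (lam_bound h J v) (by have := h.p0; positivity)
    rwa [← Real.rpow_mul (abs_nonneg _), mul_one_div, div_self h.p0.ne', Real.rpow_one] at h2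
  have h2 : Tendsto (fun v : F => ‖v‖ ^ (1 / p)) (𝓝 0) (𝓝 0) := by
    have h3 : Tendsto (fun v : F => ‖v‖) (𝓝 0) (𝓝 0) := tendsto_norm_zero
    have h4 := h3.rpow_const (p := 1 / p) (Or.inr (by have := h.p0; positivity))
    rwa [Real.zero_rpow (by have := h.p0; positivity)] at h4
  exact squeeze_zero (fun _ => abs_nonneg _) h1 h2

lemma lam_dd (h : Free p δ) (J : ℕ × ℕ) {x y : ℝ} (hx : x ∈ Set.Icc (0:ℝ) 1)
    (hy : y ∈ Set.Icc (0:ℝ) 1) : lam h J (dd δ x - dd δ y) = ramp J x - ramp J y := by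
  rw [dd, dd, lam_delta, Set.projIcc_of_mem zero_le_one hx, Set.projIcc_of_mem zero_le_one hy]

lemma atm_zero (l j : ℕ) (hj : 2 ^ l ≤ j) : atm δ (l, j) = 0 := by
  have hp : (0 : ℝ) < 2 ^ l := by positivity
  have h1 : (1 : ℝ) ≤ (j : ℝ) / 2 ^ l := by
    rw [le_div_iff₀ hp, one_mul]; exact_mod_cast hj
  have h2 : (1 : ℝ) ≤ ((j : ℝ) + 1) / 2 ^ l := h1.trans (by
    apply div_le_div_of_nonneg_right _ hp.le; linarith)
  simp only [atm, dd]
  rw [Set.projIcc_of_right_le zero_le_one h1, Set.projIcc_of_right_le zero_le_one h2, sub_self,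
    smul_zero]

lemma grid_mem {l t : ℕ} (ht : t ≤ 2 ^ l) : (t : ℝ) / 2 ^ l ∈ Set.Icc (0:ℝ) 1 := by
  have hp : (0 : ℝ) < 2 ^ l := by positivity
  refine ⟨by positivity, ?_⟩
  rw [div_le_one hp]
  exact_mod_cast ht

lemma lam_atm (h : Free p δ) (J : ℕ × ℕ) (l j : ℕ) (hj : j < 2 ^ l) :
    lam h J (atm δ (l, j)) =
      2 ^ l * (ramp J (((j : ℝ) + 1) / 2 ^ l) - ramp J ((j : ℝ) / 2 ^ l)) := by
  have h1 := grid_mem (l := l) (t := j + 1) hj
  push_cast at h1
  rw [atm, map_smul, lam_dd h J h1 (grid_mem hj.le), smul_eq_mul]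

lemma lam_atm_nonneg (h : Free p δ) (J K : ℕ × ℕ) : 0 ≤ lam h J (atm δ K) := by
  obtain ⟨l, j⟩ := K
  rcases lt_or_ge j (2 ^ l) with hj | hj
  · rw [lam_atm h J l j hj]
    apply mul_nonneg (by positivity)
    rw [sub_nonneg]
    apply ramp_mono
    apply div_le_div_of_nonneg_right _ (by positivity); linarith
  · rw [atm_zero l j hj, map_zero]

lemma lam_atm_le_one (h : Free p δ) (J K : ℕ × ℕ) : lam h J (atm δ K) ≤ 1 := by
  obtain ⟨l, j⟩ := K
  rcases lt_or_ge j (2 ^ l) with hj | hj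
  · rw [lam_atm h J l j hj]
    have hp : (0 : ℝ) < 2 ^ l := by positivity
    have h1 := (le_abs_self _).trans (ramp_lip J (((j : ℝ) + 1) / 2 ^ l) ((j : ℝ) / 2 ^ l))
    have h2 : ((j : ℝ) + 1) / 2 ^ l - (j : ℝ) / 2 ^ l = 1 / 2 ^ l := by ring
    rw [h2, abs_of_pos (by positivity)] at h1
    calc _ ≤ (2 : ℝ) ^ l * (1 / 2 ^ l) := mul_le_mul_of_nonneg_left h1 hp.le
      _ = 1 := by field_simp
  · rw [atm_zero l j hj, map_zero]; exact zero_le_one

lemma lam_atm_le (h : Free p δ) (k i l j : ℕ) : lam h (k, i) (atm δ (l, j)) ≤ 2 ^ l / 2 ^ k := by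
  rcases lt_or_ge j (2 ^ l) with hj | hj
  · rw [lam_atm h _ l j hj]
    have h1 := ramp_le (k, i) (((j : ℝ) + 1) / 2 ^ l)
    have h2 := ramp_nonneg (k, i) ((j : ℝ) / 2 ^ l)
    simp only at h1
    calc _ ≤ (2 : ℝ) ^ l * (1 / 2 ^ k) := mul_le_mul_of_nonneg_left (by linarith) (by positivity)
      _ = _ := by ring
  · rw [atm_zero l j hj, map_zero]; positivity

lemma lam_atm_eq (h : Free p δ) {k l : ℕ} (hkl : k ≤ l) (i j : ℕ) (hj : j < 2 ^ l) :
    lam h (k, i) (atm δ (l, j)) = if i = j / 2 ^ (l - k) then 1 else 0 := by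
  rw [lam_atm h _ l j hj, ramp_incr hkl]

/-- The averaging operators. -/
noncomputable def EE (h : Free p δ) (k : ℕ) : F →ₗ[ℝ] F :=
  ∑ i ∈ Finset.range (2 ^ k), (lam h (k, i)).smulRight (atm δ (k, i))

lemma EE_apply (h : Free p δ) (k : ℕ) (v : F) :
    EE h k v = ∑ i ∈ Finset.range (2 ^ k), lam h (k, i) v • atm δ (k, i) := by
  simp [EE]

lemma EE_continuous (h : Free p δ) (k : ℕ) : Continuous (EE h k) := by
  have : (EE h k : F → F) = fun v => ∑ i ∈ Finset.range (2 ^ k), lam h (k, i) v • atm δ (k, i) := by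
    ext v; exact EE_apply h k v
  rw [this]
  exact continuous_finsetSum _ (fun i _ => (lam_continuous h _).smul continuous_const)

lemma EE_grid (h : Free p δ) {k t : ℕ} (ht : t ≤ 2 ^ k) :
    EE h k (dd δ ((t : ℝ) / 2 ^ k) - dd δ 0) = dd δ ((t : ℝ) / 2 ^ k) - dd δ 0 := by
  have hp : (0 : ℝ) < 2 ^ k := by positivity
  rw [EE_apply]
  have h1 : ∀ i ∈ Finset.range (2 ^ k), lam h (k, i) (dd δ ((t : ℝ) / 2 ^ k) - dd δ 0) •
      atm δ (k, i) = if i < t then (dd δ (((i + 1 : ℕ) : ℝ) / 2 ^ k) - dd δ ((i : ℝ) / 2 ^ k)) else 0 := by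
    intro i _
    rw [lam_dd h _ (grid_mem ht) ⟨le_rfl, zero_le_one⟩, ramp_grid,
      ramp_of_le (k, i) (x := 0) (by positivity), sub_zero]
    split_ifs with hi
    · rw [atm, smul_smul, one_div, inv_mul_cancel₀ hp.ne', one_smul]
      push_cast; rfl
    · rw [zero_smul]
  rw [Finset.sum_congr rfl h1, ← Finset.sum_filter]
  have h2 : (Finset.range (2 ^ k)).filter (· < t) = Finset.range t := by
    ext i
    simp only [Finset.mem_filter, Finset.mem_range]
    constructor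
    · exact fun h => h.2
    · exact fun h => ⟨lt_of_lt_of_le h ht, h⟩
  rw [h2, Finset.sum_range_sub (fun i : ℕ => dd δ ((i : ℝ) / 2 ^ k))]
  simp

lemma EE_fix (h : Free p δ) {k l : ℕ} (hlk : l ≤ k) (j : ℕ) :
    EE h k (atm δ (l, j)) = atm δ (l, j) := by
  rcases lt_or_ge j (2 ^ l) with hj | hj
  · obtain ⟨s, rfl⟩ := Nat.exists_eq_add_of_le hlk
    have e1 : ∀ a : ℕ, (a : ℝ) / 2 ^ l = ((a * 2 ^ s : ℕ) : ℝ) / 2 ^ (l + s) := by
      intro a; rw [pow_add]; push_cast; field_simp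
    have h1 : atm δ (l, j) = (2 : ℝ) ^ l • ((dd δ (((j + 1 : ℕ) : ℝ) / 2 ^ l) - dd δ 0) -
        (dd δ ((j : ℝ) / 2 ^ l) - dd δ 0)) := by
      rw [atm, sub_sub_sub_cancel_right]; push_cast; rfl
    have hle1 : (j + 1) * 2 ^ s ≤ 2 ^ (l + s) := by
      rw [pow_add]; exact Nat.mul_le_mul_right _ hj
    have hle2 : j * 2 ^ s ≤ 2 ^ (l + s) := by
      rw [pow_add]; exact Nat.mul_le_mul_right _ hj.le
    rw [h1, map_smul, map_sub, e1 (j+1), e1 j, EE_grid h hle1, EE_grid h hle2]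
  · rw [atm_zero l j hj, map_zero]

lemma EE_atm_norm (h : Free p δ) (k l j : ℕ) : ‖EE h k (atm δ (l, j))‖ ≤ 1 := by
  rcases le_total l k with hlk | hkl
  · rw [EE_fix h hlk]; exact atm_norm h _
  · rcases lt_or_ge j (2 ^ l) with hj | hj
    · rw [EE_apply]
      have h1 : ∀ i ∈ Finset.range (2 ^ k), lam h (k, i) (atm δ (l, j)) • atm δ (k, i) =
          if i = j / 2 ^ (l - k) then atm δ (k, i) else 0 := by
        intro i _
        rw [lam_atm_eq h hkl i j hj]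
        split_ifs <;> simp
      rw [Finset.sum_congr rfl h1, Finset.sum_ite_eq']
      split_ifs
      · exact atm_norm h _
      · simp
    · rw [atm_zero l j hj, map_zero, norm_zero]; exact zero_le_one

end

end Pool.Agent.H59.Schur
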