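import Mathlib

open MeasureTheory Set Filter Topology
open scoped ContDiff

namespace H59.Wave

/-- `L²(ℝ)`. -/
abbrev L2 : Type := Lp ℝ 2 (volume : Measure ℝ)

/-- Test functions on the line: smooth with compact support. -/
def IsTest (φ : ℝ → ℝ) : Prop := ContDiff ℝ ∞ φ ∧ HasCompactSupport φ

/-- `f'` is the weak (distributional) derivative of `f`. -/
def IsWeakDeriv (f f' : L2) : Prop :=
  ∀ φ : ℝ → ℝ, IsTest φ → ∫ x, f x * deriv φ x = - ∫ x, f' x * φ x

/-- `f` is even (almost everywhere). -/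
def IsEven (f : L2) : Prop := ∀ᵐ x : ℝ, f (-x) = f x

theorem IsTest.integrable_mul {φ : ℝ → ℝ} (hφ : IsTest φ) (f : L2) :
    Integrable (fun x => f x * φ x) :=
  MemLp.integrable_mul (p := 2) (q := 2) (Lp.memLp f)
    (hφ.1.continuous.memLp_of_hasCompactSupport hφ.2)

theorem IsTest.deriv {φ : ℝ → ℝ} (hφ : IsTest φ) : IsTest (deriv φ) :=
  ⟨(contDiff_infty_iff_deriv.1 hφ.1).2, hφ.2.deriv⟩

theorem isWeakDeriv_add {f f' g g' : L2} (h₁ : IsWeakDeriv f f') (h₂ : IsWeakDeriv g g') :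
    IsWeakDeriv (f + g) (f' + g') := by
  intro φ hφ
  have e1 : ∫ x, (f + g : L2) x * deriv φ x = ∫ x, (f x * deriv φ x + g x * deriv φ x) := by
    refine integral_congr_ae ?_
    filter_upwards [Lp.coeFn_add f g] with x hx
    rw [hx, Pi.add_apply, add_mul]
  have e2 : ∫ x, (f' + g' : L2) x * φ x = ∫ x, (f' x * φ x + g' x * φ x) := by
    refine integral_congr_ae ?_
    filter_upwards [Lp.coeFn_add f' g'] with x hx
    rw [hx, Pi.add_apply, add_mul]
  rw [e1, e2, integral_add (hφ.deriv.integrable_mul f) (hφ.deriv.integrable_mul g),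
    integral_add (hφ.integrable_mul f') (hφ.integrable_mul g'), h₁ φ hφ, h₂ φ hφ]
  ring

theorem isWeakDeriv_smul (c : ℝ) {f f' : L2} (h : IsWeakDeriv f f') :
    IsWeakDeriv (c • f) (c • f') := by
  intro φ hφ
  have e1 : ∫ x, (c • f : L2) x * deriv φ x = ∫ x, c * (f x * deriv φ x) := by
    refine integral_congr_ae ?_
    filter_upwards [Lp.coeFn_smul c f] with x hx
    rw [hx, Pi.smul_apply, smul_eq_mul, mul_assoc]
  have e2 : ∫ x, (c • f' : L2) x * φ x = ∫ x, c * (f' x * φ x) := by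
    refine integral_congr_ae ?_
    filter_upwards [Lp.coeFn_smul c f'] with x hx
    rw [hx, Pi.smul_apply, smul_eq_mul, mul_assoc]
  rw [e1, e2, integral_const_mul, integral_const_mul, h φ hφ]
  ring

theorem isWeakDeriv_zero : IsWeakDeriv 0 0 := by
  have := isWeakDeriv_smul (f := 0) (f' := 0) 0
  intro φ hφ
  have e1 : ∫ x, (0 : L2) x * deriv φ x = ∫ x : ℝ, (0 : ℝ) := by
    refine integral_congr_ae ?_
    filter_upwards [Lp.coeFn_zero ℝ 2 (volume : Measure ℝ)] with x hx
    rw [hx, Pi.zero_apply, zero_mul]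
  have e2 : ∫ x, (0 : L2) x * φ x = ∫ x : ℝ, (0 : ℝ) := by
    refine integral_congr_ae ?_
    filter_upwards [Lp.coeFn_zero ℝ 2 (volume : Measure ℝ)] with x hx
    rw [hx, Pi.zero_apply, zero_mul]
  rw [e1, e2]; simp

theorem ae_neg {p : ℝ → Prop} (h : ∀ᵐ x : ℝ, p x) : ∀ᵐ x : ℝ, p (-x) :=
  (Measure.measurePreserving_neg (volume : Measure ℝ)).quasiMeasurePreserving.ae h

theorem isEven_add {f g : L2} (h₁ : IsEven f) (h₂ : IsEven g) : IsEven (f + g) := by
  filter_upwards [h₁, h₂, Lp.coeFn_add f g, ae_neg (Lp.coeFn_add f g)] with x a b c d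
  rw [c, d, Pi.add_apply, Pi.add_apply, a, b]

theorem isEven_smul (c : ℝ) {f : L2} (h : IsEven f) : IsEven (c • f) := by
  filter_upwards [h, Lp.coeFn_smul c f, ae_neg (Lp.coeFn_smul c f)] with x a b d
  rw [b, d, Pi.smul_apply, Pi.smul_apply, a]

theorem isEven_zero : IsEven 0 := by
  filter_upwards [Lp.coeFn_zero ℝ 2 (volume : Measure ℝ),
    ae_neg (Lp.coeFn_zero ℝ 2 (volume : Measure ℝ))] with x a b
  rw [a, b, Pi.zero_apply, Pi.zero_apply]

/-- The profile `g`. -/
noncomputable def g (x : ℝ) : ℝ := if |x| ≤ Real.pi then 4 * Real.cos (x / 2) ^ 2 else 0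

/-- The derivative of the profile. -/
noncomputable def g' (x : ℝ) : ℝ := if |x| ≤ Real.pi then -2 * Real.sin x else 0

theorem g_of_le {x : ℝ} (h : |x| ≤ Real.pi) : g x = 2 + 2 * Real.cos x := by
  rw [g, if_pos h, Real.cos_sq]
  rw [show 2 * (x / 2) = x by ring]
  ring

theorem g_of_ge {x : ℝ} (h : Real.pi ≤ |x|) : g x = 0 := by
  rcases h.eq_or_lt with h | h
  · rw [g_of_le h.symm.le, ← Real.cos_abs, ← h, Real.cos_pi]; ring
  · rw [g, if_neg (not_le.2 h)]

theorem g_nonneg (x : ℝ) : 0 ≤ g x := by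
  rw [g]; split_ifs <;> positivity

theorem g_even (x : ℝ) : g (-x) = g x := by
  rw [g, g, abs_neg]
  rw [show -x / 2 = -(x / 2) by ring, Real.cos_neg]

theorem g_le_four (x : ℝ) : g x ≤ 4 := by
  rw [g]; split_ifs
  · have := Real.cos_sq_le_one (x / 2); linarith
  · norm_num

theorem g_le_sq (x : ℝ) : g x ≤ (|x| - Real.pi) ^ 2 := by
  rcases le_total |x| Real.pi with h | h
  · rw [g, if_pos h, ← Real.cos_abs (x / 2), abs_div, abs_of_pos (by norm_num : (0 : ℝ) < 2),
      ← Real.sin_pi_div_two_sub]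
    have h0 : 0 ≤ Real.pi / 2 - |x| / 2 := by linarith
    have h1 : Real.sin (Real.pi / 2 - |x| / 2) ≤ Real.pi / 2 - |x| / 2 := Real.sin_le h0
    have h2 : 0 ≤ Real.sin (Real.pi / 2 - |x| / 2) :=
      Real.sin_nonneg_of_nonneg_of_le_pi h0 (by linarith [abs_nonneg x, Real.pi_pos])
    nlinarith
  · rw [g_of_ge h]; positivity

theorem g'_of_ge {x : ℝ} (h : Real.pi ≤ |x|) : g' x = 0 := by
  rcases h.eq_or_lt with h | h
  · rw [g', if_pos h.symm.le]
    rcases abs_cases x with ⟨h1, _⟩ | ⟨h1, _⟩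
    · rw [h1] at h; rw [← h, Real.sin_pi]; ring
    · rw [h1] at h
      have : x = -Real.pi := by linarith
      rw [this, Real.sin_neg, Real.sin_pi]; ring
  · rw [g', if_neg (not_le.2 h)]

theorem hasDerivAt_g (x : ℝ) : HasDerivAt g (g' x) x := by
  rcases lt_trichotomy |x| Real.pi with h | h | h
  · rw [g', if_pos h.le]
    have hd : HasDerivAt (fun y : ℝ => 2 + 2 * Real.cos y) (-2 * Real.sin x) x := by
      exact (((Real.hasDerivAt_cos x).const_mul 2).const_add 2).congr_deriv (by ring)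
    refine hd.congr_of_eventuallyEq ?_
    have : ∀ᶠ y in 𝓝 x, |y| < Real.pi := continuous_abs.continuousAt.eventually_lt
      continuousAt_const h
    filter_upwards [this] with y hy
    exact g_of_le hy.le
  · rw [g'_of_ge h.ge, hasDerivAt_iff_tendsto]
    have hb : ∀ y, ‖y - x‖⁻¹ * ‖g y - g x - (y - x) • (0 : ℝ)‖ ≤ ‖y - x‖ := by
      intro y
      rw [g_of_ge h.ge, smul_zero, sub_zero, sub_zero, Real.norm_eq_abs (g y),
        abs_of_nonneg (g_nonneg y)]
      rcases eq_or_ne (y - x) 0 with h0 | h0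
      · rw [h0]; simp
      · have hp : 0 < ‖y - x‖ := norm_pos_iff.2 h0
        rw [inv_mul_le_iff₀ hp]
        refine (g_le_sq y).trans ?_
        rw [← h, Real.norm_eq_abs]
        have := abs_abs_sub_abs_le y x
        have h2 : (|y| - |x|) ^ 2 = |(|y| - |x|)| ^ 2 := (sq_abs _).symm
        rw [h2]
        nlinarith [abs_nonneg (|y| - |x|), abs_nonneg (y - x)]
    refine squeeze_zero (fun y => by positivity) hb ?_
    have : Tendsto (fun y : ℝ => ‖y - x‖) (𝓝 x) (𝓝 ‖x - x‖) :=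
      (continuous_id.sub continuous_const).norm.tendsto x
    simpa using this
  · rw [g'_of_ge h.le]
    refine (hasDerivAt_const x (0 : ℝ)).congr_of_eventuallyEq ?_
    have : ∀ᶠ y in 𝓝 x, Real.pi < |y| := continuousAt_const.eventually_lt
      continuous_abs.continuousAt h
    filter_upwards [this] with y hy
    exact g_of_ge hy.le

theorem continuous_g : Continuous g :=
  continuous_iff_continuousAt.2 fun x => (hasDerivAt_g x).continuousAt

theorem g'_eq (x : ℝ) : g' x = -2 * Real.sin (max (-Real.pi) (min Real.pi x)) := by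
  have hpi := Real.pi_pos
  rcases le_total |x| Real.pi with h | h
  · rw [g', if_pos h]
    obtain ⟨h1, h2⟩ := abs_le.1 h
    rw [min_eq_right h2, max_eq_right h1]
  · rw [g'_of_ge h]
    rcases le_abs'.1 h with h1 | h1
    · rw [min_eq_right (by linarith), max_eq_left h1, Real.sin_neg, Real.sin_pi]; ring
    · rw [min_eq_left h1, max_eq_right (by linarith), Real.sin_pi]; ring

theorem continuous_g' : Continuous g' := by
  have : g' = fun x => -2 * Real.sin (max (-Real.pi) (min Real.pi x)) := funext g'_eq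
  rw [this]
  fun_prop

theorem sq_g'_le (x : ℝ) : g' x ^ 2 ≤ 4 * g x := by
  rcases le_total |x| Real.pi with h | h
  · rw [g', if_pos h, g_of_le h]
    nlinarith [Real.sin_sq_add_cos_sq x, Real.neg_one_le_cos x, Real.cos_le_one x]
  · rw [g'_of_ge h, g_of_ge h]; norm_num

theorem abs_g'_le (x : ℝ) : |g' x| ≤ 4 := by
  have h1 := sq_g'_le x
  have h2 := g_le_four x
  apply abs_le_of_sq_le_sq _ (by norm_num)
  nlinarith

/-- Functions vanishing outside `[-π, π]`. -/
def Sup (f : ℝ → ℝ) : Prop := ∀ x, Real.pi < |x| → f x = 0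

theorem Sup.hasCompactSupport {f : ℝ → ℝ} (h : Sup f) : HasCompactSupport f := by
  refine HasCompactSupport.intro (isCompact_Icc (a := -Real.pi) (b := Real.pi)) fun x hx => h x ?_
  by_contra hc
  exact hx (abs_le.1 (not_lt.1 hc))

theorem Sup.memLp {f : ℝ → ℝ} (h : Sup f) (hc : Continuous f) : MemLp f 2 volume :=
  hc.memLp_of_hasCompactSupport h.hasCompactSupport

theorem sup_g : Sup g := fun _ hx => g_of_ge hx.le

theorem sup_g' : Sup g' := fun _ hx => g'_of_ge hx.le

theorem isWeakDeriv_toLp {a a' : ℝ → ℝ} (ha : MemLp a 2 volume) (ha' : MemLp a' 2 volume)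
    (h : ∀ x, HasDerivAt a (a' x) x) : IsWeakDeriv (ha.toLp a) (ha'.toLp a') := by
  intro φ hφ
  have e1 : ∫ x, (ha.toLp a) x * deriv φ x = ∫ x, a x * deriv φ x := by
    refine integral_congr_ae ?_
    filter_upwards [ha.coeFn_toLp] with x hx
    rw [hx]
  have e2 : ∫ x, (ha'.toLp a') x * φ x = ∫ x, a' x * φ x := by
    refine integral_congr_ae ?_
    filter_upwards [ha'.coeFn_toLp] with x hx
    rw [hx]
  have hφL : MemLp φ 2 volume := hφ.1.continuous.memLp_of_hasCompactSupport hφ.2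
  have hφL' : MemLp (deriv φ) 2 volume :=
    hφ.deriv.1.continuous.memLp_of_hasCompactSupport hφ.deriv.2
  rw [e1, e2]
  refine integral_mul_deriv_eq_deriv_mul_of_integrable (u := a) (v := φ) (fun x _ => h x)
    (fun x _ => ((hφ.1.differentiable (by simp)) x).hasDerivAt) ?_ ?_ ?_
  · exact MemLp.integrable_mul (p := 2) (q := 2) ha hφL'
  · exact MemLp.integrable_mul (p := 2) (q := 2) ha' hφL
  · exact MemLp.integrable_mul (p := 2) (q := 2) ha hφL

theorem isEven_toLp {a : ℝ → ℝ} (ha : MemLp a 2 volume) (h : ∀ x, a (-x) = a x) :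
    IsEven (ha.toLp a) := by
  filter_upwards [ha.coeFn_toLp, ae_neg ha.coeFn_toLp] with x h1 h2
  rw [h1, h2, h]


end H59.Wave
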