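import Pool.Agent.H59.WaveProfile

open MeasureTheory Set Filter Topology
open scoped ContDiff

namespace H59.Wave

noncomputable def S : ℝ → ℝ := Real.smoothTransition

theorem S_contDiff : ContDiff ℝ ∞ S := Real.smoothTransition.contDiff

theorem S_nonneg (t : ℝ) : 0 ≤ S t := Real.smoothTransition.nonneg t

theorem S_le_one (t : ℝ) : S t ≤ 1 := Real.smoothTransition.le_one t

theorem S_zero {t : ℝ} (h : t ≤ 0) : S t = 0 := Real.smoothTransition.zero_of_nonpos h

theorem S_one {t : ℝ} (h : 1 ≤ t) : S t = 1 := Real.smoothTransition.one_of_one_le h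

theorem hasDerivAt_S (t : ℝ) : HasDerivAt S (deriv S t) t :=
  ((S_contDiff.differentiable (by simp)) t).hasDerivAt

theorem deriv_S_of_ge {t : ℝ} (h : 1 ≤ t) : deriv S t = 0 := by
  apply IsLocalMax.deriv_eq_zero
  exact Eventually.of_forall fun y => by rw [S_one h]; exact S_le_one y

theorem deriv_S_of_le {t : ℝ} (h : t ≤ 0) : deriv S t = 0 := by
  apply IsLocalMin.deriv_eq_zero
  exact Eventually.of_forall fun y => by rw [S_zero h]; exact S_nonneg y

theorem exists_deriv_S_bound : ∃ κ : ℝ, 0 ≤ κ ∧ ∀ t, |deriv S t| ≤ κ := by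
  have hc : Continuous (deriv S) := (contDiff_infty_iff_deriv.1 S_contDiff).2.continuous
  obtain ⟨C, hC⟩ := (isCompact_Icc (a := (0 : ℝ)) (b := 1)).exists_bound_of_continuousOn
    hc.continuousOn
  refine ⟨max C 0, le_max_right _ _, fun t => ?_⟩
  by_cases h : t ∈ Icc (0 : ℝ) 1
  · exact (hC t h).trans (le_max_left _ _)
  · rw [mem_Icc, not_and_or, not_le, not_le] at h
    rcases h with h | h
    · rw [deriv_S_of_le h.le, abs_zero]; exact le_max_right _ _
    · rw [deriv_S_of_ge h.le, abs_zero]; exact le_max_right _ _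

/-- The truncated profile. -/
noncomputable def gam (ε : ℝ) (x : ℝ) : ℝ := g x * S (g x / ε - 1)

/-- Its derivative. -/
noncomputable def gam' (ε : ℝ) (x : ℝ) : ℝ :=
  g' x * S (g x / ε - 1) + g x * (deriv S (g x / ε - 1) * (g' x / ε))

theorem hasDerivAt_gam (ε x : ℝ) : HasDerivAt (gam ε) (gam' ε x) x := by
  have h1 := hasDerivAt_g x
  have h2 : HasDerivAt (fun y => g y / ε - 1) (g' x / ε) x := (h1.div_const ε).sub_const 1
  have h3 : HasDerivAt (fun y => S (g y / ε - 1)) (deriv S (g x / ε - 1) * (g' x / ε)) x :=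
    (hasDerivAt_S (g x / ε - 1)).comp x h2
  exact h1.mul h3

theorem continuous_gam (ε : ℝ) : Continuous (gam ε) :=
  continuous_iff_continuousAt.2 fun x => (hasDerivAt_gam ε x).continuousAt

theorem continuous_gam' (ε : ℝ) : Continuous (gam' ε) := by
  have hc : Continuous (deriv S) := (contDiff_infty_iff_deriv.1 S_contDiff).2.continuous
  have h1 := continuous_g
  have h2 := continuous_g'
  have h3 := S_contDiff.continuous
  unfold gam'
  fun_prop

theorem sup_gam (ε : ℝ) : Sup (gam ε) := fun x hx => by rw [gam, sup_g x hx, zero_mul]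

theorem sup_gam' (ε : ℝ) : Sup (gam' ε) := fun x hx => by
  rw [gam', sup_g x hx, sup_g' x hx]; simp

theorem gam_even (ε x : ℝ) : gam ε (-x) = gam ε x := by rw [gam, gam, g_even]

theorem gam_nonneg (ε x : ℝ) : 0 ≤ gam ε x := mul_nonneg (g_nonneg x) (S_nonneg _)

theorem gam_eq_zero {ε x : ℝ} (hε : 0 < ε) (h : g x ≤ ε) : gam ε x = 0 := by
  rw [gam, S_zero, mul_zero]
  rw [sub_nonpos, div_le_one hε]; exact h

theorem abs_gam_sub_le {ε : ℝ} (hε : 0 < ε) (x : ℝ) : |gam ε x - g x| ≤ 2 * ε := by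
  have h0 := g_nonneg x
  rcases le_total (2 * ε) (g x) with h | h
  · rw [gam, S_one]
    · rw [mul_one, sub_self, abs_zero]; linarith
    · rw [le_sub_iff_add_le, le_div_iff₀ hε]; linarith
  · have h1 := S_nonneg (g x / ε - 1)
    have h2 := S_le_one (g x / ε - 1)
    rw [gam, abs_le]
    constructor <;> nlinarith

theorem exists_abs_gam'_sub_le : ∃ K : ℝ, 0 < K ∧ ∀ ε : ℝ, 0 < ε → ∀ x,
    |gam' ε x - g' x| ≤ K * Real.sqrt ε := by
  obtain ⟨κ, hκ0, hκ⟩ := exists_deriv_S_bound
  refine ⟨4 * (1 + 2 * κ), by positivity, ?_⟩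
  intro ε hε x
  have hs := Real.sqrt_nonneg ε
  rcases le_total (2 * ε) (g x) with h | h
  · have h1 : 1 ≤ g x / ε - 1 := by
      rw [le_sub_iff_add_le, le_div_iff₀ hε]; linarith
    rw [gam', S_one h1, deriv_S_of_ge h1]
    simp only [mul_one, zero_mul, mul_zero, add_zero, sub_self, abs_zero]
    positivity
  · have h0 := g_nonneg x
    have e : gam' ε x - g' x
        = g' x * ((S (g x / ε - 1) - 1) + g x / ε * deriv S (g x / ε - 1)) := by
      rw [gam']; ring
    have hg : |g' x| ≤ 4 * Real.sqrt ε := by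
      apply abs_le_of_sq_le_sq _ (by positivity)
      have := sq_g'_le x
      have h3 : (4 * Real.sqrt ε) ^ 2 = 16 * ε := by
        rw [mul_pow, Real.sq_sqrt hε.le]; norm_num
      rw [h3]; linarith
    have hb : |(S (g x / ε - 1) - 1) + g x / ε * deriv S (g x / ε - 1)| ≤ 1 + 2 * κ := by
      refine (abs_add_le _ _).trans ?_
      have h1 := S_nonneg (g x / ε - 1)
      have h2 := S_le_one (g x / ε - 1)
      have h3 : |S (g x / ε - 1) - 1| ≤ 1 := by rw [abs_le]; constructor <;> linarith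
      have h4 : |g x / ε * deriv S (g x / ε - 1)| ≤ 2 * κ := by
        rw [abs_mul]
        have h5 : |g x / ε| ≤ 2 := by
          rw [abs_of_nonneg (by positivity), div_le_iff₀ hε]; exact h
        exact mul_le_mul h5 (hκ _) (abs_nonneg _) (by norm_num)
      linarith
    rw [e, abs_mul]
    calc |g' x| * |(S (g x / ε - 1) - 1) + g x / ε * deriv S (g x / ε - 1)|
        ≤ (4 * Real.sqrt ε) * (1 + 2 * κ) := mul_le_mul hg hb (abs_nonneg _) (by positivity)
      _ = 4 * (1 + 2 * κ) * Real.sqrt ε := by ring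

theorem contDiff_gam {ε : ℝ} (hε : 0 < ε) : ContDiff ℝ ∞ (gam ε) := by
  rw [contDiff_iff_contDiffAt]
  intro x
  rcases lt_or_ge |x| Real.pi with h | h
  · have he : gam ε =ᶠ[𝓝 x] fun y => (2 + 2 * Real.cos y) * S ((2 + 2 * Real.cos y) / ε - 1) := by
      have : ∀ᶠ y in 𝓝 x, |y| < Real.pi := continuous_abs.continuousAt.eventually_lt
        continuousAt_const h
      filter_upwards [this] with y hy
      rw [gam, g_of_le hy.le]
    refine ContDiffAt.congr_of_eventuallyEq ?_ he
    apply ContDiff.contDiffAt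
    have h1 : ContDiff ℝ ∞ (fun y : ℝ => 2 + 2 * Real.cos y) :=
      contDiff_const.add (contDiff_const.mul Real.contDiff_cos)
    exact h1.mul (S_contDiff.comp ((h1.div_const ε).sub contDiff_const))
  · have he : gam ε =ᶠ[𝓝 x] fun _ => 0 := by
      have hx : g x < ε := by rw [g_of_ge h]; exact hε
      have : ∀ᶠ y in 𝓝 x, g y < ε := continuous_g.continuousAt.eventually_lt
        continuousAt_const hx
      filter_upwards [this] with y hy
      exact gam_eq_zero hε hy.le
    exact ContDiffAt.congr_of_eventuallyEq contDiffAt_const he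

theorem tsupport_gam_subset {ε : ℝ} (hε : 0 < ε) :
    tsupport (gam ε) ⊆ Ioo (-Real.pi) Real.pi := by
  have h1 : tsupport (gam ε) ⊆ {x | ε ≤ g x} := by
    apply closure_minimal _ (isClosed_le continuous_const continuous_g)
    intro x hx
    by_contra hc
    exact hx (gam_eq_zero hε (not_le.1 hc).le)
  intro x hx
  have h2 : ε ≤ g x := h1 hx
  rw [mem_Ioo, ← abs_lt]
  by_contra hc
  rw [g_of_ge (not_lt.1 hc)] at h2
  linarith

/-- An even bump supported in `{0 < |x| < π, g < ε}`. -/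
theorem exists_bump {ε : ℝ} (hε : 0 < ε) : ∃ φ : ℝ → ℝ, IsTest φ ∧ (∀ x, φ (-x) = φ x) ∧
    (∀ x, 0 ≤ φ x) ∧ tsupport φ ⊆ {x | g x < ε} ∩ Ioo (-Real.pi) Real.pi ∧ (∃ x, φ x ≠ 0) := by
  have hpi := Real.pi_pos
  obtain ⟨a, ha0, hapi, hag⟩ : ∃ a : ℝ, 0 < a ∧ a < Real.pi ∧ g a < ε := by
    have h1 : ∀ᶠ y in 𝓝 Real.pi, g y < ε := continuous_g.continuousAt.eventually_lt
      continuousAt_const (by rw [g_of_ge (le_abs_self _)]; exact hε)
    have h2 : ∀ᶠ y in 𝓝[<] Real.pi, g y < ε := h1.filter_mono nhdsWithin_le_nhds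
    have h3 : ∀ᶠ y in 𝓝[<] Real.pi, y ∈ Ioo 0 Real.pi := Ioo_mem_nhdsLT hpi
    obtain ⟨a, h4, h5⟩ := (h2.and h3).exists
    exact ⟨a, h5.1, h5.2, h4⟩
  have hopen : IsOpen ({x | g x < ε} ∩ Ioo 0 Real.pi) :=
    (isOpen_lt continuous_g continuous_const).inter isOpen_Ioo
  obtain ⟨r, hr, hball⟩ := Metric.isOpen_iff.1 hopen a ⟨hag, ha0, hapi⟩
  let b : ContDiffBump a := ⟨r / 4, r / 2, by positivity, by linarith⟩
  have hbt : tsupport b ⊆ {x | g x < ε} ∩ Ioo 0 Real.pi := by
    rw [b.tsupport_eq]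
    refine (Metric.closedBall_subset_ball ?_).trans hball
    show r / 2 < r
    linarith
  have hb0 : ∀ x, x ∉ tsupport b → b x = 0 := fun x hx => image_eq_zero_of_notMem_tsupport hx
  have hneg : HasCompactSupport (fun x : ℝ => b (-x)) := by
    have := b.hasCompactSupport.comp_homeomorph (Homeomorph.neg ℝ)
    exact this
  have hsub : tsupport (fun x : ℝ => b x + b (-x)) ⊆ tsupport b ∪ (fun x : ℝ => -x) ⁻¹' tsupport b := by
    apply closure_minimal
    · intro x hx
      by_contra hc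
      rw [mem_union, not_or] at hc
      apply hx
      show b x + b (-x) = 0
      rw [hb0 x hc.1, hb0 (-x) hc.2, add_zero]
    · exact (isClosed_tsupport _).union ((isClosed_tsupport _).preimage continuous_neg)
  refine ⟨fun x => b x + b (-x), ⟨?_, ?_⟩, ?_, ?_, ?_, a, ?_⟩
  · exact b.contDiff.add (b.contDiff.comp contDiff_neg)
  · exact b.hasCompactSupport.add hneg
  · intro x; show b (-x) + b (- -x) = b x + b (-x); rw [neg_neg, add_comm]
  · intro x; exact add_nonneg b.nonneg b.nonneg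
  · intro x hx
    rcases hsub hx with h | h
    · obtain ⟨h1, h2⟩ := hbt h
      exact ⟨h1, by linarith [h2.1], h2.2⟩
    · obtain ⟨h1, h2⟩ := hbt h
      have h3 : g (-x) < ε := h1
      rw [g_even] at h3
      exact ⟨h3, by linarith [h2.2], by linarith [h2.1]⟩
  · show b a + b (-a) ≠ 0
    have h1 : b a = 1 := b.one_of_mem_closedBall (Metric.mem_closedBall_self (by positivity))
    have h2 : 0 ≤ b (-a) := b.nonneg
    rw [h1]; linarith

end H59.Wave
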