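import Pool.Agent.H59.WaveBase

open MeasureTheory Set Filter Topology
open scoped ContDiff

namespace H59.Wave

/-- `(w₀, w₀', w₁)` where `w₀'` is the weak derivative of `w₀` (so `w₀ ∈ H¹(ℝ)`), and `w₀`, `w₁`
are even. -/
def InX (p : L2 × L2 × L2) : Prop := IsWeakDeriv p.1 p.2.1 ∧ IsEven p.1 ∧ IsEven p.2.2

theorem inX_add {p q : L2 × L2 × L2} (hp : InX p) (hq : InX q) : InX (p + q) :=
  ⟨isWeakDeriv_add hp.1 hq.1, isEven_add hp.2.1 hq.2.1, isEven_add hp.2.2 hq.2.2⟩

theorem inX_zero : InX 0 := ⟨isWeakDeriv_zero, isEven_zero, isEven_zero⟩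

theorem inX_smul (c : ℝ) {p : L2 × L2 × L2} (hp : InX p) : InX (c • p) :=
  ⟨isWeakDeriv_smul c hp.1, isEven_smul c hp.2.1, isEven_smul c hp.2.2⟩

/-- The subspace of all these triples. -/
def XS : Submodule ℝ (L2 × L2 × L2) where
  carrier := {p | InX p}
  add_mem' := inX_add
  zero_mem' := inX_zero
  smul_mem' c _ := inX_smul c

/-- The phase space, with the norm `max (‖w₀‖, ‖w₀'‖, ‖w₁‖)` (equivalent to that of `H¹ × L²`). -/
def X : Type := XS

noncomputable instance : NormedAddCommGroup X := Submodule.normedAddCommGroup XS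

noncomputable instance : NormedSpace ℝ X := Submodule.normedSpace XS

/-- The triple of a point of `X`. -/
def val (p : X) : L2 × L2 × L2 := Subtype.val p

/-- The component `w₀` of a point of `X`. -/
noncomputable def w (p : X) : ℝ → ℝ := (val p).1

/-- The derivative `w₀'` of the component `w₀` of a point of `X`. -/
noncomputable def wx (p : X) : ℝ → ℝ := (val p).2.1

/-- The component `w₁` of a point of `X`. -/
noncomputable def wt (p : X) : ℝ → ℝ := (val p).2.2

/-- The point of `X` given by `C¹` data. -/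
noncomputable def mk (a a' b : ℝ → ℝ) (ha : MemLp a 2 volume) (ha' : MemLp a' 2 volume)
    (hb : MemLp b 2 volume) (h : ∀ x, HasDerivAt a (a' x) x) (hea : ∀ x, a (-x) = a x)
    (heb : ∀ x, b (-x) = b x) : X :=
  ⟨(ha.toLp a, ha'.toLp a', hb.toLp b), isWeakDeriv_toLp ha ha' h, isEven_toLp ha hea,
    isEven_toLp hb heb⟩

/-- The stationary point `(g, 0)`. -/
noncomputable def P : X :=
  mk g g' (fun _ => 0) (sup_g.memLp continuous_g) (sup_g'.memLp continuous_g') MemLp.zero'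
    hasDerivAt_g g_even (fun _ => rfl)

/-- The direction `(g, g)`. -/
noncomputable def E : X :=
  mk g g' g (sup_g.memLp continuous_g) (sup_g'.memLp continuous_g') (sup_g.memLp continuous_g)
    hasDerivAt_g g_even g_even

/-- `W` is a weak solution, with data `p`, on the time interval `I` (an interval starting at `0`):
`τ ↦ W τ` is continuous from `I` to `X`, `W 0 = p`, and, in the sense of distributions on
`ℝ × interior I`, the third component of `W` is the time derivative of the first, and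
`w_ττ + 5 w_τ = (w w_x)_x + 2 w² - 6 w`. -/
structure IsWeakSolution (I : Set ℝ) (p : X) (W : ℝ → X) : Prop where
  cont : ContinuousOn W I
  init : W 0 = p
  time_deriv : ∀ φ : ℝ → ℝ → ℝ, ContDiff ℝ ∞ (fun q : ℝ × ℝ => φ q.1 q.2) →
    HasCompactSupport (fun q : ℝ × ℝ => φ q.1 q.2) →
    tsupport (fun q : ℝ × ℝ => φ q.1 q.2) ⊆ univ ×ˢ interior I →
    ∫ τ in I, ∫ x, w (W τ) x * deriv (fun s => φ x s) τ = - ∫ τ in I, ∫ x, wt (W τ) x * φ x τ
  eqn : ∀ φ : ℝ → ℝ → ℝ, ContDiff ℝ ∞ (fun q : ℝ × ℝ => φ q.1 q.2) →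
    HasCompactSupport (fun q : ℝ × ℝ => φ q.1 q.2) →
    tsupport (fun q : ℝ × ℝ => φ q.1 q.2) ⊆ univ ×ˢ interior I →
    ∫ τ in I, ∫ x, (w (W τ) x * deriv (deriv (fun s => φ x s)) τ
      - 5 * w (W τ) x * deriv (fun s => φ x s) τ
      + w (W τ) x * wx (W τ) x * deriv (fun y => φ y τ) x
      - (2 * w (W τ) x ^ 2 - 6 * w (W τ) x) * φ x τ) = 0

/-- `Φ` is a `C¹` defining function of `M` on the open neighbourhood `V` of `q`. -/
structure IsDefiningFunction (M : Set X) (q : X) (V : Set X) (Φ : X → ℝ) : Prop where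
  isOpen : IsOpen V
  mem : q ∈ V
  contDiffOn : ContDiffOn ℝ 1 Φ V
  fderiv_ne : ∀ r ∈ V, fderiv ℝ Φ r ≠ 0
  zero_set : M ∩ V = {r ∈ V | Φ r = 0}

/-- `M` is a `C¹` submanifold of codimension one. -/
def IsC1Hypersurface (M : Set X) : Prop :=
  ∀ q ∈ M, ∃ (V : Set X) (Φ : X → ℝ), IsDefiningFunction M q V Φ

/-- Near `q` the set `M` is a `C¹` hypersurface whose tangent space at `q` does not contain `e`. -/
def IsTransversalAt (M : Set X) (q e : X) : Prop :=
  ∃ (V : Set X) (Φ : X → ℝ), IsDefiningFunction M q V Φ ∧ fderiv ℝ Φ q e ≠ 0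

/-- The principle of linearized stability at `g`, as posed. -/
def LinearizedStability : Prop :=
  ∃ U M : Set X, U ∈ 𝓝 P ∧ M ⊆ U ∧ P ∈ M ∧ IsC1Hypersurface M ∧ IsTransversalAt M P E ∧
    ∀ ε > 0, ∃ δ > 0, ∀ p ∈ M, ‖p - P‖ < δ → ∃ W : ℝ → X, IsWeakSolution (Ici 0) p W ∧
      (∀ τ ≥ 0, ‖W τ - P‖ < ε) ∧ Tendsto (fun τ => ‖W τ - P‖) atTop (𝓝 0)

end H59.Wave
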