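import Pool.Agent.H59.WaveMain

open MeasureTheory Set Filter Topology
open scoped ContDiff

namespace H59.Wave

theorem integral_gam_osc {ε : ℝ} (hε : 0 < ε) {φ : ℝ → ℝ}
    (hs : tsupport φ ⊆ {x | g x < ε} ∩ Ioo (-Real.pi) Real.pi) (k : ℝ) (x : ℝ) :
    gam ε x * osc φ k x = 0 := by
  by_cases hx : x ∈ tsupport φ
  · have h1 : g x < ε := (hs hx).1
    rw [gam_eq_zero hε h1.le, zero_mul]
  · rw [osc, image_eq_zero_of_notMem_tsupport hx, zero_mul, mul_zero]

theorem w_dat_eq_zero {ε : ℝ} (hε : 0 < ε) {φ : ℝ → ℝ}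
    (hs : tsupport φ ⊆ {x | g x < ε} ∩ Ioo (-Real.pi) Real.pi) (c : ℝ) (z : L2) (hz : IsEven z) :
    ∀ᵐ x, x ∈ tsupport φ → w (dat ε c z hz) x = 0 := by
  filter_upwards [w_dat ε c z hz] with x hx h
  have h1 : g x < ε := (hs h).1
  rw [hx, gam_eq_zero hε h1.le, mul_zero]

theorem integral_wt_dat {ε : ℝ} (hε : 0 < ε) {φ : ℝ → ℝ}
    (hs : tsupport φ ⊆ {x | g x < ε} ∩ Ioo (-Real.pi) Real.pi) (c : ℝ) (z : L2) (hz : IsEven z)
    (k : ℝ) : ∫ x, wt (dat ε c z hz) x * osc φ k x = ∫ x, z x * osc φ k x := by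
  refine integral_congr_ae ?_
  filter_upwards [wt_dat ε c z hz] with x hx
  have := integral_gam_osc hε hs k x
  rw [hx, add_mul, mul_assoc, this]
  ring

theorem osc_even {φ : ℝ → ℝ} (h : ∀ x, φ (-x) = φ x) (k x : ℝ) : osc φ k (-x) = osc φ k x := by
  rw [osc, osc, h, mul_neg, Real.cos_neg]

theorem one_div_sq_le {T : ℝ} (hT : 0 < T) : ∃ n1 : ℕ, ∀ n : ℕ, n1 ≤ n → 1 ≤ n ∧ 1 / (n : ℝ) ^ 2 ≤ T := by
  obtain ⟨n1, hn1⟩ := exists_nat_gt (1 / T + 1)
  refine ⟨n1, fun n hn => ?_⟩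
  have h1 : 1 / T + 1 < n := hn1.trans_le (by exact_mod_cast hn)
  have h2 : 0 < 1 / T := by positivity
  have h3 : (1 : ℝ) < n := by linarith
  refine ⟨by exact_mod_cast h3.le, ?_⟩
  rw [div_le_iff₀ (by positivity)]
  have h4 : 1 / T < n := by linarith
  rw [div_lt_iff₀ hT] at h4
  nlinarith

theorem exists_osc_lower' {φ : ℝ → ℝ} (hφ : IsTest φ) (h : ∃ x, φ x ≠ 0) :
    ∃ m : ℝ, 0 < m ∧ ∃ n0 : ℕ, ∀ n : ℕ, n0 ≤ n →
      m ≤ ∫ x, (φ x + osc φ ((n : ℝ) ^ 3) x) * osc φ ((n : ℝ) ^ 3) x := by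
  obtain ⟨m, hm, n0, hn0⟩ := exists_osc_lower hφ h
  set C : ℝ := (‖tl hφ‖ + ‖tl hφ.deriv‖) * (‖tl hφ‖ + ‖tl hφ.deriv‖) with hC
  have hC0 : 0 ≤ C := by positivity
  obtain ⟨n1, hn1⟩ := exists_nat_gt (2 * C / m + 1)
  refine ⟨m / 2, by positivity, max n0 n1, fun n hn => ?_⟩
  have h1 := hn0 n ((le_max_left _ _).trans hn)
  have hn2 : 2 * C / m + 1 < n := hn1.trans_le (by exact_mod_cast (le_max_right n0 n1).trans hn)
  have hn3 : (1 : ℝ) < n := by
    have : 0 ≤ 2 * C / m := by positivity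
    linarith
  set k : ℝ := (n : ℝ) ^ 3 with hk
  have hkn : (n : ℝ) ≤ k := by
    rw [hk]
    calc (n : ℝ) = n ^ 1 := (pow_one _).symm
      _ ≤ n ^ 3 := pow_le_pow_right₀ hn3.le (by norm_num)
  have hk0 : 0 < k := by linarith
  have hwd : IsWeakDeriv (tl hφ) (tl hφ.deriv) := isWeakDeriv_toLp _ _ (hasDerivAt_test hφ)
  have h2 := abs_osc_pair_le hφ hk0 hwd
    (N := ‖tl hφ‖ + ‖tl hφ.deriv‖) (by linarith [norm_nonneg (tl hφ.deriv)])
    (by linarith [norm_nonneg (tl hφ)])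
  have e1 : ∫ x, tl hφ x * osc φ k x = ∫ x, φ x * osc φ k x := by
    refine integral_congr_ae ?_
    filter_upwards [coeFn_tl hφ] with x hx
    rw [hx]
  rw [e1, ← hC] at h2
  have ho := isTest_osc hφ k
  have i1 : Integrable (fun x => φ x * osc φ k x) :=
    (hφ.1.continuous.mul ho.1.continuous).integrable_of_hasCompactSupport hφ.2.mul_right
  have i2 : Integrable (fun x => osc φ k x * osc φ k x) :=
    (ho.1.continuous.mul ho.1.continuous).integrable_of_hasCompactSupport ho.2.mul_right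
  have e2 : ∫ x, (φ x + osc φ k x) * osc φ k x
      = (∫ x, φ x * osc φ k x) + ∫ x, osc φ k x * osc φ k x := by
    rw [← integral_add i1 i2]
    congr 1; funext x; ring
  rw [e2]
  have h3 : C / k ≤ m / 2 := by
    rw [div_le_iff₀ hk0]
    have h4 : 2 * C / m < k := by linarith
    rw [div_lt_iff₀ hm] at h4
    nlinarith
  have h5 := (abs_le.1 (h2.trans h3)).1
  linarith

/-- Smooth data: norm inflation. -/
theorem smooth_inflation {M : Set X} (hM : IsTransversalAt M P E) (hP : P ∈ M) {δ K T : ℝ}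
    (hδ : 0 < δ) (hT : 0 < T) :
    ∃ p ∈ M, ‖p - P‖ < δ ∧
      (∃ a b : ℝ → ℝ, IsTest a ∧ IsTest b ∧ tsupport a ⊆ Ioo (-Real.pi) Real.pi ∧
        tsupport b ⊆ Ioo (-Real.pi) Real.pi ∧ (∀ x, 0 ≤ a x) ∧ (∀ x, a x = 0 → 0 ≤ b x) ∧
        w p =ᵐ[volume] a ∧ wt p =ᵐ[volume] b) ∧
      ∀ W : ℝ → X, IsWeakSolution (Icc 0 T) p W → ∃ τ ∈ Icc 0 T, K < ‖W τ‖ := by
  obtain ⟨γ, hγ, hhit⟩ := exists_mem_hypersurface hM hP hδ
  obtain ⟨ε, hε, hPe, hEe⟩ := tendsto_Pe_Ee γ hγ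
  obtain ⟨φ, hφ, hφe, hφ0, hφs, hφn⟩ := exists_bump hε
  obtain ⟨C, hC, hCb⟩ := osc_data_le hφ
  obtain ⟨m, hm, n0, hlow⟩ := exists_osc_lower' hφ hφn
  obtain ⟨n1, hn1⟩ := one_div_sq_le hT
  set t : ℝ := γ / (4 * (‖tl hφ‖ + 1)) with ht
  have hA : 0 ≤ ‖tl hφ‖ := norm_nonneg _
  have ht0 : 0 < t := by positivity
  set N : ℝ := max K 0 with hN
  have hN0 : 0 ≤ N := le_max_right _ _
  obtain ⟨n2, hn2⟩ := exists_nat_gt (C * (N + N ^ 2) / (t * m))
  set n : ℕ := max (max n0 n1) (n2 + 1) with hn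
  have hnn0 : n0 ≤ n := (le_max_left _ _).trans (le_max_left _ _)
  have hnn1 : n1 ≤ n := (le_max_right _ _).trans (le_max_left _ _)
  have hnn2 : n2 + 1 ≤ n := le_max_right _ _
  obtain ⟨hn1', hnT⟩ := hn1 n hnn1
  have hnpos : (0 : ℝ) < n := by exact_mod_cast hn1'
  set k : ℝ := (n : ℝ) ^ 3 with hk
  have ho := isTest_osc hφ k
  have hto : IsTest (fun x => t * (φ x + osc φ k x)) := (hφ.add ho).const_mul t
  have hev : IsEven (tl hto) := isEven_toLp _ fun x => by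
    show t * (φ (-x) + osc φ k (-x)) = t * (φ x + osc φ k x)
    rw [osc_even hφe, hφe]
  have hnorm : ‖tl hto‖ < γ := by
    have h1 : ‖tl hto‖ ≤ ‖tl (hφ.const_mul (2 * t))‖ := by
      apply norm_tl_le
      intro x
      rw [abs_mul, abs_mul, abs_of_pos ht0, abs_of_pos (by positivity : 0 < 2 * t)]
      have h3 := abs_osc_le φ k x
      have h4 : |φ x + osc φ k x| ≤ 2 * |φ x| := (abs_add_le _ _).trans (by linarith)
      nlinarith
    have h2 : tl (hφ.const_mul (2 * t)) = (2 * t) • tl hφ := by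
      rw [tl, tl]
      exact MemLp.toLp_const_smul (2 * t) _
    rw [h2, norm_smul, Real.norm_eq_abs, abs_of_pos (by positivity : 0 < 2 * t)] at h1
    refine h1.trans_lt ?_
    rw [ht, ← mul_div_assoc, div_mul_eq_mul_div, div_lt_iff₀ (by positivity)]
    nlinarith
  obtain ⟨c, hc, hcM, hcδ⟩ := hhit (Pe ε) (Ee ε) (vel (tl hto) hev) hPe hEe
    (by rw [norm_vel]; exact hnorm)
  refine ⟨dat ε c (tl hto) hev, hcM, hcδ, ?_, ?_⟩
  · refine ⟨fun x => (1 + c) * gam ε x, fun x => c * gam ε x + t * (φ x + osc φ k x), ?_, ?_, ?_,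
      ?_, ?_, ?_, w_dat _ _ _ _, ?_⟩
    · exact IsTest.const_mul (1 + c) ⟨contDiff_gam hε, (sup_gam ε).hasCompactSupport⟩
    · exact (IsTest.const_mul c ⟨contDiff_gam hε, (sup_gam ε).hasCompactSupport⟩).add hto
    · exact tsupport_mul_subset_right.trans (tsupport_gam_subset hε)
    · have : tsupport (fun x => c * gam ε x + t * (φ x + osc φ k x))
          ⊆ tsupport (gam ε) ∪ tsupport φ := by
        apply closure_minimal _ ((isClosed_tsupport _).union (isClosed_tsupport _))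
        intro x hx
        by_contra hcc
        rw [mem_union, not_or] at hcc
        apply hx
        show c * gam ε x + t * (φ x + osc φ k x) = 0
        rw [osc, image_eq_zero_of_notMem_tsupport hcc.1, image_eq_zero_of_notMem_tsupport hcc.2]
        ring
      exact this.trans (union_subset (tsupport_gam_subset hε) (hφs.trans inter_subset_right))
    · intro x
      have := abs_le.1 hc
      exact mul_nonneg (by linarith) (gam_nonneg ε x)
    · intro x hx
      have hc' := abs_le.1 hc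
      have hx' : (1 + c) * gam ε x = 0 := hx
      have h1 : gam ε x = 0 := by
        rcases mul_eq_zero.1 hx' with h | h
        · linarith
        · exact h
      show 0 ≤ c * gam ε x + t * (φ x + osc φ k x)
      have h2 := (abs_le.1 (abs_osc_le φ k x)).1
      rw [abs_of_nonneg (hφ0 x)] at h2
      rw [h1, mul_zero, zero_add]
      exact mul_nonneg ht0.le (by linarith)
    · filter_upwards [wt_dat ε c (tl hto) hev, coeFn_tl hto] with x h1 h2
      rw [h1, h2]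
  · intro W hW
    by_contra hcon
    push Not at hcon
    have hWN : ∀ σ ∈ Icc 0 (1 / (n : ℝ) ^ 2), ‖W σ‖ ≤ N := fun σ hσ =>
      (hcon σ ⟨hσ.1, hσ.2.trans hnT⟩).trans (le_max_left _ _)
    have h1 := hCb T _ W N n hn1' hW hnT (w_dat_eq_zero hε hφs c (tl hto) hev) hWN
    rw [integral_wt_dat hε hφs] at h1
    have h2 : ∫ x, tl hto x * osc φ k x = t * ∫ x, (φ x + osc φ k x) * osc φ k x := by
      rw [← integral_const_mul]
      refine integral_congr_ae ?_
      filter_upwards [coeFn_tl hto] with x hx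
      rw [hx]; ring
    rw [← hk, h2] at h1
    have h3 := hlow n hnn0
    rw [← hk] at h3
    have h4 : t * m ≤ C * (N + N ^ 2) / n :=
      ((mul_le_mul_of_nonneg_left h3 ht0.le).trans (le_abs_self _)).trans h1
    rw [le_div_iff₀ hnpos] at h4
    have h5 : C * (N + N ^ 2) / (t * m) < n := by
      refine hn2.trans_le ?_
      have : n2 ≤ n := by omega
      exact_mod_cast this
    rw [div_lt_iff₀ (by positivity)] at h5
    linarith

/-- There is an even `h ∈ L²`, supported in the support of `φ`, whose oscillations are large. -/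
theorem exists_rough {φ : ℝ → ℝ} (hφ : IsTest φ) (hφe : ∀ x, φ (-x) = φ x)
    (hφn : ∃ x, φ x ≠ 0) : ∃ h : L2, IsEven h ∧ (∀ᵐ x, x ∉ tsupport φ → h x = 0) ∧
      ∀ C : ℝ, ∃ n : ℕ, C < n * |∫ x, h x * osc φ ((n : ℝ) ^ 3) x| := by
  obtain ⟨m, hm, n0, hlow⟩ := exists_osc_lower hφ hφn
  -- Banach-Steinhaus
  have hBS : ∃ h : L2, ∀ C : ℝ, ∃ n : ℕ, C < n * |∫ x, h x * osc φ ((n : ℝ) ^ 3) x| := by
    by_contra hcon
    push Not at hcon
    set G : ℕ → L2 →L[ℝ] ℝ := fun n => (n : ℝ) • innerSL ℝ (tl (isTest_osc hφ ((n : ℝ) ^ 3)))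
      with hG
    have hGv : ∀ n h, G n h = n * ∫ x, h x * osc φ ((n : ℝ) ^ 3) x := by
      intro n h
      rw [pair_eq_inner (isTest_osc hφ _)]
      rfl
    obtain ⟨C', hC'⟩ := banach_steinhaus (g := G) (fun h => by
      obtain ⟨C, hC⟩ := hcon h
      refine ⟨C, fun n => ?_⟩
      rw [hGv, Real.norm_eq_abs, abs_mul, Nat.abs_cast]
      exact hC n)
    obtain ⟨n1, hn1⟩ := exists_nat_gt (C' * ‖tl hφ‖ / m)
    set n : ℕ := max n0 (n1 + 1) with hn
    have h1 : n0 ≤ n := le_max_left _ _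
    have h2 : n1 + 1 ≤ n := le_max_right _ _
    set k : ℝ := (n : ℝ) ^ 3 with hk
    have ho := isTest_osc hφ k
    have h3 : G n (tl ho) = n * ∫ x, osc φ k x * osc φ k x := by
      rw [hGv, ← hk]
      congr 1
      refine integral_congr_ae ?_
      filter_upwards [coeFn_tl ho] with x hx
      rw [hx]
    have h4 := (G n).le_opNorm (tl ho)
    rw [h3, Real.norm_eq_abs] at h4
    have h5 : ‖tl ho‖ ≤ ‖tl hφ‖ := norm_tl_le ho hφ (abs_osc_le φ k)
    have hC'0 : 0 ≤ C' := (norm_nonneg _).trans (hC' 0)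
    have h6 : ‖G n‖ * ‖tl ho‖ ≤ C' * ‖tl hφ‖ := mul_le_mul (hC' n) h5 (norm_nonneg _) hC'0
    have h7 := hlow n h1
    rw [← hk] at h7
    have hn0 : (0 : ℝ) ≤ n := Nat.cast_nonneg _
    have h8 : n * m ≤ C' * ‖tl hφ‖ :=
      (((mul_le_mul_of_nonneg_left h7 hn0).trans (le_abs_self _)).trans h4).trans h6
    have h9 : C' * ‖tl hφ‖ / m < n := by
      refine hn1.trans_le ?_
      have : n1 ≤ n := by omega
      exact_mod_cast this
    rw [div_lt_iff₀ hm] at h9
    linarith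
  obtain ⟨h0, hh0⟩ := hBS
  -- symmetrize and cut off
  have mp : MeasurePreserving (fun x : ℝ => -x) volume volume := Measure.measurePreserving_neg _
  have hm1 : MemLp (fun x => h0 x) 2 volume := Lp.memLp h0
  have hm2 : MemLp (fun x => h0 (-x)) 2 volume := hm1.comp_measurePreserving mp
  have hm3 : MemLp (fun x => (1 / 2 : ℝ) * (h0 x + h0 (-x))) 2 volume :=
    (hm1.add hm2).const_mul (1 / 2)
  have hm4 : MemLp ((tsupport φ).indicator fun x => (1 / 2 : ℝ) * (h0 x + h0 (-x))) 2 volume :=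
    hm3.indicator (isClosed_tsupport φ).measurableSet
  have hsym : ∀ x, x ∈ tsupport φ ↔ -x ∈ tsupport φ := by
    have : ∀ x, x ∈ tsupport φ → -x ∈ tsupport φ := by
      intro x hx
      have h1 : tsupport φ ⊆ (fun x : ℝ => -x) ⁻¹' tsupport φ := by
        apply closure_minimal _ ((isClosed_tsupport φ).preimage continuous_neg)
        intro y hy
        apply subset_tsupport φ
        show φ (-y) ≠ 0
        rw [hφe]; exact hy
      exact h1 hx
    intro x
    exact ⟨this x, fun h => by simpa using this _ h⟩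
  refine ⟨hm4.toLp _, ?_, ?_, ?_⟩
  · apply isEven_toLp
    intro x
    by_cases hx : x ∈ tsupport φ
    · rw [indicator_of_mem hx, indicator_of_mem ((hsym x).1 hx), neg_neg, add_comm]
    · rw [indicator_of_notMem hx, indicator_of_notMem fun hc => hx ((hsym x).2 hc)]
  · filter_upwards [hm4.coeFn_toLp] with x hx h
    rw [hx, indicator_of_notMem h]
  · intro C
    obtain ⟨n, hn⟩ := hh0 C
    refine ⟨n, ?_⟩
    set k : ℝ := (n : ℝ) ^ 3 with hk
    have ho := isTest_osc hφ k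
    have e1 : ∫ x, (hm4.toLp _ : L2) x * osc φ k x
        = ∫ x, (1 / 2 * (h0 x * osc φ k x) + 1 / 2 * (h0 (-x) * osc φ k (-x))) := by
      refine integral_congr_ae ?_
      filter_upwards [hm4.coeFn_toLp] with x hx
      rw [hx]
      by_cases h : x ∈ tsupport φ
      · rw [indicator_of_mem h, osc_even hφe]; ring
      · have : osc φ k x = 0 := by rw [osc, image_eq_zero_of_notMem_tsupport h, zero_mul]
        rw [osc_even hφe, this]; ring
    have i1 : Integrable (fun x => h0 x * osc φ k x) := ho.integrable_mul h0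
    have i2 : Integrable (fun x => h0 (-x) * osc φ k (-x)) := i1.comp_neg
    have e2 : ∫ x, h0 (-x) * osc φ k (-x) = ∫ x, h0 x * osc φ k x :=
      integral_neg_eq_self (fun x => h0 x * osc φ k x) volume
    rw [integral_add (i1.const_mul _) (i2.const_mul _), integral_const_mul, integral_const_mul,
      e2] at e1
    rw [e1, ← add_mul]
    norm_num
    exact hn

/-- Rough velocity: there is no weak solution, not even for a short time. -/
theorem exists_rough_nonneg {φ : ℝ → ℝ} (hφ : IsTest φ) (hφe : ∀ x, φ (-x) = φ x)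
    (hφn : ∃ x, φ x ≠ 0) : ∃ h : L2, IsEven h ∧ (∀ᵐ x, x ∉ tsupport φ → h x = 0) ∧
      (∀ᵐ x, 0 ≤ h x) ∧
      ∀ C : ℝ, ∃ n : ℕ, C < n * |∫ x, h x * osc φ ((n : ℝ) ^ 3) x| := by
  obtain ⟨h, h1, h2, h3⟩ := exists_rough hφ hφe hφn
  have hp : ((h ⊔ 0 : L2) : ℝ → ℝ) =ᵐ[volume] fun x => max (h x) 0 := by
    filter_upwards [Lp.coeFn_sup h 0, Lp.coeFn_zero ℝ 2 (volume : Measure ℝ)] with x a b
    rw [a, Pi.sup_apply, b, Pi.zero_apply]
  have hm : ((-h ⊔ 0 : L2) : ℝ → ℝ) =ᵐ[volume] fun x => max (-h x) 0 := by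
    filter_upwards [Lp.coeFn_sup (-h) 0, Lp.coeFn_zero ℝ 2 (volume : Measure ℝ),
      Lp.coeFn_neg h] with x a b c
    rw [a, Pi.sup_apply, b, Pi.zero_apply, c, Pi.neg_apply]
  by_cases hb : ∀ C : ℝ, ∃ n : ℕ, C < n * |∫ x, (h ⊔ 0 : L2) x * osc φ ((n : ℝ) ^ 3) x|
  · refine ⟨h ⊔ 0, ?_, ?_, ?_, hb⟩
    · filter_upwards [hp, ae_neg hp, h1] with x a b c
      rw [a, b, c]
    · filter_upwards [hp, h2] with x a b c
      rw [a, b c, max_self]
    · filter_upwards [hp] with x a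
      rw [a]; exact le_max_right _ _
  · refine ⟨-h ⊔ 0, ?_, ?_, ?_, ?_⟩
    · filter_upwards [hm, ae_neg hm, h1] with x a b c
      rw [a, b, c]
    · filter_upwards [hm, h2] with x a b c
      rw [a, b c, neg_zero, max_self]
    · filter_upwards [hm] with x a
      rw [a]; exact le_max_right _ _
    · push Not at hb
      obtain ⟨C1, hC1⟩ := hb
      intro C
      obtain ⟨n, hn⟩ := h3 (C + C1)
      refine ⟨n, ?_⟩
      have ho := isTest_osc hφ ((n : ℝ) ^ 3)
      have e : ∫ x, h x * osc φ ((n : ℝ) ^ 3) x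
          = (∫ x, (h ⊔ 0 : L2) x * osc φ ((n : ℝ) ^ 3) x)
            - ∫ x, (-h ⊔ 0 : L2) x * osc φ ((n : ℝ) ^ 3) x := by
        rw [← integral_sub (ho.integrable_mul _) (ho.integrable_mul _)]
        refine integral_congr_ae ?_
        filter_upwards [hp, hm] with x a b
        rw [a, b]
        have : h x = max (h x) 0 - max (-h x) 0 := by
          rcases le_total 0 (h x) with h4 | h4
          · rw [max_eq_left h4, max_eq_right (by linarith)]; ring
          · rw [max_eq_right h4, max_eq_left (by linarith)]; ring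
        rw [← sub_mul, ← this]
      rw [e] at hn
      have h5 := hC1 n
      have h6 := abs_sub (∫ x, (h ⊔ 0 : L2) x * osc φ ((n : ℝ) ^ 3) x)
        (∫ x, (-h ⊔ 0 : L2) x * osc φ ((n : ℝ) ^ 3) x)
      have hn0 : (0 : ℝ) ≤ n := Nat.cast_nonneg _
      have h7 := mul_le_mul_of_nonneg_left h6 hn0
      linarith

theorem no_local_solution {M : Set X} (hM : IsTransversalAt M P E) (hP : P ∈ M) {δ : ℝ}
    (hδ : 0 < δ) :
    ∃ p ∈ M, ‖p - P‖ < δ ∧
      (∃ a : ℝ → ℝ, IsTest a ∧ tsupport a ⊆ Ioo (-Real.pi) Real.pi ∧ (∀ x, 0 ≤ a x) ∧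
        w p =ᵐ[volume] a) ∧
      (∀ᵐ x, x ∉ Ioo (-Real.pi) Real.pi → wt p x = 0) ∧ (∀ᵐ x, w p x = 0 → 0 ≤ wt p x) ∧
      ∀ T > 0, ¬ ∃ W : ℝ → X, IsWeakSolution (Icc 0 T) p W := by
  obtain ⟨γ, hγ, hhit⟩ := exists_mem_hypersurface hM hP hδ
  obtain ⟨ε, hε, hPe, hEe⟩ := tendsto_Pe_Ee γ hγ
  obtain ⟨φ, hφ, hφe, hφ0, hφs, hφn⟩ := exists_bump hε
  obtain ⟨C, hC, hCb⟩ := osc_data_le hφ
  obtain ⟨h, heven, hsupp, hnn, hbig⟩ := exists_rough_nonneg hφ hφe hφn
  set t : ℝ := γ / (2 * (‖h‖ + 1)) with ht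
  have hA : 0 ≤ ‖h‖ := norm_nonneg _
  have ht0 : 0 < t := by positivity
  have hev : IsEven (t • h) := isEven_smul t heven
  have hnorm : ‖t • h‖ < γ := by
    rw [norm_smul, Real.norm_eq_abs, abs_of_pos ht0, ht, div_mul_eq_mul_div,
      div_lt_iff₀ (by positivity)]
    nlinarith
  obtain ⟨c, hc, hcM, hcδ⟩ := hhit (Pe ε) (Ee ε) (vel (t • h) hev) hPe hEe
    (by rw [norm_vel]; exact hnorm)
  refine ⟨dat ε c (t • h) hev, hcM, hcδ, ?_, ?_, ?_, ?_⟩
  · refine ⟨fun x => (1 + c) * gam ε x, ?_, ?_, ?_, w_dat _ _ _ _⟩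
    · exact IsTest.const_mul (1 + c) ⟨contDiff_gam hε, (sup_gam ε).hasCompactSupport⟩
    · exact tsupport_mul_subset_right.trans (tsupport_gam_subset hε)
    · intro x
      have := abs_le.1 hc
      exact mul_nonneg (by linarith) (gam_nonneg ε x)
  · filter_upwards [wt_dat ε c (t • h) hev, Lp.coeFn_smul t h, hsupp] with x h1 h2 h3 h4
    have h5 : x ∉ tsupport φ := fun hcc => h4 (hφs hcc).2
    have h6 : gam ε x = 0 :=
      image_eq_zero_of_notMem_tsupport fun hcc => h4 (tsupport_gam_subset hε hcc)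
    rw [h1, h2, Pi.smul_apply, h3 h5, h6, smul_zero]
    ring
  · filter_upwards [wt_dat ε c (t • h) hev, Lp.coeFn_smul t h, hnn, w_dat ε c (t • h) hev]
      with x h1 h2 h3 h4 h5
    rw [h4] at h5
    have hc' := abs_le.1 hc
    have h6 : gam ε x = 0 := by
      rcases mul_eq_zero.1 h5 with h | h
      · linarith
      · exact h
    rw [h1, h2, Pi.smul_apply, h6, mul_zero, zero_add, smul_eq_mul]
    exact mul_nonneg ht0.le h3
  · rintro T hT ⟨W, hW⟩
    -- `W` is bounded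
    obtain ⟨N, hN⟩ := isCompact_Icc.exists_bound_of_continuousOn hW.cont
    have hN0 : 0 ≤ N := (norm_nonneg _).trans (hN 0 ⟨le_rfl, hT.le⟩)
    obtain ⟨n1, hn1⟩ := one_div_sq_le hT
    set D : ℝ := C * (N + N ^ 2) / t with hD
    have hD0 : 0 ≤ D := by positivity
    have hlarge : ∀ n : ℕ, n1 ≤ n → n * |∫ x, h x * osc φ ((n : ℝ) ^ 3) x| ≤ D := by
      intro n hn
      obtain ⟨h1, h2⟩ := hn1 n hn
      have hnpos : (0 : ℝ) < n := by exact_mod_cast h1
      have h3 := hCb T _ W N n h1 hW h2 (w_dat_eq_zero hε hφs c (t • h) hev)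
        (fun σ hσ => hN σ ⟨hσ.1, hσ.2.trans h2⟩)
      rw [integral_wt_dat hε hφs] at h3
      have h4 : ∫ x, (t • h : L2) x * osc φ ((n : ℝ) ^ 3) x
          = t * ∫ x, h x * osc φ ((n : ℝ) ^ 3) x := by
        rw [← integral_const_mul]
        refine integral_congr_ae ?_
        filter_upwards [Lp.coeFn_smul t h] with x hx
        rw [hx, Pi.smul_apply, smul_eq_mul, mul_assoc]
      rw [h4, abs_mul, abs_of_pos ht0, le_div_iff₀ hnpos] at h3
      rw [hD, le_div_iff₀ ht0]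
      linarith
    -- finitely many small `n`
    obtain ⟨n, hn⟩ := hbig (D + ∑ i ∈ Finset.range n1, i * |∫ x, h x * osc φ ((i : ℝ) ^ 3) x|)
    have hsum : 0 ≤ ∑ i ∈ Finset.range n1, (i : ℝ) * |∫ x, h x * osc φ ((i : ℝ) ^ 3) x| :=
      Finset.sum_nonneg fun i _ => by positivity
    rcases le_or_gt n1 n with h1 | h1
    · have := hlarge n h1
      linarith
    · have h2 : (n : ℝ) * |∫ x, h x * osc φ ((n : ℝ) ^ 3) x|
          ≤ ∑ i ∈ Finset.range n1, (i : ℝ) * |∫ x, h x * osc φ ((i : ℝ) ^ 3) x| :=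
        Finset.single_le_sum (f := fun i : ℕ => (i : ℝ) * |∫ x, h x * osc φ ((i : ℝ) ^ 3) x|)
          (fun i _ => by positivity) (Finset.mem_range.2 h1)
      linarith

theorem not_linearizedStability : ¬ LinearizedStability := by
  rintro ⟨U, M, -, -, hP, -, hT, h⟩
  obtain ⟨δ, hδ, hδ2⟩ := h 1 one_pos
  obtain ⟨p, hpM, hpδ, -, -, -, hno⟩ := no_local_solution hT hP hδ
  obtain ⟨W, hW, -, -⟩ := hδ2 p hpM hpδ
  exact hno 1 one_pos ⟨W, hW.restrict one_pos⟩

end H59.Wave
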