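import Pool.Agent.H59.WaveSol

open MeasureTheory Set Filter Topology
open scoped ContDiff

namespace H59.Wave

variable {T : ℝ} {p : X} {W : ℝ → X} {η : ℝ → ℝ}

theorem key_estimate (hT : 0 < T) (hW : IsWeakSolution (Icc 0 T) p W) (hη : IsTest η)
    {N a0 a1 a2 b τ : ℝ} (hτ : τ ∈ Icc 0 T) (hτ1 : τ ≤ 1)
    (h0 : ∀ᵐ x, x ∈ tsupport η → w p x = 0) (hN : ∀ σ ∈ Icc 0 τ, ‖W σ‖ ≤ N)
    (ha0 : ∀ x, |η x| ≤ a0) (ha1 : ∀ x, |deriv η x| ≤ a1) (ha2 : ‖tl hη‖ ≤ a2)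
    (hb : ∀ σ ∈ Icc 0 τ, |II W η σ| ≤ b) :
    τ * |∫ x, wt p x * η x| ≤ 6 * b + τ ^ 3 * (a1 * N ^ 2 + 2 * a0 * N ^ 2 + 6 * a2 * N) := by
  have hN0 : 0 ≤ N := (norm_nonneg _).trans (hN 0 ⟨le_rfl, hτ.1⟩)
  have ha00 : 0 ≤ a0 := (abs_nonneg _).trans (ha0 0)
  have ha10 : 0 ≤ a1 := (abs_nonneg _).trans (ha1 0)
  have ha20 : 0 ≤ a2 := (norm_nonneg _).trans ha2
  have hb0 : 0 ≤ b := (abs_nonneg _).trans (hb 0 ⟨le_rfl, hτ.1⟩)
  set K : ℝ := a1 * N ^ 2 + 2 * a0 * N ^ 2 + 6 * a2 * N with hK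
  have hK0 : 0 ≤ K := by positivity
  have h0' : ∀ᵐ x, x ∈ tsupport η → u W 0 x = 0 := by
    filter_upwards [h0] with x hx h
    have := hx h
    rw [← hW.init] at this
    exact this
  have hz : ∀ σ ∈ Icc 0 τ, ‖u W σ - u W 0‖ ≤ N * σ := fun σ hσ =>
    norm_u_sub_le hT hW ⟨hσ.1, hσ.2.trans hτ.2⟩ fun r hr => hN r ⟨hr.1, hr.2.trans hσ.2⟩
  have hη0 : ∀ x, x ∉ tsupport η → η x = 0 := fun x hx => image_eq_zero_of_notMem_tsupport hx
  have hη'0 : ∀ x, x ∉ tsupport η → deriv η x = 0 := fun x hx =>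
    image_eq_zero_of_notMem_tsupport fun hc => hx (tsupport_deriv_subset hc)
  have hA : ∀ σ ∈ Icc 0 τ, |AA W η σ| ≤ a1 * N ^ 2 * σ := by
    intro σ hσ
    have e : AA W η σ = ∫ x, (u W σ - u W 0 : L2) x * ux W σ x * deriv η x := by
      refine integral_congr_ae ?_
      filter_upwards [h0', Lp.coeFn_sub (u W σ) (u W 0)] with x h1 h2
      rw [h2, Pi.sub_apply]
      by_cases hx : x ∈ tsupport η
      · rw [h1 hx, sub_zero]
      · rw [hη'0 x hx, mul_zero, mul_zero]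
    rw [e]
    refine (abs_tri_le hη.deriv.1.continuous ha1 _ _).trans ?_
    have h1 := hz σ hσ
    have h2 : ‖ux W σ‖ ≤ N := (norm_ux_le W σ).trans (hN σ hσ)
    calc a1 * ‖u W σ - u W 0‖ * ‖ux W σ‖ ≤ a1 * (N * σ) * N := by
          have := hσ.1
          gcongr
      _ = a1 * N ^ 2 * σ := by ring
  have hB : ∀ σ ∈ Icc 0 τ, |BB W η σ| ≤ a0 * N ^ 2 * σ := by
    intro σ hσ
    have e : BB W η σ = ∫ x, (u W σ - u W 0 : L2) x * u W σ x * η x := by
      refine integral_congr_ae ?_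
      filter_upwards [h0', Lp.coeFn_sub (u W σ) (u W 0)] with x h1 h2
      rw [h2, Pi.sub_apply]
      by_cases hx : x ∈ tsupport η
      · rw [h1 hx, sub_zero]
      · rw [hη0 x hx, mul_zero, mul_zero]
    rw [e]
    refine (abs_tri_le hη.1.continuous ha0 _ _).trans ?_
    have h1 := hz σ hσ
    have h2 : ‖u W σ‖ ≤ N := (norm_u_le W σ).trans (hN σ hσ)
    calc a0 * ‖u W σ - u W 0‖ * ‖u W σ‖ ≤ a0 * (N * σ) * N := by
          have := hσ.1
          gcongr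
      _ = a0 * N ^ 2 * σ := by ring
  have hI : ∀ σ ∈ Icc 0 τ, |II W η σ| ≤ a2 * N * σ := by
    intro σ hσ
    have e : II W η σ = ∫ x, (u W σ - u W 0 : L2) x * η x := by
      refine integral_congr_ae ?_
      filter_upwards [h0', Lp.coeFn_sub (u W σ) (u W 0)] with x h1 h2
      rw [h2, Pi.sub_apply]
      by_cases hx : x ∈ tsupport η
      · rw [h1 hx, sub_zero]
      · rw [hη0 x hx, mul_zero, mul_zero]
    rw [e]
    refine (abs_pair_le hη _).trans ?_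
    have h1 := hz σ hσ
    calc ‖tl hη‖ * ‖u W σ - u W 0‖ ≤ a2 * (N * σ) := by gcongr
      _ = a2 * N * σ := by ring
  have hI0 : II W η 0 = 0 := by
    have := hI 0 ⟨le_rfl, hτ.1⟩
    rw [mul_zero] at this
    exact abs_eq_zero.1 (le_antisymm this (abs_nonneg _))
  have cI := continuousOn_II hW.cont hη
  have cJ := continuousOn_JJ hW.cont hη
  have cA := continuousOn_AA hW.cont hη
  have cB := continuousOn_BB hW.cont hη
  have cAB : ContinuousOn (fun s => AA W η s - (2 * BB W η s - 6 * II W η s)) (Icc 0 T) :=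
    cA.sub ((continuousOn_const.mul cB).sub (continuousOn_const.mul cI))
  have hAB : ∀ σ ∈ Icc 0 τ, |AA W η σ - (2 * BB W η σ - 6 * II W η σ)| ≤ K * τ := by
    intro σ hσ
    have h1 := abs_le.1 (hA σ hσ)
    have h2 := abs_le.1 (hB σ hσ)
    have h3 := abs_le.1 (hI σ hσ)
    have h4 : |AA W η σ - (2 * BB W η σ - 6 * II W η σ)| ≤ K * σ := by
      rw [hK, abs_le]
      constructor <;> nlinarith
    exact h4.trans (mul_le_mul_of_nonneg_left hσ.2 hK0)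
  have hJ : ∀ σ ∈ Icc 0 τ, |JJ W η σ - JJ W η 0| ≤ 5 * b + K * τ ^ 2 := by
    intro σ hσ
    have hσT : σ ∈ Icc 0 T := ⟨hσ.1, hσ.2.trans hτ.2⟩
    have hsub : uIcc 0 σ ⊆ Icc 0 T := by
      rw [uIcc_of_le hσ.1]; exact Icc_subset_Icc le_rfl hσT.2
    have e1 := JJ_eq hT hW hη σ hσT
    have e2 := II_eq hT hW hη σ hσT
    have i1 : IntervalIntegrable (JJ W η) volume 0 σ := (cJ.mono hsub).intervalIntegrable
    have i2 : IntervalIntegrable (fun s => AA W η s - (2 * BB W η s - 6 * II W η s)) volume 0 σ :=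
      (cAB.mono hsub).intervalIntegrable
    have e3 : ∫ s in (0 : ℝ)..σ, (-(5 * JJ W η s + AA W η s - (2 * BB W η s - 6 * II W η s)))
        = -(5 * ∫ s in (0 : ℝ)..σ, JJ W η s)
          - ∫ s in (0 : ℝ)..σ, (AA W η s - (2 * BB W η s - 6 * II W η s)) := by
      have i3 : IntervalIntegrable (fun s => -(5 * JJ W η s)) volume 0 σ := (i1.const_mul 5).neg
      rw [← intervalIntegral.integral_const_mul, ← intervalIntegral.integral_neg,
        ← intervalIntegral.integral_sub i3 i2]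
      congr 1; funext s; ring
    have e4 : ‖∫ s in (0 : ℝ)..σ, (AA W η s - (2 * BB W η s - 6 * II W η s))‖
        ≤ K * τ * |σ - 0| :=
      intervalIntegral.norm_integral_le_of_norm_le_const fun s hs => by
        rw [uIoc_of_le hσ.1] at hs
        rw [Real.norm_eq_abs]
        exact hAB s ⟨hs.1.le, hs.2.trans hσ.2⟩
    rw [sub_zero, abs_of_nonneg hσ.1, Real.norm_eq_abs] at e4
    have e5 : K * τ * σ ≤ K * τ ^ 2 := by
      have := mul_le_mul_of_nonneg_left hσ.2 (mul_nonneg hK0 hτ.1)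
      nlinarith
    have e6 := abs_le.1 (e4.trans e5)
    have e7 := abs_le.1 (hb σ hσ)
    rw [hI0, zero_add] at e2
    rw [e3, ← e2] at e1
    rw [abs_le]
    constructor <;> linarith
  have hsub : uIcc 0 τ ⊆ Icc 0 T := by
    rw [uIcc_of_le hτ.1]; exact Icc_subset_Icc le_rfl hτ.2
  have i1 : IntervalIntegrable (JJ W η) volume 0 τ := (cJ.mono hsub).intervalIntegrable
  have f1 : ‖∫ s in (0 : ℝ)..τ, (JJ W η s - JJ W η 0)‖ ≤ (5 * b + K * τ ^ 2) * |τ - 0| :=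
    intervalIntegral.norm_integral_le_of_norm_le_const fun s hs => by
      rw [uIoc_of_le hτ.1] at hs
      rw [Real.norm_eq_abs]
      exact hJ s ⟨hs.1.le, hs.2⟩
  rw [intervalIntegral.integral_sub i1 intervalIntegrable_const, intervalIntegral.integral_const,
    smul_eq_mul, sub_zero, abs_of_nonneg hτ.1, Real.norm_eq_abs] at f1
  have f2 := II_eq hT hW hη τ hτ
  rw [hI0, zero_add] at f2
  rw [← f2] at f1
  have f3 : (∫ x, wt p x * η x) = JJ W η 0 := by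
    rw [← hW.init]; rfl
  rw [f3]
  have f4 := abs_le.1 f1
  have f5 := abs_le.1 (hb τ ⟨hτ.1, le_rfl⟩)
  have f6 : τ * |JJ W η 0| = |τ * JJ W η 0| := by rw [abs_mul, abs_of_nonneg hτ.1]
  rw [f6]
  have f7 : (5 * b + K * τ ^ 2) * τ ≤ 5 * b + τ ^ 3 * K := by
    have : 5 * b * τ ≤ 5 * b := by nlinarith
    nlinarith
  rw [abs_le]
  constructor <;> linarith

/-! ### Oscillating test functions -/

/-- `φ(x) cos (k x)` -/
noncomputable def osc (φ : ℝ → ℝ) (k : ℝ) (x : ℝ) : ℝ := φ x * Real.cos (k * x)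

theorem contDiff_cosk (k : ℝ) : ContDiff ℝ ∞ (fun x : ℝ => Real.cos (k * x)) :=
  Real.contDiff_cos.comp (contDiff_const.mul contDiff_id)

theorem contDiff_sink (k : ℝ) : ContDiff ℝ ∞ (fun x : ℝ => Real.sin (k * x)) :=
  Real.contDiff_sin.comp (contDiff_const.mul contDiff_id)

theorem isTest_osc {φ : ℝ → ℝ} (hφ : IsTest φ) (k : ℝ) : IsTest (osc φ k) :=
  ⟨hφ.1.mul (contDiff_cosk k), hφ.2.mul_right⟩

theorem isTest_sin {φ : ℝ → ℝ} (hφ : IsTest φ) (k : ℝ) :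
    IsTest (fun x => φ x * Real.sin (k * x)) :=
  ⟨hφ.1.mul (contDiff_sink k), hφ.2.mul_right⟩

theorem hasDerivAt_test {φ : ℝ → ℝ} (hφ : IsTest φ) (x : ℝ) : HasDerivAt φ (deriv φ x) x :=
  ((hφ.1.differentiable (by simp)) x).hasDerivAt

theorem hasDerivAt_cosk (k x : ℝ) :
    HasDerivAt (fun x : ℝ => Real.cos (k * x)) (-(k * Real.sin (k * x))) x := by
  have h1 : HasDerivAt (fun x : ℝ => k * x) k x := by
    simpa using (hasDerivAt_id x).const_mul k
  exact ((Real.hasDerivAt_cos (k * x)).comp x h1).congr_deriv (by ring)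

theorem hasDerivAt_sink (k x : ℝ) :
    HasDerivAt (fun x : ℝ => Real.sin (k * x)) (k * Real.cos (k * x)) x := by
  have h1 : HasDerivAt (fun x : ℝ => k * x) k x := by
    simpa using (hasDerivAt_id x).const_mul k
  exact ((Real.hasDerivAt_sin (k * x)).comp x h1).congr_deriv (by ring)

theorem deriv_osc {φ : ℝ → ℝ} (hφ : IsTest φ) (k x : ℝ) :
    deriv (osc φ k) x = deriv φ x * Real.cos (k * x) - k * (φ x * Real.sin (k * x)) := by
  have := ((hasDerivAt_test hφ x).mul (hasDerivAt_cosk k x)).deriv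
  have h2 : deriv (osc φ k) x = deriv (φ * fun x => Real.cos (k * x)) x := rfl
  rw [h2, this]; ring

theorem deriv_osc_sin {φ : ℝ → ℝ} (hφ : IsTest φ) (k x : ℝ) :
    deriv (fun x => φ x * Real.sin (k * x)) x
      = deriv φ x * Real.sin (k * x) + k * osc φ k x := by
  have := ((hasDerivAt_test hφ x).mul (hasDerivAt_sink k x)).deriv
  have h2 : deriv (fun x => φ x * Real.sin (k * x)) x
    = deriv (φ * fun x => Real.sin (k * x)) x := rfl
  rw [h2, this, osc]; ring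

theorem abs_osc_le (φ : ℝ → ℝ) (k x : ℝ) : |osc φ k x| ≤ |φ x| := by
  rw [osc, abs_mul]
  exact mul_le_of_le_one_right (abs_nonneg _) (Real.abs_cos_le_one _)

theorem abs_sin_le (φ : ℝ → ℝ) (k x : ℝ) : |φ x * Real.sin (k * x)| ≤ |φ x| := by
  rw [abs_mul]
  exact mul_le_of_le_one_right (abs_nonneg _) (Real.abs_sin_le_one _)

theorem norm_tl_le {φ ψ : ℝ → ℝ} (hφ : IsTest φ) (hψ : IsTest ψ) (h : ∀ x, |φ x| ≤ |ψ x|) :
    ‖tl hφ‖ ≤ ‖tl hψ‖ := by
  apply Lp.norm_le_norm_of_ae_le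
  filter_upwards [coeFn_tl hφ, coeFn_tl hψ] with x h1 h2
  rw [h1, h2, Real.norm_eq_abs, Real.norm_eq_abs]
  exact h x

theorem tsupport_osc_subset (φ : ℝ → ℝ) (k : ℝ) : tsupport (osc φ k) ⊆ tsupport φ :=
  tsupport_mul_subset_left

/-- the oscillating pairing of an `H¹` function is `O(1/k)`. -/
theorem abs_osc_pair_le {φ : ℝ → ℝ} (hφ : IsTest φ) {k : ℝ} (hk : 0 < k) {z z' : L2}
    (hz : IsWeakDeriv z z') {N : ℝ} (h1 : ‖z‖ ≤ N) (h2 : ‖z'‖ ≤ N) :
    |∫ x, z x * osc φ k x| ≤ (‖tl hφ‖ + ‖tl hφ.deriv‖) * N / k := by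
  have hs := isTest_sin hφ k
  have hs' := isTest_sin hφ.deriv k
  have e0 := hz _ hs
  have e1 : ∫ x, z x * deriv (fun x => φ x * Real.sin (k * x)) x
      = (∫ x, z x * (deriv φ x * Real.sin (k * x))) + k * ∫ x, z x * osc φ k x := by
    rw [← integral_const_mul, ← integral_add (hs'.integrable_mul z)
      (((isTest_osc hφ k).integrable_mul z).const_mul k)]
    congr 1; funext x
    rw [deriv_osc_sin hφ]; ring
  rw [e1] at e0
  have b1 : |∫ x, z' x * (φ x * Real.sin (k * x))| ≤ ‖tl hφ‖ * N :=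
    (abs_pair_le hs z').trans (mul_le_mul (norm_tl_le hs hφ (abs_sin_le φ k)) h2
      (norm_nonneg _) (norm_nonneg _))
  have b2 : |∫ x, z x * (deriv φ x * Real.sin (k * x))| ≤ ‖tl hφ.deriv‖ * N :=
    (abs_pair_le hs' z).trans (mul_le_mul (norm_tl_le hs' hφ.deriv (abs_sin_le _ k)) h1
      (norm_nonneg _) (norm_nonneg _))
  rw [le_div_iff₀ hk]
  have b3 : |∫ x, z x * osc φ k x| * k = |k * ∫ x, z x * osc φ k x| := by
    rw [abs_mul, abs_of_pos hk, mul_comm]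
  rw [b3]
  have c1 := abs_le.1 b1
  have c2 := abs_le.1 b2
  rw [abs_le]
  constructor <;> linarith

/-- The oscillation of the initial velocity is controlled by the size of the solution. -/
theorem osc_data_le {φ : ℝ → ℝ} (hφ : IsTest φ) : ∃ C : ℝ, 0 < C ∧ ∀ (T : ℝ) (p : X) (W : ℝ → X)
    (N : ℝ) (n : ℕ), 1 ≤ n → IsWeakSolution (Icc 0 T) p W → 1 / (n : ℝ) ^ 2 ≤ T →
    (∀ᵐ x, x ∈ tsupport φ → w p x = 0) → (∀ σ ∈ Icc 0 (1 / (n : ℝ) ^ 2), ‖W σ‖ ≤ N) →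
    |∫ x, wt p x * osc φ ((n : ℝ) ^ 3) x| ≤ C * (N + N ^ 2) / n := by
  obtain ⟨M0, hM00, hM0⟩ := exists_bound hφ
  obtain ⟨M1, hM10, hM1⟩ := exists_bound hφ.deriv
  set M2 := ‖tl hφ‖ with hM2
  set M3 := ‖tl hφ.deriv‖ with hM3
  have hM20 : 0 ≤ M2 := norm_nonneg _
  have hM30 : 0 ≤ M3 := norm_nonneg _
  refine ⟨12 * (M2 + M3) + 3 * (M0 + M1) + 1, by positivity, ?_⟩
  intro T p W N n hn hW hnT h0 hN
  have hn1 : (1 : ℝ) ≤ n := by exact_mod_cast hn
  have hn0 : (0 : ℝ) < n := by linarith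
  have hN0 : 0 ≤ N := (norm_nonneg _).trans (hN 0 ⟨le_rfl, by positivity⟩)
  set k : ℝ := (n : ℝ) ^ 3 with hk
  have hk0 : 0 < k := by positivity
  have hk1 : 1 ≤ k := one_le_pow₀ hn1
  set τ : ℝ := 1 / (n : ℝ) ^ 2 with hτ
  have hτ0 : 0 < τ := by positivity
  have hτ1 : τ ≤ 1 := by
    rw [hτ, div_le_one (by positivity)]; exact one_le_pow₀ hn1
  have hT : 0 < T := hτ0.trans_le hnT
  have ho := isTest_osc hφ k
  have hda : ∀ x, |deriv (osc φ k) x| ≤ k * (M0 + M1) := by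
    intro x
    rw [deriv_osc hφ]
    have h1 := abs_osc_le (deriv φ) k x
    have h2 := abs_sin_le φ k x
    rw [osc] at h1
    have h3 := hM0 x
    have h4 := hM1 x
    calc |deriv φ x * Real.cos (k * x) - k * (φ x * Real.sin (k * x))|
        ≤ |deriv φ x * Real.cos (k * x)| + |k * (φ x * Real.sin (k * x))| := abs_sub _ _
      _ ≤ M1 + k * M0 := by
          rw [abs_mul k, abs_of_pos hk0]
          have := mul_le_mul_of_nonneg_left (h2.trans h3) hk0.le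
          linarith
      _ ≤ k * (M0 + M1) := by nlinarith
  have hII : ∀ σ ∈ Icc 0 τ, |II W (osc φ k) σ| ≤ (M2 + M3) * N / k := fun σ hσ =>
    abs_osc_pair_le hφ hk0 (W σ).2.1 ((norm_u_le W σ).trans (hN σ hσ))
      ((norm_ux_le W σ).trans (hN σ hσ))
  have key := key_estimate hT hW ho (τ := τ) ⟨hτ0.le, hnT⟩ hτ1 (by
      filter_upwards [h0] with x hx hx2
      exact hx (tsupport_osc_subset φ k hx2)) hN
    (fun x => (abs_osc_le φ k x).trans (hM0 x)) hda (norm_tl_le ho hφ (abs_osc_le φ k)) hII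
  rw [le_div_iff₀ hn0]
  set J : ℝ := |∫ x, wt p x * osc φ k x| with hJ
  have hJ0 : 0 ≤ J := abs_nonneg _
  -- multiply by `n ^ 3`
  have e1 : τ * J * n ^ 3 = J * n := by
    rw [hτ]; field_simp
  have e2 : 6 * ((M2 + M3) * N / k) * n ^ 3 = 6 * ((M2 + M3) * N) := by
    rw [hk]; field_simp
  have e3 : τ ^ 3 * (k * (M0 + M1) * N ^ 2 + 2 * M0 * N ^ 2 + 6 * M2 * N) * n ^ 3
      = (k * (M0 + M1) * N ^ 2 + 2 * M0 * N ^ 2 + 6 * M2 * N) / k := by
    rw [hτ, hk]; field_simp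
  have e4 : (k * (M0 + M1) * N ^ 2 + 2 * M0 * N ^ 2 + 6 * M2 * N) / k
      ≤ (M0 + M1) * N ^ 2 + 2 * M0 * N ^ 2 + 6 * M2 * N := by
    rw [div_le_iff₀ hk0]
    have : 0 ≤ 2 * M0 * N ^ 2 + 6 * M2 * N := by positivity
    nlinarith
  have e5 := mul_le_mul_of_nonneg_right key (by positivity : (0 : ℝ) ≤ n ^ 3)
  rw [e1, add_mul, e2, ← hM2, e3] at e5
  refine (e5.trans (add_le_add le_rfl e4)).trans ?_
  have g1 : 0 ≤ M2 * N := by positivity
  have g2 : 0 ≤ M3 * N := by positivity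
  have g3 : 0 ≤ M0 * N := by positivity
  have g4 : 0 ≤ M1 * N := by positivity
  have g5 : 0 ≤ M2 * N ^ 2 := by positivity
  have g6 : 0 ≤ M3 * N ^ 2 := by positivity
  have g7 : 0 ≤ M0 * N ^ 2 := by positivity
  have g8 : 0 ≤ M1 * N ^ 2 := by positivity
  have g9 : 0 ≤ N ^ 2 := by positivity
  nlinarith

end H59.Wave
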