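import Pool.Agent.H59.WaveKey
import Pool.Agent.H59.WaveCut

open MeasureTheory Set Filter Topology
open scoped ContDiff

namespace H59.Wave

/-! ### restriction of solutions -/

theorem setIntegral_eq_of_test {T : ℝ} (hT : 0 < T) {F : ℝ → ℝ} (h : ∀ τ, τ ∉ Ioo 0 T → F τ = 0) :
    ∫ τ in Ici 0, F τ = ∫ τ in Icc 0 T, F τ := by
  apply setIntegral_eq_of_subset_of_forall_sdiff_eq_zero measurableSet_Ici Icc_subset_Ici_self
  intro τ hτ
  exact h τ fun hc => hτ.2 ⟨hc.1.le, hc.2.le⟩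

theorem IsWeakSolution.restrict {p : X} {W : ℝ → X} (h : IsWeakSolution (Ici 0) p W) {T : ℝ}
    (hT : 0 < T) : IsWeakSolution (Icc 0 T) p W := by
  have hsub : (univ : Set ℝ) ×ˢ interior (Icc 0 T) ⊆ univ ×ˢ interior (Ici 0) :=
    prod_mono le_rfl (interior_mono Icc_subset_Ici_self)
  have hev : ∀ φ : ℝ → ℝ → ℝ,
      tsupport (fun q : ℝ × ℝ => φ q.1 q.2) ⊆ univ ×ˢ interior (Icc 0 T) →
      ∀ x τ, τ ∉ Ioo 0 T → (fun q : ℝ × ℝ => φ q.1 q.2) =ᶠ[𝓝 (x, τ)] 0 := by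
    intro φ hφ x τ hτ
    rw [← notMem_tsupport_iff_eventuallyEq]
    intro hc
    have := (hφ hc).2
    rw [interior_Icc] at this
    exact hτ this
  have hs : ∀ (φ : ℝ → ℝ → ℝ) (x τ : ℝ), (fun q : ℝ × ℝ => φ q.1 q.2) =ᶠ[𝓝 (x, τ)] 0 →
      (fun s => φ x s) =ᶠ[𝓝 τ] fun _ => 0 := by
    intro φ x τ he
    have : Tendsto (fun s : ℝ => (x, s)) (𝓝 τ) (𝓝 (x, τ)) :=
      (Continuous.prodMk_right x).tendsto τ
    exact this.eventually he
  have hy : ∀ (φ : ℝ → ℝ → ℝ) (x τ : ℝ), (fun q : ℝ × ℝ => φ q.1 q.2) =ᶠ[𝓝 (x, τ)] 0 →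
      (fun y => φ y τ) =ᶠ[𝓝 x] fun _ => 0 := by
    intro φ x τ he
    have : Tendsto (fun s : ℝ => (s, τ)) (𝓝 x) (𝓝 (x, τ)) :=
      (Continuous.prodMk_left τ).tendsto x
    exact this.eventually he
  have d1 : ∀ (φ : ℝ → ℝ → ℝ) (x τ : ℝ), (fun q : ℝ × ℝ => φ q.1 q.2) =ᶠ[𝓝 (x, τ)] 0 →
      φ x τ = 0 ∧ deriv (fun s => φ x s) τ = 0 ∧ deriv (deriv (fun s => φ x s)) τ = 0 ∧
      deriv (fun y => φ y τ) x = 0 := by
    intro φ x τ he
    have e1 := hs φ x τ he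
    have e2 := hy φ x τ he
    have e3 : deriv (fun s => φ x s) =ᶠ[𝓝 τ] fun _ => 0 := by
      have := e1.deriv
      simpa using this
    refine ⟨e1.eq_of_nhds, e3.eq_of_nhds, ?_, ?_⟩
    · rw [e3.deriv_eq]; simp
    · rw [e2.deriv_eq]; simp
  refine ⟨h.cont.mono Icc_subset_Ici_self, h.init, ?_, ?_⟩
  · intro φ h1 h2 h3
    have := h.time_deriv φ h1 h2 (h3.trans hsub)
    rwa [setIntegral_eq_of_test hT, setIntegral_eq_of_test hT] at this
    · intro τ hτ
      have : ∀ x, wt (W τ) x * φ x τ = 0 := fun x => by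
        rw [(d1 φ x τ (hev φ h3 x τ hτ)).1, mul_zero]
      simp only [this, integral_zero]
    · intro τ hτ
      have : ∀ x, w (W τ) x * deriv (fun s => φ x s) τ = 0 := fun x => by
        rw [(d1 φ x τ (hev φ h3 x τ hτ)).2.1, mul_zero]
      simp only [this, integral_zero]
  · intro φ h1 h2 h3
    have := h.eqn φ h1 h2 (h3.trans hsub)
    rwa [setIntegral_eq_of_test hT] at this
    intro τ hτ
    have : ∀ x, (w (W τ) x * deriv (deriv (fun s => φ x s)) τ
      - 5 * w (W τ) x * deriv (fun s => φ x s) τ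
      + w (W τ) x * wx (W τ) x * deriv (fun y => φ y τ) x
      - (2 * w (W τ) x ^ 2 - 6 * w (W τ) x) * φ x τ) = 0 := fun x => by
        obtain ⟨a, b, c, d⟩ := d1 φ x τ (hev φ h3 x τ hτ)
        rw [a, b, c, d]; ring
    simp only [this, integral_zero]

/-! ### lower bound for the oscillating functions -/

theorem norm_sq_tl {φ : ℝ → ℝ} (hφ : IsTest φ) : ‖tl hφ‖ ^ 2 = ∫ x, φ x * φ x := by
  rw [← real_inner_self_eq_norm_sq, inner_eq]
  refine integral_congr_ae ?_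
  filter_upwards [coeFn_tl hφ] with x hx
  rw [hx]

theorem integral_sq_pos {φ : ℝ → ℝ} (hφ : IsTest φ) (h : ∃ x, φ x ≠ 0) :
    0 < ∫ x, φ x * φ x := by
  obtain ⟨x, hx⟩ := h
  have hc : Continuous fun x => φ x * φ x := hφ.1.continuous.mul hφ.1.continuous
  apply hc.integral_pos_of_hasCompactSupport_nonneg_nonzero (x := x) hφ.2.mul_left
  · intro y; exact mul_self_nonneg _
  · exact mul_self_ne_zero.2 hx

theorem exists_osc_lower {φ : ℝ → ℝ} (hφ : IsTest φ) (h : ∃ x, φ x ≠ 0) :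
    ∃ m : ℝ, 0 < m ∧ ∃ n0 : ℕ, ∀ n : ℕ, n0 ≤ n →
      m ≤ ∫ x, osc φ ((n : ℝ) ^ 3) x * osc φ ((n : ℝ) ^ 3) x := by
  set Q : ℝ := ∫ x, φ x * φ x with hQ
  have hQ0 : 0 < Q := integral_sq_pos hφ h
  set C : ℝ := (‖tl hφ‖ + ‖tl hφ.deriv‖) * (‖tl hφ‖ + ‖tl hφ.deriv‖) with hC
  have hC0 : 0 ≤ C := by positivity
  obtain ⟨n0, hn0⟩ := exists_nat_gt (2 * C / Q + 1)
  refine ⟨Q / 4, by positivity, n0, fun n hn => ?_⟩
  have hn1 : 2 * C / Q + 1 < n := hn0.trans_le (by exact_mod_cast hn)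
  have hn2 : (1 : ℝ) < n := by
    have : 0 ≤ 2 * C / Q := by positivity
    linarith
  set k : ℝ := (n : ℝ) ^ 3 with hk
  have hkn : (n : ℝ) ≤ k := by
    rw [hk]
    calc (n : ℝ) = n ^ 1 := (pow_one _).symm
      _ ≤ n ^ 3 := pow_le_pow_right₀ hn2.le (by norm_num)
  have hk0 : 0 < k := by linarith
  have hwd : IsWeakDeriv (tl hφ) (tl hφ.deriv) := isWeakDeriv_toLp _ _ (hasDerivAt_test hφ)
  have h1 := abs_osc_pair_le hφ (k := 2 * k) (by positivity) hwd
    (N := ‖tl hφ‖ + ‖tl hφ.deriv‖) (by linarith [norm_nonneg (tl hφ.deriv)])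
    (by linarith [norm_nonneg (tl hφ)])
  have e1 : ∫ x, tl hφ x * osc φ (2 * k) x = ∫ x, φ x * osc φ (2 * k) x := by
    refine integral_congr_ae ?_
    filter_upwards [coeFn_tl hφ] with x hx
    rw [hx]
  rw [e1, ← hC] at h1
  have i1 : Integrable (fun x => φ x * φ x) :=
    (hφ.1.continuous.mul hφ.1.continuous).integrable_of_hasCompactSupport hφ.2.mul_left
  have i2 : Integrable (fun x => φ x * osc φ (2 * k) x) :=
    (hφ.1.continuous.mul (isTest_osc hφ _).1.continuous).integrable_of_hasCompactSupport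
      hφ.2.mul_right
  have e2 : ∫ x, osc φ k x * osc φ k x = 1 / 2 * Q + 1 / 2 * ∫ x, φ x * osc φ (2 * k) x := by
    rw [hQ, ← integral_const_mul, ← integral_const_mul,
      ← integral_add (i1.const_mul _) (i2.const_mul _)]
    congr 1; funext x
    have : Real.cos (2 * k * x) = 2 * Real.cos (k * x) ^ 2 - 1 := by
      rw [show 2 * k * x = 2 * (k * x) by ring, Real.cos_two_mul]
    simp only [osc]
    rw [this]; ring
  rw [e2]
  have h2 : C / (2 * k) ≤ Q / 2 := by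
    rw [div_le_iff₀ (by positivity)]
    have h3 : 2 * C / Q < k := by linarith
    rw [div_lt_iff₀ hQ0] at h3
    nlinarith
  have h4 := (abs_le.1 (h1.trans h2)).1
  linarith

/-! ### special points of the phase space -/

/-- the truncated stationary point -/
noncomputable def Pe (ε : ℝ) : X :=
  mk (gam ε) (gam' ε) (fun _ => 0) ((sup_gam ε).memLp (continuous_gam ε))
    ((sup_gam' ε).memLp (continuous_gam' ε)) MemLp.zero'
    (hasDerivAt_gam ε) (gam_even ε) (fun _ => rfl)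

/-- the truncated direction -/
noncomputable def Ee (ε : ℝ) : X :=
  mk (gam ε) (gam' ε) (gam ε) ((sup_gam ε).memLp (continuous_gam ε))
    ((sup_gam' ε).memLp (continuous_gam' ε)) ((sup_gam ε).memLp (continuous_gam ε))
    (hasDerivAt_gam ε) (gam_even ε) (gam_even ε)

/-- a velocity perturbation -/
noncomputable def vel (z : L2) (hz : IsEven z) : X :=
  ⟨(0, 0, z), isWeakDeriv_zero, isEven_zero, hz⟩

theorem norm_vel (z : L2) (hz : IsEven z) : ‖vel z hz‖ = ‖z‖ := by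
  show ‖((0, 0, z) : L2 × L2 × L2)‖ = ‖z‖
  rw [Prod.norm_mk, Prod.norm_mk, norm_zero]
  simp

theorem norm_toLp_sub_le {K : ℝ} (hK : ∀ (f : ℝ → ℝ) (hf : MemLp f 2 volume) (C : ℝ),
    Sup f → (∀ x, |f x| ≤ C) → ‖hf.toLp f‖ ≤ K * C) {a b : ℝ → ℝ} (ha : MemLp a 2 volume)
    (hb : MemLp b 2 volume) (hsa : Sup a) (hsb : Sup b) {C : ℝ} (h : ∀ x, |a x - b x| ≤ C) :
    ‖ha.toLp a - hb.toLp b‖ ≤ K * C := by
  rw [← MemLp.toLp_sub]
  refine hK _ _ C ?_ h
  intro x hx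
  show a x - b x = 0
  rw [hsa x hx, hsb x hx, sub_zero]

theorem tendsto_Pe_Ee : ∀ γ > 0, ∃ ε : ℝ, 0 < ε ∧ ‖Pe ε - P‖ < γ ∧ ‖Ee ε - E‖ < γ := by
  intro γ hγ
  obtain ⟨K, hK0, hK⟩ := exists_norm_toLp_le
  obtain ⟨L, hL0, hL⟩ := exists_abs_gam'_sub_le
  -- choose `ε`
  have hlim : Tendsto (fun ε : ℝ => K * (2 * ε) + K * (L * Real.sqrt ε)) (𝓝[>] 0) (𝓝 0) := by
    have : Tendsto (fun ε : ℝ => K * (2 * ε) + K * (L * Real.sqrt ε)) (𝓝 0)
        (𝓝 (K * (2 * 0) + K * (L * Real.sqrt 0))) := by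
      apply Continuous.tendsto
      fun_prop
    rw [Real.sqrt_zero] at this
    simp only [mul_zero, add_zero] at this
    exact this.mono_left nhdsWithin_le_nhds
  have hev := (hlim.eventually (gt_mem_nhds hγ)).and self_mem_nhdsWithin
  obtain ⟨ε, h1, h2⟩ := hev.exists
  have hε : 0 < ε := h2
  have b1 : ‖((sup_gam ε).memLp (continuous_gam ε)).toLp (gam ε)
      - (sup_g.memLp continuous_g).toLp g‖ ≤ K * (2 * ε) :=
    norm_toLp_sub_le hK _ _ (sup_gam ε) sup_g (abs_gam_sub_le hε)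
  have b2 : ‖((sup_gam' ε).memLp (continuous_gam' ε)).toLp (gam' ε)
      - (sup_g'.memLp continuous_g').toLp g'‖ ≤ K * (L * Real.sqrt ε) :=
    norm_toLp_sub_le hK _ _ (sup_gam' ε) sup_g' (hL ε hε)
  have n1 : 0 ≤ K * (2 * ε) := by positivity
  have n2 : 0 ≤ K * (L * Real.sqrt ε) := by positivity
  refine ⟨ε, hε, ?_, ?_⟩
  · refine lt_of_le_of_lt ?_ h1
    show ‖val (Pe ε) - val P‖ ≤ _
    rw [Prod.norm_def, Prod.norm_def]
    refine max_le ?_ (max_le ?_ ?_)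
    · exact b1.trans (by linarith)
    · exact b2.trans (by linarith)
    · show ‖(MemLp.zero' (p := 2) (μ := (volume : Measure ℝ))).toLp (fun _ => (0 : ℝ))
        - (MemLp.zero' (p := 2) (μ := (volume : Measure ℝ))).toLp (fun _ => (0 : ℝ))‖ ≤ _
      rw [sub_self, norm_zero]
      linarith
  · refine lt_of_le_of_lt ?_ h1
    show ‖val (Ee ε) - val E‖ ≤ _
    rw [Prod.norm_def, Prod.norm_def]
    refine max_le ?_ (max_le ?_ ?_)
    · exact b1.trans (by linarith)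
    · exact b2.trans (by linarith)
    · exact b1.trans (by linarith)

/-- the family of data -/
noncomputable def dat (ε c : ℝ) (z : L2) (hz : IsEven z) : X := Pe ε + c • Ee ε + vel z hz

theorem w_dat (ε c : ℝ) (z : L2) (hz : IsEven z) :
    w (dat ε c z hz) =ᵐ[volume] fun x => (1 + c) * gam ε x := by
  set G : L2 := ((sup_gam ε).memLp (continuous_gam ε)).toLp (gam ε) with hG
  have hGe : G =ᵐ[volume] gam ε := MemLp.coeFn_toLp _
  have e : w (dat ε c z hz) = ((G + c • G + 0 : L2) : ℝ → ℝ) := rfl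
  rw [e]
  filter_upwards [hGe, Lp.coeFn_add (G + c • G) 0, Lp.coeFn_add G (c • G), Lp.coeFn_smul c G,
    Lp.coeFn_zero ℝ 2 (volume : Measure ℝ)] with x h1 h2 h3 h4 h5
  rw [h2, Pi.add_apply, h3, Pi.add_apply, h4, Pi.smul_apply, h5, h1, smul_eq_mul, Pi.zero_apply]
  ring

theorem wt_dat (ε c : ℝ) (z : L2) (hz : IsEven z) :
    wt (dat ε c z hz) =ᵐ[volume] fun x => c * gam ε x + z x := by
  set G : L2 := ((sup_gam ε).memLp (continuous_gam ε)).toLp (gam ε) with hG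
  have hGe : G =ᵐ[volume] gam ε := MemLp.coeFn_toLp _
  set Z : L2 := (MemLp.zero' (p := 2) (μ := (volume : Measure ℝ))).toLp (fun _ => (0 : ℝ)) with hZ
  have hZe : Z =ᵐ[volume] fun _ => (0 : ℝ) := MemLp.coeFn_toLp _
  have e : wt (dat ε c z hz) = ((Z + c • G + z : L2) : ℝ → ℝ) := rfl
  rw [e]
  filter_upwards [hGe, hZe, Lp.coeFn_add (Z + c • G) z, Lp.coeFn_add Z (c • G),
    Lp.coeFn_smul c G] with x h1 h2 h3 h4 h5
  rw [h3, Pi.add_apply, h4, Pi.add_apply, h5, Pi.smul_apply, h2, h1, smul_eq_mul]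
  ring

/-! ### hitting the hypersurface -/

theorem exists_mem_hypersurface {M : Set X} (hT : IsTransversalAt M P E) (hP : P ∈ M) {δ : ℝ}
    (hδ : 0 < δ) : ∃ γ > 0, ∀ P' E' H : X, ‖P' - P‖ < γ → ‖E' - E‖ < γ → ‖H‖ < γ →
      ∃ c : ℝ, |c| ≤ 1 / 2 ∧ P' + c • E' + H ∈ M ∧ ‖P' + c • E' + H - P‖ < δ := by
  obtain ⟨V, Φ, hΦ, ha⟩ := hT
  have hPV : P ∈ V := hΦ.mem
  have hΦP : Φ P = 0 := by
    have : P ∈ M ∩ V := ⟨hP, hPV⟩
    rw [hΦ.zero_set] at this
    exact this.2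
  obtain ⟨ρ, hρ, hball⟩ := Metric.isOpen_iff.1 hΦ.isOpen P hPV
  have hdiff : DifferentiableAt ℝ Φ P :=
    (hΦ.contDiffOn.contDiffAt (hΦ.isOpen.mem_nhds hPV)).differentiableAt (by simp)
  set a : ℝ := fderiv ℝ Φ P E with haa
  -- the derivative along the line
  have hline : HasDerivAt (fun r : ℝ => Φ (P + r • E)) a 0 := by
    have h1 : HasDerivAt (fun r : ℝ => P + r • E) E 0 := by
      have := ((hasDerivAt_id (0 : ℝ)).smul_const E).const_add P
      simpa using this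
    have h2 : HasFDerivAt Φ (fderiv ℝ Φ P) (P + (0 : ℝ) • E) := by
      rw [zero_smul, add_zero]; exact hdiff.hasFDerivAt
    exact h2.comp_hasDerivAt 0 h1
  -- sign change
  have hsign : ∀ᶠ r in 𝓝[>] (0 : ℝ), Φ (P + r • E) * a > 0 ∧ Φ (P + (-r) • E) * a < 0 := by
    have h0 : Φ (P + (0 : ℝ) • E) = 0 := by
      rw [zero_smul, add_zero, hΦP]
    have ha2 : 0 < a * a := mul_self_pos.2 ha
    have hslope := hasDerivAt_iff_tendsto_slope.1 hline
    have hs2 : Tendsto (fun r => slope (fun r : ℝ => Φ (P + r • E)) 0 r * a) (𝓝[≠] 0)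
        (𝓝 (a * a)) := hslope.mul_const a
    have hs3 : ∀ᶠ r in 𝓝[≠] (0 : ℝ), 0 < slope (fun r : ℝ => Φ (P + r • E)) 0 r * a :=
      hs2.eventually (lt_mem_nhds ha2)
    have hR : ∀ᶠ r in 𝓝[>] (0 : ℝ), 0 < slope (fun r : ℝ => Φ (P + r • E)) 0 r * a :=
      hs3.filter_mono (nhdsWithin_mono _ fun r hr => (ne_of_gt hr))
    have hneg : Tendsto (fun r : ℝ => -r) (𝓝[>] 0) (𝓝[≠] 0) := by
      apply tendsto_nhdsWithin_iff.2 ⟨?_, ?_⟩
      · have : Tendsto (fun r : ℝ => -r) (𝓝 0) (𝓝 (-0)) := (continuous_neg).tendsto 0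
        rw [neg_zero] at this
        exact this.mono_left nhdsWithin_le_nhds
      · filter_upwards [self_mem_nhdsWithin] with r hr
        have : (0 : ℝ) < r := hr
        show -r ≠ 0
        linarith
    have hL : ∀ᶠ r in 𝓝[>] (0 : ℝ), 0 < slope (fun r : ℝ => Φ (P + r • E)) 0 (-r) * a :=
      hneg.eventually hs3
    filter_upwards [hR, hL, self_mem_nhdsWithin] with r h1 h2 h3
    have hr : (0 : ℝ) < r := h3
    rw [slope_def_field, h0, sub_zero, sub_zero] at h1 h2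
    constructor
    · have : Φ (P + r • E) * a = (Φ (P + r • E) / r * a) * r := by field_simp
      rw [this]; exact mul_pos h1 hr
    · have : Φ (P + (-r) • E) * a = -((Φ (P + (-r) • E) / (-r) * a) * r) := by field_simp
      rw [this]; exact neg_neg_of_pos (mul_pos h2 hr)
  set R : ℝ := min (min ρ δ / (2 * (‖E‖ + 1))) (1 / 2) with hR
  have hE0 : 0 ≤ ‖E‖ := norm_nonneg _
  have hR0 : 0 < R := by
    rw [hR]; apply lt_min _ (by norm_num)
    have := lt_min hρ hδ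
    positivity
  have hsmall : ∀ᶠ r in 𝓝[>] (0 : ℝ), r < R :=
    (gt_mem_nhds hR0 : ∀ᶠ r in 𝓝 (0 : ℝ), r < R).filter_mono nhdsWithin_le_nhds
  obtain ⟨r, ⟨hs1, hs2⟩, hrR, hr0'⟩ := (hsign.and (hsmall.and self_mem_nhdsWithin)).exists
  have hr0 : (0 : ℝ) < r := hr0'
  have hr2 : r ≤ 1 / 2 := (hrR.trans_le (min_le_right _ _)).le
  have hrE : r * ‖E‖ < min ρ δ / 2 := by
    have h1 : r < min ρ δ / (2 * (‖E‖ + 1)) := hrR.trans_le (min_le_left _ _)
    rw [lt_div_iff₀ (by positivity)] at h1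
    nlinarith
  -- continuity of `Φ` at the endpoints
  have hcont : ∀ q ∈ Metric.ball P ρ, ContinuousAt Φ q := fun q hq =>
    (hΦ.contDiffOn.continuousOn).continuousAt (hΦ.isOpen.mem_nhds (hball hq))
  have hq : ∀ c : ℝ, |c| ≤ r → P + c • E ∈ Metric.ball P ρ := by
    intro c hc
    rw [Metric.mem_ball, dist_eq_norm, add_sub_cancel_left, norm_smul, Real.norm_eq_abs]
    have : |c| * ‖E‖ ≤ r * ‖E‖ := mul_le_mul_of_nonneg_right hc hE0
    have := min_le_left ρ δ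
    linarith [lt_min hρ hδ]
  have hc1 := hcont _ (hq r (abs_of_pos hr0).le)
  have hc2 := hcont _ (hq (-r) (by rw [abs_neg, abs_of_pos hr0]))
  have hn1 : ∀ᶠ q in 𝓝 (P + r • E), Φ q * a > 0 :=
    (hc1.mul continuousAt_const).eventually (lt_mem_nhds hs1)
  have hn2 : ∀ᶠ q in 𝓝 (P + (-r) • E), Φ q * a < 0 :=
    (hc2.mul continuousAt_const).eventually (gt_mem_nhds hs2)
  obtain ⟨γ1, hγ1, hb1⟩ := Metric.eventually_nhds_iff.1 hn1
  obtain ⟨γ2, hγ2, hb2⟩ := Metric.eventually_nhds_iff.1 hn2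
  refine ⟨min (min γ1 γ2 / 3) (min ρ δ / 6), ?_, ?_⟩
  · have := lt_min hγ1 hγ2
    have := lt_min hρ hδ
    apply lt_min <;> positivity
  intro P' E' H hP' hE' hH
  set γ := min (min γ1 γ2 / 3) (min ρ δ / 6) with hγ
  have hclose : ∀ c : ℝ, |c| ≤ r → ‖(P' + c • E' + H) - (P + c • E)‖ < 3 * γ := by
    intro c hc
    have e : (P' + c • E' + H) - (P + c • E) = (P' - P) + c • (E' - E) + H := by
      rw [smul_sub]; abel
    rw [e]
    have h1 : ‖c • (E' - E)‖ ≤ ‖E' - E‖ := by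
      rw [norm_smul, Real.norm_eq_abs]
      exact mul_le_of_le_one_left (norm_nonneg _) (by linarith)
    calc ‖(P' - P) + c • (E' - E) + H‖ ≤ ‖P' - P‖ + ‖c • (E' - E)‖ + ‖H‖ :=
          (norm_add_le _ _).trans (add_le_add_left (norm_add_le _ _) _)
      _ < 3 * γ := by linarith
  have hγ12 : 3 * γ ≤ min γ1 γ2 := by
    have : γ ≤ min γ1 γ2 / 3 := min_le_left _ _
    linarith
  have hγρ : 3 * γ ≤ min ρ δ / 2 := by
    have : γ ≤ min ρ δ / 6 := min_le_right _ _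
    linarith
  have hdist : ∀ c : ℝ, |c| ≤ r → ‖(P' + c • E' + H) - P‖ < min ρ δ := by
    intro c hc
    have e : (P' + c • E' + H) - P = ((P' + c • E' + H) - (P + c • E)) + c • E := by abel
    rw [e]
    have h1 := hclose c hc
    have h2 : ‖c • E‖ ≤ r * ‖E‖ := by
      rw [norm_smul, Real.norm_eq_abs]
      exact mul_le_mul_of_nonneg_right hc hE0
    have := norm_add_le ((P' + c • E' + H) - (P + c • E)) (c • E)
    linarith
  -- intermediate values
  set f : ℝ → ℝ := fun c => Φ (P' + c • E' + H) * a with hf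
  have hfc : ContinuousOn f (Icc (-r) r) := by
    intro c hc
    have hcr : |c| ≤ r := abs_le.2 hc
    have h1 : ContinuousAt Φ (P' + c • E' + H) := hcont _ (by
      rw [Metric.mem_ball, dist_eq_norm]
      exact (hdist c hcr).trans_le (min_le_left _ _))
    have h2 : ContinuousAt (fun c : ℝ => P' + c • E' + H) c := by
      apply Continuous.continuousAt; fun_prop
    exact ((ContinuousAt.comp (f := fun c : ℝ => P' + c • E' + H) h1 h2).mul
      continuousAt_const).continuousWithinAt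
  have hfr : 0 < f r := by
    apply hb1
    rw [dist_eq_norm]
    exact (hclose r (abs_of_pos hr0).le).trans_le (hγ12.trans (min_le_left _ _))
  have hfl : f (-r) < 0 := by
    apply hb2
    rw [dist_eq_norm]
    exact (hclose (-r) (by rw [abs_neg, abs_of_pos hr0])).trans_le (hγ12.trans (min_le_right _ _))
  have hivt := intermediate_value_Icc (by linarith : -r ≤ r) hfc
  obtain ⟨c, hc, hfc0⟩ := hivt ⟨hfl.le, hfr.le⟩
  have hcr : |c| ≤ r := abs_le.2 hc
  refine ⟨c, hcr.trans hr2, ?_, (hdist c hcr).trans_le (min_le_right _ _)⟩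
  have hzero : Φ (P' + c • E' + H) = 0 := by
    rcases mul_eq_zero.1 hfc0 with h | h
    · exact h
    · exact absurd h ha
  have hV : P' + c • E' + H ∈ V := hball (by
    rw [Metric.mem_ball, dist_eq_norm]
    exact (hdist c hcr).trans_le (min_le_left _ _))
  have : P' + c • E' + H ∈ {r ∈ V | Φ r = 0} := ⟨hV, hzero⟩
  rw [← hΦ.zero_set] at this
  exact this.1

end H59.Wave
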