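import Pool.Agent.H59.WaveDefs

open MeasureTheory Set Filter Topology
open scoped ContDiff

namespace H59.Wave

theorem exists_norm_toLp_le : ∃ K : ℝ, 0 < K ∧ ∀ (f : ℝ → ℝ) (hf : MemLp f 2 volume) (C : ℝ),
    Sup f → (∀ x, |f x| ≤ C) → ‖hf.toLp f‖ ≤ K * C := by
  set S : Set ℝ := Icc (-Real.pi) Real.pi with hS
  refine ⟨((volume : Measure ℝ) S ^ (1 / 2 : ℝ)).toReal + 1, by positivity, ?_⟩
  intro f hf C hs hC
  have hC0 : 0 ≤ C := (abs_nonneg _).trans (hC 0)
  have hfin : (volume : Measure ℝ) S ^ (1 / 2 : ℝ) ≠ ⊤ := by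
    apply ENNReal.rpow_ne_top_of_nonneg (by norm_num)
    rw [hS, Real.volume_Icc]; exact ENNReal.ofReal_ne_top
  have hsup : Function.support f ⊆ S := by
    intro x hx
    by_contra hc
    apply hx
    apply hs
    by_contra h2
    exact hc (abs_le.1 (not_lt.1 h2))
  have h1 : eLpNorm f 2 volume ≤ (volume : Measure ℝ) S ^ (1 / 2 : ℝ) * ENNReal.ofReal C := by
    rw [← eLpNorm_restrict_eq_of_support_subset hsup]
    have := eLpNorm_le_of_ae_bound (μ := volume.restrict S) (p := 2) (f := f) (C := C)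
      (Eventually.of_forall fun x => by rw [Real.norm_eq_abs]; exact hC x)
    simpa using this
  rw [Lp.norm_toLp]
  have h2 : (eLpNorm f 2 volume).toReal
      ≤ ((volume : Measure ℝ) S ^ (1 / 2 : ℝ) * ENNReal.ofReal C).toReal :=
    ENNReal.toReal_mono (ENNReal.mul_ne_top hfin ENNReal.ofReal_ne_top) h1
  rw [ENNReal.toReal_mul, ENNReal.toReal_ofReal hC0] at h2
  nlinarith

end H59.Wave
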