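import Pool.Agent.H59.WaveTest

open MeasureTheory Set Filter Topology
open scoped ContDiff

namespace H59.Wave

/-- a test function as an element of `L²`. -/
noncomputable def tl {η : ℝ → ℝ} (hη : IsTest η) : L2 :=
  (hη.1.continuous.memLp_of_hasCompactSupport hη.2 : MemLp η 2 volume).toLp η

theorem coeFn_tl {η : ℝ → ℝ} (hη : IsTest η) : tl hη =ᵐ[volume] η := MemLp.coeFn_toLp _

theorem inner_eq (u v : L2) : inner ℝ u v = ∫ x, v x * u x := by
  rw [MeasureTheory.L2.inner_def]
  rfl

theorem pair_eq_inner {η : ℝ → ℝ} (hη : IsTest η) (z : L2) :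
    ∫ x, z x * η x = inner ℝ (tl hη) z := by
  rw [inner_eq]
  refine integral_congr_ae ?_
  filter_upwards [coeFn_tl hη] with x hx
  rw [hx]

theorem abs_pair_le {η : ℝ → ℝ} (hη : IsTest η) (z : L2) :
    |∫ x, z x * η x| ≤ ‖tl hη‖ * ‖z‖ := by
  rw [pair_eq_inner hη]; exact abs_real_inner_le_norm _ _

theorem integrable_mul_L2 (u v : L2) : Integrable (fun x => u x * v x) :=
  MemLp.integrable_mul (p := 2) (q := 2) (Lp.memLp u) (Lp.memLp v)

theorem integral_abs_mul_le (u v : L2) : ∫ x, |u x| * |v x| ≤ ‖u‖ * ‖v‖ := by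
  have h1 : ∫ x, |u x| * |v x| = inner ℝ |v| |u| := by
    rw [inner_eq]
    refine integral_congr_ae ?_
    filter_upwards [Lp.coeFn_abs u, Lp.coeFn_abs v] with x h1 h2
    rw [h1, h2]
  rw [h1]
  have h2 := real_inner_le_norm |v| |u|
  rw [norm_abs_eq_norm, norm_abs_eq_norm] at h2
  linarith [mul_comm ‖u‖ ‖v‖]

theorem integrable_tri {η : ℝ → ℝ} (hη : Continuous η) {C : ℝ} (hC : ∀ x, |η x| ≤ C) (u v : L2) :
    Integrable (fun x => u x * v x * η x) :=
  (integrable_mul_L2 u v).mul_bdd (c := C) hη.aestronglyMeasurable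
    (Eventually.of_forall fun x => by rw [Real.norm_eq_abs]; exact hC x)

theorem abs_tri_le {η : ℝ → ℝ} (hη : Continuous η) {C : ℝ} (hC : ∀ x, |η x| ≤ C) (u v : L2) :
    |∫ x, u x * v x * η x| ≤ C * ‖u‖ * ‖v‖ := by
  have hC0 : 0 ≤ C := (abs_nonneg _).trans (hC 0)
  have h1 : Integrable (fun x => |u x| * |v x|) := by
    have := (integrable_mul_L2 u v).abs
    refine this.congr (Eventually.of_forall fun x => ?_)
    show |u x * v x| = _
    rw [abs_mul]
  calc |∫ x, u x * v x * η x| ≤ ∫ x, |u x * v x * η x| := abs_integral_le_integral_abs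
    _ ≤ ∫ x, C * (|u x| * |v x|) := by
        refine integral_mono (integrable_tri hη hC u v).abs (h1.const_mul C) fun x => ?_
        show |u x * v x * η x| ≤ C * (|u x| * |v x|)
        rw [abs_mul, abs_mul, mul_comm]
        exact mul_le_mul_of_nonneg_right (hC x) (by positivity)
    _ = C * ∫ x, |u x| * |v x| := integral_const_mul _ _
    _ ≤ C * (‖u‖ * ‖v‖) := mul_le_mul_of_nonneg_left (integral_abs_mul_le u v) hC0
    _ = C * ‖u‖ * ‖v‖ := by ring

theorem exists_bound {η : ℝ → ℝ} (hη : IsTest η) : ∃ C : ℝ, 0 ≤ C ∧ ∀ x, |η x| ≤ C := by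
  obtain ⟨C, hC⟩ := hη.1.continuous.bounded_above_of_compact_support hη.2
  exact ⟨C, (norm_nonneg _).trans (hC 0), fun x => by rw [← Real.norm_eq_abs]; exact hC x⟩

theorem isBoundedBilinearMap_tri {η : ℝ → ℝ} (hη : IsTest η) :
    IsBoundedBilinearMap ℝ (fun q : L2 × L2 => ∫ x, q.1 x * q.2 x * η x) := by
  obtain ⟨C, hC0, hC⟩ := exists_bound hη
  have hi := fun u v => integrable_tri hη.1.continuous hC u v
  refine ⟨?_, ?_, ?_, ?_, ?_⟩
  · intro u u' v
    show ∫ x, (u + u' : L2) x * v x * η x = (∫ x, u x * v x * η x) + ∫ x, u' x * v x * η x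
    rw [← integral_add (hi u v) (hi u' v)]
    refine integral_congr_ae ?_
    filter_upwards [Lp.coeFn_add u u'] with x hx
    rw [hx, Pi.add_apply]; ring
  · intro c u v
    show ∫ x, (c • u : L2) x * v x * η x = c * (∫ x, u x * v x * η x)
    rw [← integral_const_mul]
    refine integral_congr_ae ?_
    filter_upwards [Lp.coeFn_smul c u] with x hx
    rw [hx, Pi.smul_apply, smul_eq_mul]; ring
  · intro u v v'
    show ∫ x, u x * (v + v' : L2) x * η x = (∫ x, u x * v x * η x) + ∫ x, u x * v' x * η x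
    rw [← integral_add (hi u v) (hi u v')]
    refine integral_congr_ae ?_
    filter_upwards [Lp.coeFn_add v v'] with x hx
    rw [hx, Pi.add_apply]; ring
  · intro c u v
    show ∫ x, u x * (c • v : L2) x * η x = c * (∫ x, u x * v x * η x)
    rw [← integral_const_mul]
    refine integral_congr_ae ?_
    filter_upwards [Lp.coeFn_smul c v] with x hx
    rw [hx, Pi.smul_apply, smul_eq_mul]; ring
  · exact ⟨C + 1, by positivity, fun u v => by
      rw [Real.norm_eq_abs]
      refine (abs_tri_le hη.1.continuous hC u v).trans ?_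
      have := mul_nonneg (norm_nonneg u) (norm_nonneg v)
      nlinarith⟩

section Solution

variable {T : ℝ} {p : X} {W : ℝ → X}

theorem continuous_val : Continuous val := continuous_subtype_val

theorem norm_val (p : X) : ‖val p‖ = ‖p‖ := rfl

/-- components in `L²` -/
noncomputable def u (W : ℝ → X) (τ : ℝ) : L2 := (val (W τ)).1
noncomputable def ux (W : ℝ → X) (τ : ℝ) : L2 := (val (W τ)).2.1
noncomputable def ut (W : ℝ → X) (τ : ℝ) : L2 := (val (W τ)).2.2

theorem norm_u_le (W : ℝ → X) (τ : ℝ) : ‖u W τ‖ ≤ ‖W τ‖ := by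
  exact norm_fst_le (val (W τ))

theorem norm_ux_le (W : ℝ → X) (τ : ℝ) : ‖ux W τ‖ ≤ ‖W τ‖ :=
  (norm_fst_le (val (W τ)).2).trans (norm_snd_le (val (W τ)))

theorem norm_ut_le (W : ℝ → X) (τ : ℝ) : ‖ut W τ‖ ≤ ‖W τ‖ :=
  (norm_snd_le (val (W τ)).2).trans (norm_snd_le (val (W τ)))

theorem continuousOn_u {s : Set ℝ} (h : ContinuousOn W s) : ContinuousOn (u W) s :=
  (continuous_fst.comp continuous_val).comp_continuousOn h

theorem continuousOn_ux {s : Set ℝ} (h : ContinuousOn W s) : ContinuousOn (ux W) s :=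
  (continuous_fst.comp (continuous_snd.comp continuous_val)).comp_continuousOn h

theorem continuousOn_ut {s : Set ℝ} (h : ContinuousOn W s) : ContinuousOn (ut W) s :=
  (continuous_snd.comp (continuous_snd.comp continuous_val)).comp_continuousOn h

/-- `I` -/
noncomputable def II (W : ℝ → X) (η : ℝ → ℝ) (τ : ℝ) : ℝ := ∫ x, u W τ x * η x
/-- `J` -/
noncomputable def JJ (W : ℝ → X) (η : ℝ → ℝ) (τ : ℝ) : ℝ := ∫ x, ut W τ x * η x
/-- `A` -/
noncomputable def AA (W : ℝ → X) (η : ℝ → ℝ) (τ : ℝ) : ℝ := ∫ x, u W τ x * ux W τ x * deriv η x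
/-- `B` -/
noncomputable def BB (W : ℝ → X) (η : ℝ → ℝ) (τ : ℝ) : ℝ := ∫ x, u W τ x * u W τ x * η x

variable {η : ℝ → ℝ}

theorem continuousOn_II {s : Set ℝ} (h : ContinuousOn W s) (hη : IsTest η) :
    ContinuousOn (II W η) s := by
  have : II W η = fun τ => inner ℝ (tl hη) (u W τ) := funext fun τ => pair_eq_inner hη _
  rw [this]
  exact continuousOn_const.inner (continuousOn_u h)

theorem continuousOn_JJ {s : Set ℝ} (h : ContinuousOn W s) (hη : IsTest η) :
    ContinuousOn (JJ W η) s := by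
  have : JJ W η = fun τ => inner ℝ (tl hη) (ut W τ) := funext fun τ => pair_eq_inner hη _
  rw [this]
  exact continuousOn_const.inner (continuousOn_ut h)

theorem continuousOn_AA {s : Set ℝ} (h : ContinuousOn W s) (hη : IsTest η) :
    ContinuousOn (AA W η) s :=
  (isBoundedBilinearMap_tri hη.deriv).continuous.comp_continuousOn
    ((continuousOn_u h).prodMk (continuousOn_ux h))

theorem continuousOn_BB {s : Set ℝ} (h : ContinuousOn W s) (hη : IsTest η) :
    ContinuousOn (BB W η) s :=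
  (isBoundedBilinearMap_tri hη).continuous.comp_continuousOn
    ((continuousOn_u h).prodMk (continuousOn_u h))

section Product

variable {θ : ℝ → ℝ}

theorem prod_contDiff (hη : IsTest η) (hθ : IsTest θ) :
    ContDiff ℝ ∞ (fun q : ℝ × ℝ => η q.1 * θ q.2) :=
  (hη.1.comp contDiff_fst).mul (hθ.1.comp contDiff_snd)

theorem prod_compact (hη : IsTest η) (hθ : IsTest θ) :
    HasCompactSupport (fun q : ℝ × ℝ => η q.1 * θ q.2) := by
  refine HasCompactSupport.intro (hη.2.isCompact.prod hθ.2.isCompact) fun q hq => ?_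
  rw [mem_prod, not_and_or] at hq
  rcases hq with h | h
  · rw [image_eq_zero_of_notMem_tsupport h, zero_mul]
  · rw [image_eq_zero_of_notMem_tsupport h, mul_zero]

theorem prod_tsupport {s : Set ℝ} (hs : tsupport θ ⊆ s) :
    tsupport (fun q : ℝ × ℝ => η q.1 * θ q.2) ⊆ univ ×ˢ s := by
  have : tsupport (fun q : ℝ × ℝ => η q.1 * θ q.2) ⊆ univ ×ˢ tsupport θ := by
    apply closure_minimal _ (isClosed_univ.prod (isClosed_tsupport _))
    intro q hq
    refine ⟨mem_univ _, ?_⟩
    by_contra hc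
    apply hq
    show η q.1 * θ q.2 = 0
    rw [image_eq_zero_of_notMem_tsupport hc, mul_zero]
  exact this.trans (prod_mono le_rfl hs)

end Product

theorem eq_time (hW : IsWeakSolution (Icc 0 T) p W) (hη : IsTest η) {θ : ℝ → ℝ} (hθ : IsTest θ)
    (hs : tsupport θ ⊆ Ioo 0 T) :
    ∫ τ in Icc 0 T, II W η τ * deriv θ τ = - ∫ τ in Icc 0 T, JJ W η τ * θ τ := by
  have h := hW.time_deriv (fun x τ => η x * θ τ) (prod_contDiff hη hθ) (prod_compact hη hθ)
    (by rw [interior_Icc]; exact prod_tsupport hs)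
  have e1 : ∀ τ, ∫ x, w (W τ) x * deriv (fun s => η x * θ s) τ = II W η τ * deriv θ τ := by
    intro τ
    rw [II, ← integral_mul_const]
    congr 1; funext x
    rw [deriv_const_mul_field]
    show u W τ x * _ = _
    ring
  have e2 : ∀ τ, ∫ x, wt (W τ) x * (η x * θ τ) = JJ W η τ * θ τ := by
    intro τ
    rw [JJ, ← integral_mul_const]
    congr 1; funext x
    show ut W τ x * _ = _
    ring
  simp only [e1, e2] at h
  exact h

theorem eq_wave (hT : 0 < T) (hW : IsWeakSolution (Icc 0 T) p W) (hη : IsTest η) {θ : ℝ → ℝ}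
    (hθ : IsTest θ) (hs : tsupport θ ⊆ Ioo 0 T) :
    ∫ τ in Icc 0 T, JJ W η τ * deriv θ τ
      = - ∫ τ in Icc 0 T, (-(5 * JJ W η τ + AA W η τ - (2 * BB W η τ - 6 * II W η τ))) * θ τ := by
  have h := hW.eqn (fun x τ => η x * θ τ) (prod_contDiff hη hθ) (prod_compact hη hθ)
    (by rw [interior_Icc]; exact prod_tsupport hs)
  obtain ⟨C, -, hC⟩ := exists_bound hη
  obtain ⟨C', -, hC'⟩ := exists_bound hη.deriv
  have e1 : ∀ τ, ∫ x, (w (W τ) x * deriv (deriv (fun s => η x * θ s)) τ
      - 5 * w (W τ) x * deriv (fun s => η x * θ s) τ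
      + w (W τ) x * wx (W τ) x * deriv (fun y => η y * θ τ) x
      - (2 * w (W τ) x ^ 2 - 6 * w (W τ) x) * (η x * θ τ))
      = II W η τ * deriv (deriv θ) τ - 5 * (II W η τ * deriv θ τ)
        + (AA W η τ - (2 * BB W η τ - 6 * II W η τ)) * θ τ := by
    intro τ
    have i1 : Integrable (fun x => u W τ x * η x) := hη.integrable_mul _
    have i2 : Integrable (fun x => u W τ x * ux W τ x * deriv η x) :=
      integrable_tri hη.deriv.1.continuous hC' _ _
    have i3 : Integrable (fun x => u W τ x * u W τ x * η x) :=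
      integrable_tri hη.1.continuous hC _ _
    have e : ∀ x, (w (W τ) x * deriv (deriv (fun s => η x * θ s)) τ
      - 5 * w (W τ) x * deriv (fun s => η x * θ s) τ
      + w (W τ) x * wx (W τ) x * deriv (fun y => η y * θ τ) x
      - (2 * w (W τ) x ^ 2 - 6 * w (W τ) x) * (η x * θ τ))
      = (deriv (deriv θ) τ - 5 * deriv θ τ + 6 * θ τ) * (u W τ x * η x)
        + (θ τ * (u W τ x * ux W τ x * deriv η x) - 2 * θ τ * (u W τ x * u W τ x * η x)) := by
      intro x
      have d1 : deriv (fun s => η x * θ s) = fun s => η x * deriv θ s := by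
        funext s; rw [deriv_const_mul_field]
      have d2 : deriv (fun s => η x * deriv θ s) τ = η x * deriv (deriv θ) τ := by
        rw [deriv_const_mul_field]
      rw [d1, d2, deriv_mul_const_field]
      show u W τ x * _ - 5 * u W τ x * _ + u W τ x * ux W τ x * _
        - (2 * u W τ x ^ 2 - 6 * u W τ x) * _ = _
      ring
    have k1 : Integrable (fun x => (θ τ * (u W τ x * ux W τ x * deriv η x)
        - 2 * θ τ * (u W τ x * u W τ x * η x))) := (i2.const_mul _).sub (i3.const_mul _)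
    rw [integral_congr_ae (Eventually.of_forall e), integral_add (i1.const_mul _) k1,
      integral_sub (i2.const_mul _) (i3.const_mul _),
      integral_const_mul, integral_const_mul, integral_const_mul, II, AA, BB]
    ring
  simp only [e1] at h
  have cI := continuousOn_II hW.cont hη
  have cJ := continuousOn_JJ hW.cont hη
  have cA := continuousOn_AA hW.cont hη
  have cB := continuousOn_BB hW.cont hη
  have c0 : ContinuousOn θ (Icc 0 T) := hθ.1.continuous.continuousOn
  have c1 : ContinuousOn (deriv θ) (Icc 0 T) := hθ.deriv.1.continuous.continuousOn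
  have c2 : ContinuousOn (deriv (deriv θ)) (Icc 0 T) := hθ.deriv.deriv.1.continuous.continuousOn
  have j1 : IntegrableOn (fun τ => II W η τ * deriv (deriv θ) τ) (Icc 0 T) :=
    (cI.mul c2).integrableOn_Icc
  have j2 : IntegrableOn (fun τ => II W η τ * deriv θ τ) (Icc 0 T) :=
    (cI.mul c1).integrableOn_Icc
  have j3 : IntegrableOn (fun τ => (AA W η τ - (2 * BB W η τ - 6 * II W η τ)) * θ τ) (Icc 0 T) :=
    ((cA.sub ((continuousOn_const.mul cB).sub (continuousOn_const.mul cI))).mul c0).integrableOn_Icc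
  have j4 : IntegrableOn (fun τ => JJ W η τ * θ τ) (Icc 0 T) := (cJ.mul c0).integrableOn_Icc
  have j5 : IntegrableOn (fun τ => II W η τ * deriv (deriv θ) τ - 5 * (II W η τ * deriv θ τ))
    (Icc 0 T) := j1.sub (j2.const_mul 5)
  rw [integral_add j5 j3, integral_sub j1 (j2.const_mul 5),
    integral_const_mul, eq_time hW hη hθ hs,
    eq_time hW hη hθ.deriv (tsupport_deriv_subset.trans hs)] at h
  have e3 : ∫ τ in Icc 0 T, (-(5 * JJ W η τ + AA W η τ - (2 * BB W η τ - 6 * II W η τ))) * θ τ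
      = -(5 * ∫ τ in Icc 0 T, JJ W η τ * θ τ)
        - ∫ τ in Icc 0 T, (AA W η τ - (2 * BB W η τ - 6 * II W η τ)) * θ τ := by
    have j6 : IntegrableOn (fun τ => -(5 * (JJ W η τ * θ τ))) (Icc 0 T) := (j4.const_mul 5).neg
    rw [← integral_const_mul, ← integral_neg, ← integral_sub j6 j3]
    congr 1; funext τ; ring
  rw [e3]
  linarith

theorem II_eq (hT : 0 < T) (hW : IsWeakSolution (Icc 0 T) p W) (hη : IsTest η) :
    ∀ τ ∈ Icc 0 T, II W η τ = II W η 0 + ∫ s in (0 : ℝ)..τ, JJ W η s :=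
  dbr hT (continuousOn_II hW.cont hη) (continuousOn_JJ hW.cont hη)
    (fun _ hθ hs => eq_time hW hη hθ hs)

theorem JJ_eq (hT : 0 < T) (hW : IsWeakSolution (Icc 0 T) p W) (hη : IsTest η) :
    ∀ τ ∈ Icc 0 T, JJ W η τ = JJ W η 0 + ∫ s in (0 : ℝ)..τ,
      (-(5 * JJ W η s + AA W η s - (2 * BB W η s - 6 * II W η s))) := by
  have cI := continuousOn_II hW.cont hη
  have cJ := continuousOn_JJ hW.cont hη
  have cA := continuousOn_AA hW.cont hη
  have cB := continuousOn_BB hW.cont hη
  refine dbr hT cJ ?_ (fun _ hθ hs => eq_wave hT hW hη hθ hs)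
  exact (((continuousOn_const.mul cJ).add cA).sub
    ((continuousOn_const.mul cB).sub (continuousOn_const.mul cI))).neg

theorem norm_u_sub_le (hT : 0 < T) (hW : IsWeakSolution (Icc 0 T) p W) {N : ℝ} {s : ℝ}
    (hs : s ∈ Icc 0 T) (hN : ∀ σ ∈ Icc 0 s, ‖W σ‖ ≤ N) : ‖u W s - u W 0‖ ≤ N * s := by
  have hsT : uIcc 0 s ⊆ Icc 0 T := by
    rw [uIcc_of_le hs.1]; exact Icc_subset_Icc le_rfl hs.2
  have hint : IntervalIntegrable (ut W) volume 0 s :=
    ((continuousOn_ut hW.cont).mono hsT).intervalIntegrable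
  set z : L2 := u W s - u W 0 - ∫ σ in (0 : ℝ)..s, ut W σ with hz
  have hz0 : z = 0 := by
    rw [Lp.eq_zero_iff_ae_eq_zero]
    refine ae_eq_zero_of_integral_contDiff_smul_eq_zero
      ((Lp.memLp z).locallyIntegrable (by norm_num)) ?_
    intro η h1 h2
    have hη : IsTest η := ⟨h1, h2⟩
    have e1 : ∫ x, η x • z x = inner ℝ (tl hη) z := by
      rw [← pair_eq_inner]
      congr 1; funext x; rw [smul_eq_mul, mul_comm]
    have e2 : inner ℝ (tl hη) (∫ σ in (0 : ℝ)..s, ut W σ) = ∫ σ in (0 : ℝ)..s, JJ W η σ := by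
      have := (innerSL ℝ (tl hη)).intervalIntegral_comp_comm hint
      rw [innerSL_apply_apply] at this
      rw [← this]
      refine intervalIntegral.integral_congr fun σ _ => ?_
      show inner ℝ (tl hη) (ut W σ) = JJ W η σ
      rw [JJ, pair_eq_inner hη]
    rw [e1, hz, inner_sub_right, inner_sub_right, e2, ← pair_eq_inner, ← pair_eq_inner]
    have := II_eq hT hW hη s hs
    simp only [II] at this
    linarith
  have h1 : u W s - u W 0 = ∫ σ in (0 : ℝ)..s, ut W σ := by
    have := hz0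
    rw [hz, sub_eq_zero] at this
    exact this
  rw [h1]
  have := intervalIntegral.norm_integral_le_of_norm_le_const (a := 0) (b := s) (C := N)
    (f := ut W) (fun σ hσ => by
      rw [uIoc_of_le hs.1] at hσ
      exact (norm_ut_le W σ).trans (hN σ ⟨hσ.1.le, hσ.2⟩))
  rw [sub_zero, abs_of_nonneg hs.1] at this
  exact this

end Solution

end H59.Wave
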