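import Pool.Agent.H59.WaveDefs

open MeasureTheory Set Filter Topology
open scoped ContDiff

namespace H59.Wave

theorem IsTest.add {φ ψ : ℝ → ℝ} (hφ : IsTest φ) (hψ : IsTest ψ) :
    IsTest (fun x => φ x + ψ x) := ⟨hφ.1.add hψ.1, hφ.2.add hψ.2⟩

theorem IsTest.sub {φ ψ : ℝ → ℝ} (hφ : IsTest φ) (hψ : IsTest ψ) :
    IsTest (fun x => φ x - ψ x) := ⟨hφ.1.sub hψ.1, by
      have h : (fun x => φ x - ψ x) = φ + -ψ := by
        funext x; simp [sub_eq_add_neg]
      rw [h]
      exact hφ.2.add hψ.2.neg⟩

theorem IsTest.const_mul {φ : ℝ → ℝ} (c : ℝ) (hφ : IsTest φ) :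
    IsTest (fun x => c * φ x) := ⟨contDiff_const.mul hφ.1, hφ.2.mul_left⟩

/-- a smooth function supported in `(0,T)` with integral zero is the derivative of another one. -/
theorem exists_primitive {T : ℝ} {ψ : ℝ → ℝ} (hψ : IsTest ψ) (hs : tsupport ψ ⊆ Ioo 0 T)
    (h0 : ∫ x, ψ x = 0) : ∃ θ : ℝ → ℝ, IsTest θ ∧ tsupport θ ⊆ Ioo 0 T ∧ deriv θ = ψ := by
  rcases (tsupport ψ).eq_empty_or_nonempty with he | hne
  · refine ⟨fun _ => 0, ⟨contDiff_const, HasCompactSupport.zero⟩, ?_, ?_⟩
    · have : tsupport (fun _ : ℝ => (0 : ℝ)) = ∅ := by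
        rw [tsupport_eq_empty_iff]; rfl
      rw [this]; exact empty_subset _
    · rw [tsupport_eq_empty_iff] at he
      rw [he]; funext x; simp
  · have hcomp : IsCompact (tsupport ψ) := hψ.2
    obtain ⟨a, haT, ha⟩ := hcomp.exists_isLeast hne
    obtain ⟨b, hbT, hb⟩ := hcomp.exists_isGreatest hne
    have hψ0 : ∀ x, x ∉ Icc a b → ψ x = 0 := by
      intro x hx
      by_contra hc
      have : x ∈ tsupport ψ := subset_tsupport ψ hc
      exact hx ⟨ha this, hb this⟩
    have hint : Integrable ψ := hψ.1.continuous.integrable_of_hasCompactSupport hψ.2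
    set θ : ℝ → ℝ := fun x => ∫ t in a..x, ψ t with hθ
    have hd : ∀ x, HasDerivAt θ (ψ x) x := fun x =>
      intervalIntegral.integral_hasDerivAt_right (hint.intervalIntegrable)
        (hψ.1.continuous.stronglyMeasurableAtFilter _ _) hψ.1.continuous.continuousAt
    have hθd : deriv θ = ψ := funext fun x => (hd x).deriv
    have hθ0 : ∀ x, x ∉ Icc a b → θ x = 0 := by
      intro x hx
      rw [mem_Icc, not_and_or, not_le, not_le] at hx
      rcases hx with hx | hx
      · rw [hθ]
        show ∫ t in a..x, ψ t = 0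
        rw [intervalIntegral.integral_of_ge hx.le]
        have : ∫ t in Ioc x a, ψ t = 0 := by
          rw [integral_Ioc_eq_integral_Ioo]
          refine setIntegral_eq_zero_of_forall_eq_zero fun t ht => hψ0 t ?_
          intro h; exact absurd ht.2 (not_lt.2 h.1)
        rw [this, neg_zero]
      · show ∫ t in a..x, ψ t = 0
        have hab : a ≤ b := ha hbT
        have h1 : ∫ t in a..x, ψ t = ∫ t, ψ t := by
          rw [intervalIntegral.integral_of_le (hab.trans hx.le),
            ← integral_Icc_eq_integral_Ioc]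
          apply setIntegral_eq_integral_of_forall_compl_eq_zero
          intro t ht
          apply hψ0
          intro h; exact ht ⟨h.1, h.2.trans hx.le⟩
        rw [h1, h0]
    have hts : tsupport θ ⊆ Icc a b := by
      apply closure_minimal _ isClosed_Icc
      intro x hx
      by_contra hc
      exact hx (hθ0 x hc)
    refine ⟨θ, ⟨?_, HasCompactSupport.intro isCompact_Icc hθ0⟩, ?_, hθd⟩
    · rw [contDiff_infty_iff_deriv]
      exact ⟨fun x => (hd x).differentiableAt, by rw [hθd]; exact hψ.1⟩
    · refine hts.trans ?_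
      intro x hx
      exact ⟨(hs haT).1.trans_le hx.1, hx.2.trans_lt (hs hbT).2⟩

/-- du Bois-Reymond lemma. -/
theorem dbr {T : ℝ} (hT : 0 < T) {f g : ℝ → ℝ} (hf : ContinuousOn f (Icc 0 T))
    (hg : ContinuousOn g (Icc 0 T))
    (h : ∀ θ : ℝ → ℝ, IsTest θ → tsupport θ ⊆ Ioo 0 T →
      ∫ τ in Icc 0 T, f τ * deriv θ τ = - ∫ τ in Icc 0 T, g τ * θ τ) :
    ∀ τ ∈ Icc 0 T, f τ = f 0 + ∫ s in (0 : ℝ)..τ, g s := by
  -- extend continuously
  set F : ℝ → ℝ := IccExtend hT.le ((Icc 0 T).domRestrict f) with hF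
  set G : ℝ → ℝ := IccExtend hT.le ((Icc 0 T).domRestrict g) with hG
  have hFc : Continuous F := (continuousOn_iff_continuous_domRestrict.1 hf).Icc_extend'
  have hGc : Continuous G := (continuousOn_iff_continuous_domRestrict.1 hg).Icc_extend'
  have hFf : ∀ x ∈ Icc 0 T, F x = f x := fun x hx => by
    rw [hF, IccExtend_of_mem hT.le _ hx]; rfl
  have hGg : ∀ x ∈ Icc 0 T, G x = g x := fun x hx => by
    rw [hG, IccExtend_of_mem hT.le _ hx]; rfl
  set Q : ℝ → ℝ := fun x => F x - ∫ s in (0 : ℝ)..x, G s with hQ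
  have hPd : ∀ x, HasDerivAt (fun x => ∫ s in (0 : ℝ)..x, G s) (G x) x := fun x =>
      intervalIntegral.integral_hasDerivAt_right (hGc.intervalIntegrable _ _)
        (hGc.stronglyMeasurableAtFilter _ _) hGc.continuousAt
  have hPc : Continuous (fun x => ∫ s in (0 : ℝ)..x, G s) :=
    continuous_iff_continuousAt.2 fun x => (hPd x).continuousAt
  have hQc : Continuous Q := hFc.sub hPc
  -- distributional derivative of `Q` is zero
  have hQ0 : ∀ θ : ℝ → ℝ, IsTest θ → tsupport θ ⊆ Ioo 0 T → ∫ x, Q x * deriv θ x = 0 := by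
    intro θ hθ hs
    have hθ0 : ∀ x, x ∉ Icc 0 T → θ x = 0 := fun x hx =>
      image_eq_zero_of_notMem_tsupport fun hc => hx (Ioo_subset_Icc_self (hs hc))
    have hθ'0 : ∀ x, x ∉ Icc 0 T → deriv θ x = 0 := fun x hx =>
      image_eq_zero_of_notMem_tsupport fun hc =>
        hx (Ioo_subset_Icc_self (hs (tsupport_deriv_subset hc)))
    have e1 : ∫ x, F x * deriv θ x = ∫ x in Icc 0 T, f x * deriv θ x := by
      rw [← setIntegral_eq_integral_of_forall_compl_eq_zero (s := Icc 0 T)]
      · refine setIntegral_congr_fun measurableSet_Icc fun x hx => ?_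
        show F x * deriv θ x = f x * deriv θ x
        rw [hFf x hx]
      · intro x hx; rw [hθ'0 x hx, mul_zero]
    have e2 : ∫ x, G x * θ x = ∫ x in Icc 0 T, g x * θ x := by
      rw [← setIntegral_eq_integral_of_forall_compl_eq_zero (s := Icc 0 T)]
      · refine setIntegral_congr_fun measurableSet_Icc fun x hx => ?_
        show G x * θ x = g x * θ x
        rw [hGg x hx]
      · intro x hx; rw [hθ0 x hx, mul_zero]
    have i1 : Integrable (fun x => F x * deriv θ x) :=
      (hFc.mul hθ.deriv.1.continuous).integrable_of_hasCompactSupport hθ.deriv.2.mul_left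
    have i2 : Integrable (fun x => (∫ s in (0 : ℝ)..x, G s) * deriv θ x) :=
      (hPc.mul hθ.deriv.1.continuous).integrable_of_hasCompactSupport hθ.deriv.2.mul_left
    have i3 : Integrable (fun x => G x * θ x) :=
      (hGc.mul hθ.1.continuous).integrable_of_hasCompactSupport hθ.2.mul_left
    have i4 : Integrable (fun x => (∫ s in (0 : ℝ)..x, G s) * θ x) :=
      (hPc.mul hθ.1.continuous).integrable_of_hasCompactSupport hθ.2.mul_left
    have e3 : ∫ x, (∫ s in (0 : ℝ)..x, G s) * deriv θ x = - ∫ x, G x * θ x :=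
      integral_mul_deriv_eq_deriv_mul_of_integrable
        (fun x _ => hPd x) (fun x _ => ((hθ.1.differentiable (by simp)) x).hasDerivAt) i2 i3 i4
    have e4 : ∫ x, Q x * deriv θ x
        = ∫ x, (F x * deriv θ x - (∫ s in (0 : ℝ)..x, G s) * deriv θ x) := by
      refine integral_congr_ae (Eventually.of_forall fun x => ?_)
      show (F x - ∫ s in (0 : ℝ)..x, G s) * deriv θ x = _
      ring
    rw [e4, integral_sub i1 i2, e1, e3, e2, h θ hθ hs]
    ring
  -- a reference bump
  have hT2 : 0 < T / 4 := by positivity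
  let b : ContDiffBump (T / 2) := ⟨T / 8, T / 4, by positivity, by linarith⟩
  have hbt : tsupport b ⊆ Ioo 0 T := by
    rw [b.tsupport_eq, Real.closedBall_eq_Icc]
    intro x hx
    constructor
    · have := hx.1
      have : T / 2 - T / 4 ≤ x := hx.1
      linarith
    · have : x ≤ T / 2 + T / 4 := hx.2
      linarith
  have hbI : 0 < ∫ x, b x := b.integral_pos
  have hbtest : IsTest b := ⟨b.contDiff, b.hasCompactSupport⟩
  have hbint : Integrable (fun x => b x) := b.integrable
  set c : ℝ := (∫ x, Q x * b x) / ∫ x, b x with hc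
  have hQc0 : ∀ ψ : ℝ → ℝ, IsTest ψ → tsupport ψ ⊆ Ioo 0 T → ∫ x, (Q x - c) * ψ x = 0 := by
    intro ψ hψ hs
    have hψint : Integrable ψ := hψ.1.continuous.integrable_of_hasCompactSupport hψ.2
    set m : ℝ := (∫ x, ψ x) / ∫ x, b x with hm
    have ht : IsTest (fun x => ψ x - m * b x) := hψ.sub (hbtest.const_mul m)
    have hts : tsupport (fun x => ψ x - m * b x) ⊆ Ioo 0 T := by
      have h1 : tsupport (fun x => ψ x - m * b x) ⊆ tsupport ψ ∪ tsupport b := by
        apply closure_minimal
        · intro x hx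
          by_contra hcc
          rw [mem_union, not_or] at hcc
          apply hx
          show ψ x - m * b x = 0
          rw [image_eq_zero_of_notMem_tsupport hcc.1, image_eq_zero_of_notMem_tsupport hcc.2]
          ring
        · exact (isClosed_tsupport _).union (isClosed_tsupport _)
      exact h1.trans (union_subset hs hbt)
    have h0 : ∫ x, (ψ x - m * b x) = 0 := by
      rw [integral_sub hψint (hbint.const_mul m), integral_const_mul, hm]
      field_simp
      ring
    obtain ⟨θ, hθ, hθs, hθd⟩ := exists_primitive ht hts h0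
    have h1 := hQ0 θ hθ hθs
    rw [hθd] at h1
    have j1 : Integrable (fun x => Q x * ψ x) :=
      (hQc.mul hψ.1.continuous).integrable_of_hasCompactSupport hψ.2.mul_left
    have j2 : Integrable (fun x => Q x * b x) :=
      (hQc.mul b.continuous).integrable_of_hasCompactSupport b.hasCompactSupport.mul_left
    have h2 : ∫ x, Q x * (ψ x - m * b x) = (∫ x, Q x * ψ x) - m * ∫ x, Q x * b x := by
      rw [← integral_const_mul, ← integral_sub j1 (j2.const_mul m)]
      congr 1; funext x; ring
    have h3 : ∫ x, (Q x - c) * ψ x = (∫ x, Q x * ψ x) - c * ∫ x, ψ x := by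
      rw [← integral_const_mul, ← integral_sub j1 (hψint.const_mul c)]
      congr 1; funext x; ring
    rw [h3]
    rw [h2] at h1
    have h4 : c * ∫ x, ψ x = m * ∫ x, Q x * b x := by
      rw [hc, hm]; ring
    rw [h4]; exact h1
  -- `Q = c` on `(0,T)`
  have hae : ∀ᵐ x, x ∈ Ioo 0 T → Q x - c = 0 := by
    refine isOpen_Ioo.ae_eq_zero_of_integral_contDiff_smul_eq_zero
      (f := fun x => Q x - c) ?_ ?_
    · exact (hQc.sub continuous_const).locallyIntegrable.locallyIntegrableOn _
    · intro ψ h1 h2 h3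
      have := hQc0 ψ ⟨h1, h2⟩ h3
      simpa [mul_comm] using this
  have hQeq : ∀ x ∈ Icc 0 T, Q x = c := by
    have hclosed : IsClosed {x | Q x = c} := isClosed_eq hQc continuous_const
    have hdense : Ioo 0 T ⊆ closure {x | Q x = c} := by
      intro x hx
      rw [mem_closure_iff]
      intro o ho hxo
      have hopen : IsOpen (o ∩ Ioo 0 T) := ho.inter isOpen_Ioo
      have hpos : 0 < volume (o ∩ Ioo 0 T) := hopen.measure_pos _ ⟨x, hxo, hx⟩
      by_contra hcon
      rw [not_nonempty_iff_eq_empty] at hcon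
      have : volume (o ∩ Ioo 0 T) = 0 := by
        refine measure_mono_null ?_ (ae_iff.1 hae)
        intro y hy
        rw [mem_ofPred_eq]
        intro hcc
        have h5 := hcc hy.2
        have : y ∈ o ∩ {x | Q x = c} := ⟨hy.1, by
          show Q y = c
          linarith⟩
        rw [hcon] at this
        exact this
      exact hpos.ne' this
    have h6 : closure (Ioo 0 T) ⊆ {x | Q x = c} := by
      apply closure_minimal _ hclosed
      intro x hx
      have := hdense hx
      rwa [hclosed.closure_eq] at this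
    rw [closure_Ioo hT.ne] at h6
    exact h6
  intro τ hτ
  have h0 : (0 : ℝ) ∈ Icc 0 T := ⟨le_rfl, hT.le⟩
  have e1 := hQeq τ hτ
  have e2 := hQeq 0 h0
  simp only [hQ] at e1 e2
  rw [intervalIntegral.integral_same, sub_zero, hFf 0 h0] at e2
  rw [hFf τ hτ] at e1
  have e3 : ∫ s in (0 : ℝ)..τ, G s = ∫ s in (0 : ℝ)..τ, g s := by
    refine intervalIntegral.integral_congr fun x hx => ?_
    rw [uIcc_of_le hτ.1] at hx
    exact hGg x ⟨hx.1, hx.2.trans hτ.2⟩
  rw [e3] at e1
  linarith

end H59.Wave
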